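import Pool.Agent.P.MP_6c8efb_pr.Glue

/-! Crossings of annuli: polynomial decay, and geometric decay of the number of crossing clusters. -/

namespace Pool.Agent.P.MP_6c8efb_pr

/-- the closed square annulus -/
def An (z : V) (r R : ℤ) : Set V := {w | r ≤ nm z w ∧ nm z w ≤ R}

/-- an open path joins the box of radius `r` to the outside of the box of radius `R` -/
def Arm1 (z : V) (r R : ℤ) : Set Cfg :=
  {ω | ∃ x y, (nm z x ≤ r ∧ R ≤ nm z y) ∧ Conn ω Set.univ x y}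

theorem nm_lip' (z a : V) (d : Fin 4) : |nm z (a + u d) - nm z a| ≤ 1 := by
  have h1 := lip_fst a d
  have h2 := lip_snd a d
  simp only [nm, abs_eq_max_neg] at *
  omega

theorem An_finite (z : V) (r R : ℤ) : (An z r R).Finite :=
  (ball_finite z Set.univ R).subset fun _ hw => ⟨trivial, hw.2⟩

theorem Arm1_eq (z : V) {r R : ℤ} (h : r ≤ R) : Arm1 z r R =
    {ω | ∃ x y, (nm z x = r ∧ nm z y = R) ∧ Conn ω (An z r R) x y} := by
  ext ω
  constructor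
  · rintro ⟨x, y, ⟨h1, h2⟩, h3⟩
    obtain ⟨x', y', b1, b2, -, b4⟩ := h3.strip (nm_lip' z) h h1 h2
    exact ⟨x', y', ⟨b1, b2⟩, b4.mono_set fun w hw => hw.2⟩
  · rintro ⟨x, y, ⟨h1, h2⟩, h3⟩
    exact ⟨x, y, ⟨h1.le, h2.ge⟩, h3.mono_set (Set.subset_univ _)⟩

theorem dep_Arm1 (z : V) {r R : ℤ} (h : r ≤ R) : Dep (Arm1 z r R) (In (An z r R)) :=
  Arm1_eq z h ▸ dep_conn _ _

theorem loc_Arm1 (z : V) {r R : ℤ} (h : r ≤ R) : Loc (Arm1 z r R) :=
  (dep_Arm1 z h).loc (In_finite (An_finite ..))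

theorem up_Arm1 (z : V) (r R : ℤ) : IsUpperSet (Arm1 z r R) := up_conn _ _

theorem Arm1_mono (z : V) {r r' R R' : ℤ} (hr : r ≤ r') (hR : R' ≤ R) :
    Arm1 z r R ⊆ Arm1 z r' R' :=
  fun _ ⟨x, y, ⟨h1, h2⟩, h3⟩ => ⟨x, y, ⟨h1.trans hr, hR.trans h2⟩, h3⟩

/-- short crossings of long rectangles fail with positive probability -/
theorem hc_short (k : ℕ) : ∃ c : ℝ, 0 < c ∧ ∀ m : ℤ, 2 ≤ m → hc (2 * m) (k * m) ≤ 1 - c := by
  obtain ⟨c, hc0, h⟩ := rsw (2 * k)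
  refine ⟨c, hc0, fun m hm => ?_⟩
  have h1 : Q (VC 0 (k * m) 0 (2 * m)) ≤ Q {ω | du ω ∈ HC (-1) (k * m) 0 (2 * m - 1)}ᶜ :=
    Pr_mono fun ω b => excl (by omega) b
  rw [Q, Q, Pr_compl _ (loc_du (loc_HC ..)), ← Q, ← Q, Q_du (loc_HC ..), Q_HC, Q_VC] at h1
  simp only [sub_zero, sub_neg_eq_add] at h1
  have h2 := h (m - 1) (by omega)
  have h3 := hc_mono (w := ((2 * k : ℕ) + 2) * (m - 1)) (w' := k * m + 1) (h := 2 * (m - 1))
    (h' := 2 * m - 1) (by positivity) (by push_cast; nlinarith [Int.natCast_nonneg k]) (by omega)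
  linarith

theorem ann_one : ∃ q : ℝ, 0 < q ∧ q < 1 ∧ ∀ (z : V) (m : ℤ), 2 ≤ m → Q (Arm1 z m (3 * m)) ≤ q := by
  obtain ⟨c, hc0, h⟩ := hc_short 6
  refine ⟨max (1 - c ^ 4) (1 / 2), by positivity, max_lt (by linarith [pow_pos hc0 4]) (by norm_num),
    fun z m hm => le_trans ?_ (le_max_left _ _)⟩
  let A : Fin 4 → Set Cfg := ![(HC (z.1 + m) (z.1 + 3 * m) (z.2 - 3 * m) (z.2 + 3 * m))ᶜ,
    (HC (z.1 - 3 * m) (z.1 - m) (z.2 - 3 * m) (z.2 + 3 * m))ᶜ,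
    (VC (z.1 - 3 * m) (z.1 + 3 * m) (z.2 + m) (z.2 + 3 * m))ᶜ,
    (VC (z.1 - 3 * m) (z.1 + 3 * m) (z.2 - 3 * m) (z.2 - m))ᶜ]
  have h0 := h m hm
  push_cast at h0
  have lA : ∀ k, Loc (A k) := fun k => by
    rcases cases4 k with rfl | rfl | rfl | rfl
    exacts [(loc_HC ..).compl, (loc_HC ..).compl, (loc_VC ..).compl, (loc_VC ..).compl]
  have h1 := harris_lower_prod (fun _ => hf) Finset.univ (A := A) (fun k _ => lA k) fun k _ => by
    rcases cases4 k with rfl | rfl | rfl | rfl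
    exacts [(up_HC ..).compl, (up_HC ..).compl, (up_VC ..).compl, (up_VC ..).compl]
  have h2 : ∀ k, c ≤ Pr (fun _ => hf) (A k) := fun k => by
    rcases cases4 k with rfl | rfl | rfl | rfl
    · show c ≤ Pr _ (HC _ _ _ _)ᶜ
      rw [Pr_compl _ (loc_HC ..), ← Q, Q_HC]; ring_nf at h0 ⊢; linarith
    · show c ≤ Pr _ (HC _ _ _ _)ᶜ
      rw [Pr_compl _ (loc_HC ..), ← Q, Q_HC]; ring_nf at h0 ⊢; linarith
    · show c ≤ Pr _ (VC _ _ _ _)ᶜ
      rw [Pr_compl _ (loc_VC ..), ← Q, Q_VC]; ring_nf at h0 ⊢; linarith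
    · show c ≤ Pr _ (VC _ _ _ _)ᶜ
      rw [Pr_compl _ (loc_VC ..), ← Q, Q_VC]; ring_nf at h0 ⊢; linarith
  have h3 : c ^ 4 ≤ ∏ k, Pr (fun _ => hf) (A k) := by
    have := Finset.prod_le_prod (s := Finset.univ) (f := fun _ : Fin 4 => c)
      (fun _ _ => hc0.le) fun k _ => h2 k
    simpa using this
  have h4 : Q (Arm1 z m (3 * m)) ≤ Pr (fun _ => hf) {ω | ∀ k ∈ Finset.univ, ω ∈ A k}ᶜ := by
    refine Pr_mono fun ω hω b => ?_
    rw [Arm1_eq z (by omega)] at hω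
    obtain ⟨x, y, ⟨h5, h6⟩, h7⟩ := hω
    have hx : x ∈ An z m (3 * m) := ⟨h5.ge, by omega⟩
    simp only [nm, abs_eq_max_neg] at h5 h6
    have hs : ∀ w ∈ An z m (3 * m), z.1 - 3 * m ≤ w.1 ∧ w.1 ≤ z.1 + 3 * m ∧ z.2 - 3 * m ≤ w.2 ∧
        w.2 ≤ z.2 + 3 * m := fun w hw => by
      have := hw.2
      simp only [nm, abs_eq_max_neg] at this
      omega
    have c4 : y.1 = z.1 + 3 * m ∨ y.1 = z.1 - 3 * m ∨ y.2 = z.2 + 3 * m ∨ y.2 = z.2 - 3 * m := by
      omega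
    rcases c4 with c4 | c4 | c4 | c4
    · obtain ⟨x', y', b1, b2, b3, b4⟩ := h7.strip lip_fst (a := z.1 + m) (b := z.1 + 3 * m)
        (by omega) (by omega) (by omega)
      have := hs _ (b3.mem hx)
      refine b 0 (Finset.mem_univ _) ⟨x', y', ⟨?_, b1, b2⟩, b4.mono_set fun w hw => ?_⟩
      · simp only [mem_Rc]; omega
      · have := hs w hw.1
        have := hw.2
        simp only [mem_Rc, Set.mem_ofPred_eq] at *; omega
    · obtain ⟨x', y', b1, b2, b3, b4⟩ := h7.symm'.strip lip_fst (a := z.1 - 3 * m) (b := z.1 - m)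
        (by omega) (by omega) (by omega)
      have := hs _ (b3.mem (h7.mem hx))
      refine b 1 (Finset.mem_univ _) ⟨x', y', ⟨?_, b1, b2⟩, b4.mono_set fun w hw => ?_⟩
      · simp only [mem_Rc]; omega
      · have := hs w hw.1
        have := hw.2
        simp only [mem_Rc, Set.mem_ofPred_eq] at *; omega
    · obtain ⟨x', y', b1, b2, b3, b4⟩ := h7.strip lip_snd (a := z.2 + m) (b := z.2 + 3 * m)
        (by omega) (by omega) (by omega)
      have := hs _ (b3.mem hx)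
      refine b 2 (Finset.mem_univ _) ⟨x', y', ⟨?_, b1, b2⟩, b4.mono_set fun w hw => ?_⟩
      · simp only [mem_Rc]; omega
      · have := hs w hw.1
        have := hw.2
        simp only [mem_Rc, Set.mem_ofPred_eq] at *; omega
    · obtain ⟨x', y', b1, b2, b3, b4⟩ := h7.symm'.strip lip_snd (a := z.2 - 3 * m) (b := z.2 - m)
        (by omega) (by omega) (by omega)
      have := hs _ (b3.mem (h7.mem hx))
      refine b 3 (Finset.mem_univ _) ⟨x', y', ⟨?_, b1, b2⟩, b4.mono_set fun w hw => ?_⟩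
      · simp only [mem_Rc]; omega
      · have := hs w hw.1
        have := hw.2
        simp only [mem_Rc, Set.mem_ofPred_eq] at *; omega
  rw [Pr_compl _ (Loc.forall_mem _ fun k _ => lA k)] at h4
  linarith

theorem ann_pow : ∃ q : ℝ, 0 < q ∧ q < 1 ∧ ∀ (z : V) (m R : ℤ) (K : ℕ), 2 ≤ m → 4 ^ K * m ≤ R →
    Q (Arm1 z m R) ≤ q ^ K := by
  obtain ⟨q, q0, q1, h⟩ := ann_one
  refine ⟨q, q0, q1, fun z m R K hm hR => ?_⟩
  have p4 : ∀ k : ℕ, m ≤ 4 ^ k * m := fun k =>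
    le_mul_of_one_le_left (by omega) (one_le_pow₀ (by norm_num))
  have p5 : ∀ {k l : ℕ}, k < l → 4 * (4 ^ k * m) ≤ 4 ^ l * m := fun {k l} hkl => by
    have : (4 : ℤ) ^ (k + 1) ≤ 4 ^ l := pow_le_pow_right₀ (by norm_num) hkl
    rw [pow_succ] at this
    nlinarith
  have h1 := Pr_forall_indep (fun _ => hf) (Finset.range K)
    (A := fun k => Arm1 z (4 ^ k * m) (3 * (4 ^ k * m)))
    (S := fun k => In (An z (4 ^ k * m) (3 * (4 ^ k * m))))
    (fun k _ => loc_Arm1 z (by have := p4 k; omega))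
    (fun k _ => dep_Arm1 z (by have := p4 k; omega)) fun k _ l _ hkl => by
      refine In_disjoint (Set.disjoint_left.2 fun w h1 h2 => ?_)
      have a1 := h1.1
      have a2 := h1.2
      have a3 := h2.1
      have a4 := h2.2
      have := p4 k
      have := p4 l
      rcases lt_or_gt_of_ne hkl with b | b <;> have := p5 b <;> omega
  refine (Pr_mono (B := {ω | ∀ k ∈ Finset.range K, ω ∈ Arm1 z (4 ^ k * m) (3 * (4 ^ k * m))})
    fun ω hω k hk => Arm1_mono z (p4 k) ?_ hω).trans (h1.le.trans ?_)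
  · have := p5 (Finset.mem_range.1 hk)
    have := p4 k
    omega
  · have := Finset.prod_le_prod (s := Finset.range K) (g := fun _ => q)
      (f := fun k => Pr (fun _ => hf) (Arm1 z (4 ^ k * m) (3 * (4 ^ k * m))))
      (fun _ _ => Pr_nonneg _ _) fun k _ => h z _ ((hm.trans (p4 k)))
    simpa using this

/-- polynomial decay of the one-arm probability -/
theorem ann_decay : ∃ c C : ℝ, 0 < c ∧ 0 < C ∧ ∀ (z : V) (r R : ℤ), 1 ≤ r → 0 < R →
    Q (Arm1 z r R) ≤ C * ((r : ℝ) / R) ^ c := by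
  obtain ⟨q, q0, q1, h⟩ := ann_pow
  have l4 : 0 < Real.log 4 := Real.log_pos (by norm_num)
  have lq : Real.log q < 0 := Real.log_neg q0 q1
  set c := -Real.log q / Real.log 4 with hc
  have c0 : 0 < c := div_pos (by linarith) l4
  have hq : (4 : ℝ) ^ (-c) = q := by
    rw [Real.rpow_def_of_pos (by norm_num), hc, neg_div, neg_neg, mul_div_cancel₀ _ l4.ne',
      Real.exp_log q0]
  refine ⟨c, 8 ^ c, c0, by positivity, fun z r R hr hR => ?_⟩
  have r0 : (0 : ℝ) < r := by exact_mod_cast (by omega : 0 < r)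
  have R0 : (0 : ℝ) < R := by exact_mod_cast hR
  rw [← Real.mul_rpow (by norm_num) (by positivity)]
  by_cases b : R < 2 * r
  · refine (Pr_le_one _ _).trans (Real.one_le_rpow ?_ c0.le)
    have : (R : ℝ) < 2 * r := by exact_mod_cast b
    rw [mul_div_assoc', le_div_iff₀ R0]
    linarith
  have ex : ∃ K : ℕ, R < 4 ^ (K + 1) * (2 * r) := by
    obtain ⟨K, hK⟩ := pow_unbounded_of_one_lt R (by norm_num : (1 : ℤ) < 4)
    refine ⟨K, hK.trans_le ?_⟩
    have : (0 : ℤ) < 4 ^ K := by positivity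
    rw [pow_succ]
    nlinarith
  classical
  have k1 := Nat.find_spec ex
  have k2 : 4 ^ (Nat.find ex) * (2 * r) ≤ R := by
    rcases Nat.eq_zero_or_pos (Nat.find ex) with e | e
    · rw [e]; omega
    · have := Nat.find_min ex (m := Nat.find ex - 1) (by omega)
      rw [Nat.sub_add_cancel e] at this
      omega
  generalize Nat.find ex = K at k1 k2
  refine (Pr_mono (Arm1_mono z (by omega : r ≤ 2 * r) le_rfl)).trans
    ((h z (2 * r) R K (by omega) k2).trans ?_)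
  rw [← hq, ← Real.rpow_natCast, ← Real.rpow_mul (by norm_num), mul_comm (-c), mul_neg,
    ← neg_mul, Real.rpow_mul (by norm_num)]
  refine Real.rpow_le_rpow (by positivity) ?_ c0.le
  have k3 : (R : ℝ) < 4 ^ (K + 1) * (2 * r) := by exact_mod_cast k1
  rw [Real.rpow_neg (by norm_num), Real.rpow_natCast, mul_div_assoc', le_div_iff₀ R0,
    inv_mul_le_iff₀ (by positivity)]
  rw [pow_succ] at k3
  linarith

theorem ann_small {ε : ℝ} (hε : 0 < ε) : ∃ K : ℕ, 1 ≤ K ∧ ∀ (z : V) (r R : ℤ), 1 ≤ r → K * r ≤ R →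
    Q (Arm1 z r R) ≤ ε := by
  obtain ⟨q, q0, q1, h⟩ := ann_pow
  obtain ⟨n, hn⟩ := exists_pow_lt_of_lt_one hε q1
  refine ⟨2 * 4 ^ n, by have := Nat.one_le_pow n 4 (by norm_num); omega, fun z r R hr hR => ?_⟩
  push_cast at hR
  exact (Pr_mono (Arm1_mono z (by omega : r ≤ 2 * r) le_rfl)).trans
    ((h z (2 * r) R n (by omega) (by linarith)).trans hn.le)

theorem Q_du_Arm1 (z : V) {r R : ℤ} (h : r ≤ R) : Q {ω | du ω ∈ Arm1 z r R} = Q (Arm1 z r R) :=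
  Q_du (loc_Arm1 z h)

section Clusters

/-- `n` different clusters of `S` join `I` to `O` -/
def Crs (n : ℕ) (S I O : Set V) : Set Cfg :=
  {ω | ∃ T : Finset V, T.card = n ∧ (∀ x ∈ T, x ∈ I ∧ x ∈ S ∧ ∃ y ∈ O, Conn ω S x y) ∧
    ∀ x ∈ T, ∀ x' ∈ T, Conn ω S x x' → x = x'}

theorem dep_Crs (n : ℕ) (S I O : Set V) : Dep (Crs n S I O) (In S) := by
  rintro ω ω' hω ⟨T, h1, h2, h3⟩
  refine ⟨T, h1, fun x hx => ?_, fun x hx x' hx' b =>
    h3 x hx x' hx' (b.dep subset_rfl fun e he => (hω e he).symm)⟩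
  obtain ⟨a1, a2, y, a3, a4⟩ := h2 x hx
  exact ⟨a1, a2, y, a3, a4.dep subset_rfl hω⟩

theorem loc_Crs (n : ℕ) {S : Set V} (hS : S.Finite) (I O : Set V) : Loc (Crs n S I O) :=
  (dep_Crs n S I O).loc (In_finite hS)

theorem Crs_anti {n n' : ℕ} (h : n ≤ n') (S I O : Set V) : Crs n' S I O ⊆ Crs n S I O := by
  rintro ω ⟨T, h1, h2, h3⟩
  obtain ⟨T', a1, a2⟩ := Finset.exists_subset_card_eq (s := T) (n := n) (by omega)
  exact ⟨T', a2, fun x hx => h2 x (a1 hx), fun x hx x' hx' => h3 x (a1 hx) x' (a1 hx')⟩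

/-- the clusters revealed until the first crossing one -/
def Rv (S I O : Set V) (ω : Cfg) : Set V :=
  {w | ∃ x, x ∈ I ∧ x ∈ S ∧ Conn ω S x w ∧ ∀ x', x' ∈ I → x' ∈ S → (∃ y ∈ O, Conn ω S x' y) →
    Encodable.encode x ≤ Encodable.encode x'}

theorem locF_Rv {S : Set V} (hS : S.Finite) (I O : Set V) : LocF (Rv S I O) := by
  have k : ∀ ω ω' : Cfg, (∀ e ∈ In S, ω e = ω' e) → Rv S I O ω ⊆ Rv S I O ω' := by
    rintro ω ω' hω w ⟨x, h1, h2, h3, h4⟩
    exact ⟨x, h1, h2, h3.dep subset_rfl hω, fun x' a1 a2 ⟨y, a3, a4⟩ =>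
      h4 x' a1 a2 ⟨y, a3, a4.dep subset_rfl fun e he => (hω e he).symm⟩⟩
  exact ⟨In S, In_finite hS, fun ω ω' hω =>
    (k ω ω' hω).antisymm (k ω' ω fun e he => (hω e he).symm)⟩

theorem dep_Rv (S I O U : Set V) (hU : ∃ y ∈ O, y ∈ U) :
    Dep {ω | Rv S I O ω = U} {e | e.1 ∈ U ∨ hd e ∈ U} := by
  rintro ω ω' hω rfl
  have ed : ∀ a ∈ Rv S I O ω, ∀ d, ω (edge a d) = ω' (edge a d) := fun a ha d => hω _ (by
    obtain ⟨i, j⟩ := a
    rcases cases4 d with rfl | rfl | rfl | rfl <;> simp [ha])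
  have cl : ∀ {a w}, a ∈ Rv S I O ω → Conn ω S a w → w ∈ Rv S I O ω :=
    fun ⟨x, h1, h2, h3, h4⟩ b => ⟨x, h1, h2, h3.trans' b, h4⟩
  have k1 : ∀ {a w}, a ∈ Rv S I O ω → Conn ω S a w → Conn ω' S a w := fun {a w} ha b =>
    b.ind (p := fun w => Conn ω' S a w) Conn.rfl' fun s d b1 b2 b3 b4 ih =>
      ih.snoc b2 b3 (ed s (cl ha b1) d ▸ b4)
  have k2 : ∀ {a w}, a ∈ Rv S I O ω → Conn ω' S a w → Conn ω S a w := fun {a w} ha b =>
    b.ind (p := fun w => Conn ω S a w) Conn.rfl' fun s d _ b2 b3 b4 ih =>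
      ih.snoc b2 b3 ((ed s (cl ha ih) d).trans b4)
  obtain ⟨y, hy, x0, h1, h2, h3, h4⟩ := hU
  have low : ∀ x, x ∈ I → x ∈ S → Encodable.encode x ≤ Encodable.encode x0 → x ∈ Rv S I O ω :=
    fun x a1 a2 a3 => ⟨x, a1, a2, Conn.rfl', fun x' b1 b2 b3 => a3.trans (h4 x' b1 b2 b3)⟩
  have g0 : Conn ω' S x0 y := k1 (low x0 h1 h2 le_rfl) h3
  ext w
  constructor
  · rintro ⟨x, a1, a2, a3, a4⟩
    have := low x a1 a2 (a4 x0 h1 h2 ⟨y, hy, g0⟩)
    exact cl this (k2 this a3)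
  · rintro ⟨x, a1, a2, a3, a4⟩
    have a5 := a4 x0 h1 h2 ⟨y, hy, h3⟩
    refine ⟨x, a1, a2, k1 (low x a1 a2 a5) a3, fun x' b1 b2 ⟨y', b3, b4⟩ => ?_⟩
    rcases le_total (Encodable.encode x') (Encodable.encode x0) with b | b
    · exact a4 x' b1 b2 ⟨y', b3, k2 (low x' b1 b2 b) b4⟩
    · exact a5.trans b

/-- the number of crossing clusters has a geometric tail -/
theorem Q_Crs_le (I O : Set V) {p : ℝ} (n : ℕ) : ∀ S : Set V, S.Finite →
    Q {ω | ∃ x y, (x ∈ I ∧ x ∈ S ∧ y ∈ O) ∧ Conn ω S x y} ≤ p → Q (Crs n S I O) ≤ p ^ n := by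
  induction n with
  | zero => exact fun S _ _ => by simpa using Pr_le_one _ _
  | succ n ih =>
    intro S hS hp
    have h1 := Pr_cond_le (fun _ => hf) (locF_Rv hS I O) {U | ∃ y ∈ O, y ∈ U}
      (A := fun U => Crs n (S \ U) I O) (S := fun U => {e | e.1 ∈ U ∨ hd e ∈ U})
      (T := fun U => In (S \ U)) (fun U _ => loc_Crs n hS.sdiff I O)
      (fun U hU => dep_Rv S I O U hU) (fun U _ => dep_Crs n _ I O)
      (fun U _ => Set.disjoint_left.2 fun e a b => a.elim b.1.2 b.2.2) (κ := p ^ n)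
      fun U _ => ih _ hS.sdiff (by
        refine le_trans (Pr_mono ?_) hp
        rintro ω ⟨x, y, ⟨a1, a2, a3⟩, a4⟩
        exact ⟨x, y, ⟨a1, a2.1, a3⟩, a4.mono_set Set.sdiff_subset⟩)
    have p0 : 0 ≤ p := (Pr_nonneg _ _).trans hp
    rw [pow_succ]
    refine le_trans (Pr_mono ?_) (h1.trans (mul_le_mul_of_nonneg_left
      (le_trans (Pr_mono ?_) hp) (by positivity)))
    · rintro ω ⟨T, a1, a2, a3⟩
      classical
      have ex : ∃ k, ∃ x, Encodable.encode x = k ∧ x ∈ I ∧ x ∈ S ∧ ∃ y ∈ O, Conn ω S x y := by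
        obtain ⟨x, hx⟩ : T.Nonempty := Finset.card_pos.1 (by omega)
        exact ⟨_, x, rfl, a2 x hx⟩
      obtain ⟨x0, e0, b1, b2, y0, b3, b4⟩ := Nat.find_spec ex
      have mn : ∀ x', x' ∈ I → x' ∈ S → (∃ y ∈ O, Conn ω S x' y) →
          Encodable.encode x0 ≤ Encodable.encode x' := fun x' c1 c2 c3 =>
        e0 ▸ Nat.find_min' ex ⟨x', rfl, c1, c2, c3⟩
      refine ⟨⟨y0, b3, x0, b1, b2, b4, mn⟩, ?_⟩
      have one : ∀ x ∈ T, x ∈ Rv S I O ω → Conn ω S x0 x := by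
        rintro x hx ⟨x1, c1, c2, c3, c4⟩
        obtain ⟨-, -, y, c5, c6⟩ := a2 x hx
        obtain rfl : x1 = x0 := Encodable.encode_injective
          ((c4 x0 b1 b2 ⟨y0, b3, b4⟩).antisymm (mn x1 c1 c2 ⟨y, c5, c3.trans' c6⟩))
        exact c3
      have cd : (T.filter fun x => x ∈ Rv S I O ω).card ≤ 1 := Finset.card_le_one.2
        fun x hx x' hx' => by
          rw [Finset.mem_filter] at hx hx'
          exact a3 x hx.1 x' hx'.1 ((one x hx.1 hx.2).symm'.trans' (one x' hx'.1 hx'.2))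
      have cd2 := Finset.card_filter_add_card_filter_not (s := T) fun x => x ∈ Rv S I O ω
      refine Crs_anti (n' := (T.filter fun x => x ∉ Rv S I O ω).card) (by omega) _ _ _
        ⟨_, rfl, fun x hx => ?_, fun x hx x' hx' b => a3 x (Finset.mem_filter.1 hx).1 x'
          (Finset.mem_filter.1 hx').1 (b.mono_set Set.sdiff_subset)⟩
      rw [Finset.mem_filter] at hx
      obtain ⟨c1, c2, y, c3, c4⟩ := a2 x hx.1
      refine ⟨c1, ⟨c2, hx.2⟩, y, c3, c4.cl.mono_set fun w hw => ⟨hw.1, ?_⟩⟩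
      rintro ⟨x1, d1, d2, d3, d4⟩
      exact hx.2 ⟨x1, d1, d2, d3.trans' hw.2.symm', d4⟩
    · rintro ω ⟨y, a1, x, a2, a3, a4, -⟩
      exact ⟨x, y, ⟨a2, a3, a1⟩, a4⟩

/-- crossing clusters of any finite region, from the box of radius `r` to distance `R` -/
theorem Q_Crs_ann (z : V) (r R : ℤ) (n : ℕ) {S : Set V} (hS : S.Finite) :
    Q (Crs n S {x | nm z x ≤ r} {y | R ≤ nm z y}) ≤ Q (Arm1 z r R) ^ n :=
  Q_Crs_le _ _ n S hS (Pr_mono fun _ ⟨x, y, ⟨a1, _, a3⟩, a4⟩ =>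
    ⟨x, y, ⟨a1, a3⟩, a4.mono_set (Set.subset_univ _)⟩)

end Clusters

end Pool.Agent.P.MP_6c8efb_pr
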