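import Pool.Agent.P.MP_6c8efb_pr.Prob

/-! Darts, faces, open connections, symmetries. -/

namespace Pool.Agent.P.MP_6c8efb_pr

@[simp] theorem u0 : u 0 = (1, 0) := rfl
@[simp] theorem u1 : u 1 = (0, 1) := rfl
@[simp] theorem u2 : u 2 = (-1, 0) := rfl
@[simp] theorem u3 : u 3 = (0, -1) := rfl
@[simp] theorem edge0 (x : V) : edge x 0 = (x, true) := rfl
@[simp] theorem edge1 (x : V) : edge x 1 = (x, false) := rfl
@[simp] theorem edge2 (x : V) : edge x 2 = ((x.1 - 1, x.2), true) := by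
  simp [edge, Prod.ext_iff]
@[simp] theorem edge3 (x : V) : edge x 3 = ((x.1, x.2 - 1), false) := by
  simp [edge, Prod.ext_iff]

theorem cases4 (d : Fin 4) : d = 0 ∨ d = 1 ∨ d = 2 ∨ d = 3 := by
  fin_cases d <;> simp

@[simp] theorem a01 : (0 : Fin 4) + 1 = 1 := rfl
@[simp] theorem a11 : (1 : Fin 4) + 1 = 2 := rfl
@[simp] theorem a21 : (2 : Fin 4) + 1 = 3 := rfl
@[simp] theorem a31 : (3 : Fin 4) + 1 = 0 := rfl
@[simp] theorem a02 : (0 : Fin 4) + 2 = 2 := rfl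
@[simp] theorem a12 : (1 : Fin 4) + 2 = 3 := rfl
@[simp] theorem a22 : (2 : Fin 4) + 2 = 0 := rfl
@[simp] theorem a32 : (3 : Fin 4) + 2 = 1 := rfl
@[simp] theorem s01 : (0 : Fin 4) - 1 = 3 := rfl
@[simp] theorem s11 : (1 : Fin 4) - 1 = 0 := rfl
@[simp] theorem s21 : (2 : Fin 4) - 1 = 1 := rfl
@[simp] theorem s31 : (3 : Fin 4) - 1 = 2 := rfl

@[simp] theorem n01 : (-1 : Fin 4) = 3 := rfl

theorem edge_back (x : V) (d : Fin 4) : edge (x + u d) (d + 2) = edge x d := by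
  rcases cases4 d with rfl | rfl | rfl | rfl <;> simp [Prod.ext_iff, sub_eq_add_neg]

theorem u_back (x : V) (d : Fin 4) : x + u d + u (d + 2) = x := by
  rcases cases4 d with rfl | rfl | rfl | rfl <;> simp [Prod.ext_iff]

/-- the other end of an edge -/
def hd (e : E) : V := if e.2 then (e.1.1 + 1, e.1.2) else (e.1.1, e.1.2 + 1)

@[simp] theorem hd_true (x : V) : hd (x, true) = (x.1 + 1, x.2) := rfl
@[simp] theorem hd_false (x : V) : hd (x, false) = (x.1, x.2 + 1) := rfl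

/-- edges inside a set -/
def In (S : Set V) : Set E := {e | e.1 ∈ S ∧ hd e ∈ S}

theorem edge_mem_In {S : Set V} {x : V} {d : Fin 4} : edge x d ∈ In S ↔ x ∈ S ∧ x + u d ∈ S := by
  obtain ⟨a, b⟩ := x
  rcases cases4 d with rfl | rfl | rfl | rfl <;> simp [In, sub_eq_add_neg, and_comm]

theorem In_finite {S : Set V} (h : S.Finite) : (In S).Finite :=
  (h.prod (Set.toFinite (Set.univ : Set Bool))).subset fun _ he => ⟨he.1, trivial⟩

theorem In_disjoint {S T : Set V} (h : Disjoint S T) : Disjoint (In S) (In T) :=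
  Set.disjoint_left.2 fun _ h1 h2 => Set.disjoint_left.1 h h1.1 h2.1

section Conn

variable {ω ω' : Cfg} {S T : Set V} {x y z : V}

theorem Conn.rfl' : Conn ω S x x := Relation.ReflTransGen.refl

theorem Conn.trans' (h : Conn ω S x y) (h' : Conn ω S y z) : Conn ω S x z :=
  Relation.ReflTransGen.trans h h'

theorem Conn.one {d : Fin 4} (hx : x ∈ S) (hy : x + u d ∈ S) (h : ω (edge x d) = true) :
    Conn ω S x (x + u d) := Relation.ReflTransGen.single ⟨hx, hy, d, rfl, h⟩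

theorem Conn.snoc {d : Fin 4} (h0 : Conn ω S x y) (hy : y ∈ S) (hz : y + u d ∈ S)
    (h : ω (edge y d) = true) : Conn ω S x (y + u d) := h0.trans' (Conn.one hy hz h)

theorem Conn.ind {p : V → Prop} (h : Conn ω S x y) (h0 : p x)
    (hs : ∀ a d, Conn ω S x a → a ∈ S → a + u d ∈ S → ω (edge a d) = true → p a → p (a + u d)) :
    p y := by
  induction h with
  | refl => exact h0
  | tail h1 h2 ih =>
    obtain ⟨ha, hb, d, rfl, ho⟩ := h2
    exact hs _ d h1 ha hb ho ih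

theorem Conn.symm' (h : Conn ω S x y) : Conn ω S y x := by
  refine h.ind (p := fun y => Conn ω S y x) Conn.rfl' fun a d _ ha hb ho ih => ?_
  refine Conn.trans' ?_ ih
  have := Conn.one (ω := ω) (S := S) (x := a + u d) (d := d + 2) hb (by rwa [u_back])
    (by rwa [edge_back])
  rwa [u_back] at this

theorem Conn.mem (h : Conn ω S x y) (hx : x ∈ S) : y ∈ S :=
  h.ind (p := fun y => y ∈ S) hx fun _ _ _ _ hb _ _ => hb

theorem Conn.mono (h : Conn ω S x y) (hS : S ⊆ T)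
    (hω : ∀ e ∈ In S, ω e = true → ω' e = true) : Conn ω' T x y :=
  h.ind (p := fun y => Conn ω' T x y) Conn.rfl' fun _ _ _ ha hb ho ih =>
    ih.snoc (hS ha) (hS hb) (hω _ (edge_mem_In.2 ⟨ha, hb⟩) ho)

theorem Conn.mono_set (h : Conn ω S x y) (hS : S ⊆ T) : Conn ω T x y :=
  h.mono hS fun _ _ h => h

/-- the cluster of `x` -/
def Cl (ω : Cfg) (S : Set V) (x : V) : Set V := {z | z ∈ S ∧ Conn ω S x z}

theorem Conn.cl (h : Conn ω S x y) : Conn ω (Cl ω S x) x y :=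
  h.ind (p := fun y => Conn ω (Cl ω S x) x y) Conn.rfl' fun _ _ h1 ha hb ho ih =>
    ih.snoc ⟨ha, h1⟩ ⟨hb, h1.snoc ha hb ho⟩ ho

theorem Conn.exit {A : Set V} (h : Conn ω S x y) (hx : x ∈ A) (hy : y ∉ A) :
    ∃ a d, Conn ω (S ∩ A) x a ∧ a ∈ S ∧ a ∈ A ∧ a + u d ∈ S ∧ a + u d ∉ A ∧
      ω (edge a d) = true := by
  have := h.ind (p := fun y => (y ∈ A ∧ Conn ω (S ∩ A) x y) ∨ ∃ a d, Conn ω (S ∩ A) x a ∧ a ∈ S ∧
      a ∈ A ∧ a + u d ∈ S ∧ a + u d ∉ A ∧ ω (edge a d) = true) (Or.inl ⟨hx, Conn.rfl'⟩)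
    fun a d _ ha hb ho ih => by
      rcases ih with ⟨h1, h2⟩ | ih
      · by_cases h3 : a + u d ∈ A
        · exact Or.inl ⟨h3, h2.snoc ⟨ha, h1⟩ ⟨hb, h3⟩ ho⟩
        · exact Or.inr ⟨a, d, h2, ha, h1, hb, h3, ho⟩
      · exact Or.inr ih
  exact this.resolve_left fun h => hy h.1

/-- first hitting of a level of a Lipschitz function -/
theorem Conn.hit {f : V → ℤ} (hf : ∀ a d, f (a + u d) ≤ f a + 1) {b : ℤ} (h : Conn ω S x y)
    (hx : f x ≤ b) (hy : b ≤ f y) : ∃ y', f y' = b ∧ Conn ω (S ∩ {z | f z ≤ b}) x y' := by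
  rcases hx.eq_or_lt with hx | hx
  · exact ⟨x, hx, Conn.rfl'⟩
  obtain ⟨a, d, h1, h2, h3, h4, h5, h6⟩ := h.exit (A := {z | f z < b}) hx (by simpa using hy)
  have h7 := hf a d
  simp only [Set.mem_ofPred_eq] at h3 h5
  have h8 : Conn ω (S ∩ {z | f z ≤ b}) x a :=
    h1.mono_set fun z hz => ⟨hz.1, (le_of_lt hz.2 : f z ≤ b)⟩
  exact ⟨a + u d, by omega, h8.snoc ⟨h2, (le_of_lt h3 : f a ≤ b)⟩
    ⟨h4, (by omega : f (a + u d) ≤ b)⟩ h6⟩

/-- crossing of a strip -/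
theorem Conn.strip {f : V → ℤ} (hf : ∀ a d, |f (a + u d) - f a| ≤ 1) {a b : ℤ} (hab : a ≤ b)
    (h : Conn ω S x y) (hx : f x ≤ a) (hy : b ≤ f y) :
    ∃ x' y', f x' = a ∧ f y' = b ∧ Conn ω S x x' ∧ Conn ω (S ∩ {z | a ≤ f z ∧ f z ≤ b}) x' y' := by
  obtain ⟨y', h1, h2⟩ := h.hit (f := f) (fun a d => by have := abs_le.1 (hf a d); omega)
    (hx.trans hab) hy
  obtain ⟨x', h3, h4⟩ := h2.symm'.hit (f := fun z => -f z)
    (fun a d => by have := abs_le.1 (hf a d); omega) (b := -a) (by omega) (by omega)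
  refine ⟨x', y', by omega, h1, (h2.mono_set Set.inter_subset_left).trans'
    (h4.mono_set fun z hz => hz.1.1), h4.symm'.mono_set fun z hz => ⟨hz.1.1, ?_, hz.1.2⟩⟩
  have := hz.2
  simp only [Set.mem_ofPred_eq] at this
  omega

theorem lip_fst (a : V) (d : Fin 4) : |(a + u d).1 - a.1| ≤ 1 := by
  rcases cases4 d with rfl | rfl | rfl | rfl <;> simp

theorem lip_snd (a : V) (d : Fin 4) : |(a + u d).2 - a.2| ≤ 1 := by
  rcases cases4 d with rfl | rfl | rfl | rfl <;> simp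

theorem dep_conn (S : Set V) (r : V → V → Prop) :
    Dep {ω | ∃ x y, r x y ∧ Conn ω S x y} (In S) := by
  rintro ω ω' hω ⟨x, y, h1, h2⟩
  exact ⟨x, y, h1, h2.mono subset_rfl fun e he h => hω e he ▸ h⟩

theorem loc_conn {S : Set V} (hS : S.Finite) (r : V → V → Prop) :
    Loc {ω | ∃ x y, r x y ∧ Conn ω S x y} := (dep_conn S r).loc (In_finite hS)

theorem up_conn (S : Set V) (r : V → V → Prop) :
    IsUpperSet {ω : Cfg | ∃ x y, r x y ∧ Conn ω S x y} := by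
  rintro ω ω' hω ⟨x, y, h1, h2⟩
  refine ⟨x, y, h1, h2.mono subset_rfl fun e _ h => ?_⟩
  have := hω e
  rw [h] at this
  exact top_le_iff.1 this

end Conn

/-- a lattice symmetry -/
structure Sy where
  v : V → V
  e : E → E
  inj : Function.Injective e
  ok : ∀ x d, ∃ d', v (x + u d) = v x + u d' ∧ e (edge x d) = edge (v x) d'

theorem Conn.map (s : Sy) {ω : Cfg} {S T : Set V} {x y : V} (h : Conn (fun e => ω (s.e e)) S x y)
    (hT : ∀ z ∈ S, s.v z ∈ T) : Conn ω T (s.v x) (s.v y) :=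
  h.ind (p := fun y => Conn ω T (s.v x) (s.v y)) Conn.rfl' fun a d _ ha hb ho ih => by
    obtain ⟨d', h1, h2⟩ := s.ok a d
    rw [h1]
    exact ih.snoc (hT _ ha) (h1 ▸ hT _ hb) (h2 ▸ ho)

theorem Q_le_map {φ : E → E} (hφ : Function.Injective φ) {A B : Set Cfg} (hA : Loc A)
    (h : ∀ ω : Cfg, (fun e => ω (φ e)) ∈ A → ω ∈ B) : Q A ≤ Q B := by
  rw [Q, ← Pr_comp_inj (fun _ => hf) hφ hA]
  exact Pr_mono h

theorem Q_conn_le (s : Sy) {S T : Set V} (hS : S.Finite) {r r' : V → V → Prop}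
    (hT : ∀ z ∈ S, s.v z ∈ T) (hr : ∀ x y, r x y → r' (s.v x) (s.v y)) :
    Q {ω | ∃ x y, r x y ∧ Conn ω S x y} ≤ Q {ω | ∃ x y, r' x y ∧ Conn ω T x y} :=
  Q_le_map s.inj (loc_conn hS r) fun _ ⟨_, _, h1, h2⟩ => ⟨_, _, hr _ _ h1, h2.map s hT⟩

/-- translation -/
def syT (p q : ℤ) : Sy where
  v x := (x.1 + p, x.2 + q)
  e e := ((e.1.1 + p, e.1.2 + q), e.2)
  inj := by
    rintro ⟨⟨a, b⟩, c⟩ ⟨⟨a', b'⟩, c'⟩ h
    simp only [Prod.mk.injEq] at h ⊢
    exact ⟨by omega, h.2⟩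
  ok x d := ⟨d, by rcases cases4 d with rfl | rfl | rfl | rfl <;> simp [Prod.ext_iff] <;> omega⟩

/-- reflection of the first coordinate -/
def syX (k : ℤ) : Sy where
  v x := (k - x.1, x.2)
  e e := ((if e.2 then k - 1 - e.1.1 else k - e.1.1, e.1.2), e.2)
  inj := by
    rintro ⟨⟨a, b⟩, c⟩ ⟨⟨a', b'⟩, c'⟩ h
    simp only [Prod.mk.injEq] at h ⊢
    obtain ⟨⟨h1, h2⟩, rfl⟩ := h
    cases c <;> simp at h1 ⊢ <;> omega
  ok x d := ⟨![2, 1, 0, 3] d, by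
    rcases cases4 d with rfl | rfl | rfl | rfl <;> simp [Prod.ext_iff] <;> omega⟩

/-- reflection of the second coordinate -/
def syY (k : ℤ) : Sy where
  v x := (x.1, k - x.2)
  e e := ((e.1.1, if e.2 then k - e.1.2 else k - 1 - e.1.2), e.2)
  inj := by
    rintro ⟨⟨a, b⟩, c⟩ ⟨⟨a', b'⟩, c'⟩ h
    simp only [Prod.mk.injEq] at h ⊢
    obtain ⟨⟨h1, h2⟩, rfl⟩ := h
    cases c <;> simp at h2 ⊢ <;> omega
  ok x d := ⟨![0, 3, 2, 1] d, by
    rcases cases4 d with rfl | rfl | rfl | rfl <;> simp [Prod.ext_iff] <;> omega⟩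

/-- exchange of the coordinates -/
def syS : Sy where
  v x := (x.2, x.1)
  e e := ((e.1.2, e.1.1), !e.2)
  inj := by
    rintro ⟨⟨a, b⟩, c⟩ ⟨⟨a', b'⟩, c'⟩ h
    simp only [Prod.mk.injEq, Bool.not_inj_iff] at h ⊢
    tauto
  ok x d := ⟨![1, 0, 3, 2] d, by
    rcases cases4 d with rfl | rfl | rfl | rfl <;> simp⟩

/-- the rectangle -/
def Rc (a b c d : ℤ) : Set V := {z | a ≤ z.1 ∧ z.1 ≤ b ∧ c ≤ z.2 ∧ z.2 ≤ d}

theorem Rc_finite (a b c d : ℤ) : (Rc a b c d).Finite :=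
  ((Set.finite_Icc a b).prod (Set.finite_Icc c d)).subset fun _ hz =>
    ⟨⟨hz.1, hz.2.1⟩, hz.2.2.1, hz.2.2.2⟩

theorem mem_Rc {a b c d : ℤ} {z : V} :
    z ∈ Rc a b c d ↔ a ≤ z.1 ∧ z.1 ≤ b ∧ c ≤ z.2 ∧ z.2 ≤ d := Iff.rfl

/-- horizontal crossing -/
def HC (a b c d : ℤ) : Set Cfg :=
  {ω | ∃ x y, (x ∈ Rc a b c d ∧ x.1 = a ∧ y.1 = b) ∧ Conn ω (Rc a b c d) x y}

/-- vertical crossing -/
def VC (a b c d : ℤ) : Set Cfg :=
  {ω | ∃ x y, (x ∈ Rc a b c d ∧ x.2 = c ∧ y.2 = d) ∧ Conn ω (Rc a b c d) x y}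

theorem loc_HC (a b c d : ℤ) : Loc (HC a b c d) := loc_conn (Rc_finite ..) _
theorem loc_VC (a b c d : ℤ) : Loc (VC a b c d) := loc_conn (Rc_finite ..) _
theorem up_HC (a b c d : ℤ) : IsUpperSet (HC a b c d) := up_conn _ _
theorem up_VC (a b c d : ℤ) : IsUpperSet (VC a b c d) := up_conn _ _

/-- horizontal crossing probability -/
noncomputable def hc (w h : ℤ) : ℝ := Q (HC 0 w 0 h)

theorem Q_HC (a b c d : ℤ) : Q (HC a b c d) = hc (b - a) (d - c) := by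
  refine le_antisymm (Q_conn_le (syT (-a) (-c)) (Rc_finite ..) ?_ ?_)
    (Q_conn_le (syT a c) (Rc_finite ..) ?_ ?_) <;> simp only [syT, mem_Rc] <;> intros <;> omega

theorem Q_VC (a b c d : ℤ) : Q (VC a b c d) = hc (d - c) (b - a) := by
  rw [← Q_HC]
  refine le_antisymm (Q_conn_le syS (Rc_finite ..) ?_ ?_)
    (Q_conn_le syS (Rc_finite ..) ?_ ?_) <;> simp only [syS, mem_Rc] <;> intros <;> omega

theorem hc_mono {w w' h h' : ℤ} (h0 : 0 ≤ w') (hw : w' ≤ w) (hh : h ≤ h') : hc w h ≤ hc w' h' := by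
  refine Pr_mono ?_
  rintro ω ⟨x, y, ⟨h1, h2, h3⟩, h4⟩
  obtain ⟨y', h5, h6⟩ := h4.hit (f := fun z => z.1)
    (fun a d => by have := abs_le.1 (lip_fst a d); omega) (b := w') (by omega) (by omega)
  refine ⟨x, y', ⟨?_, h2, h5⟩, h6.mono_set fun z hz => ?_⟩
  · simp only [mem_Rc] at h1 ⊢; omega
  · simp only [mem_Rc, Set.mem_inter_iff, Set.mem_ofPred_eq] at hz ⊢; omega

/-- the primal edge crossed by a dual edge; faces are named by their lower left corner -/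
def dl (e : E) : E := (hd e, !e.2)

theorem dl_inj : Function.Injective dl := by
  rintro ⟨⟨a, b⟩, c⟩ ⟨⟨a', b'⟩, c'⟩ h
  cases c <;> cases c' <;> simp [dl, Prod.ext_iff] at h ⊢ <;> omega

/-- the dual configuration -/
def du (ω : Cfg) : Cfg := fun e => !ω (dl e)

theorem Q_du {A : Set Cfg} (hA : Loc A) : Q {ω | du ω ∈ A} = Q A := by
  have h1 := Pr_comp_inj (fun _ => hf) dl_inj hA
  have h2 := Pr_equiv (ι := E) (fun _ => Equiv.boolNot) (hA.comp dl)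
  exact h2.trans h1

theorem loc_du {A : Set Cfg} (hA : Loc A) : Loc {ω | du ω ∈ A} := by
  obtain ⟨S, hS, h⟩ := hA
  exact ⟨dl '' S, hS.image _, fun ω ω' hω h1 => h (fun e he => by
    simp only [du, hω _ ⟨e, he, rfl⟩]) h1⟩

/-- the face in the corner that precedes the direction `d` at `x` -/
def fc (x : V) : Fin 4 → V := ![(x.1, x.2 - 1), x, (x.1 - 1, x.2), (x.1 - 1, x.2 - 1)]

@[simp] theorem fc0 (x : V) : fc x 0 = (x.1, x.2 - 1) := rfl
@[simp] theorem fc1 (x : V) : fc x 1 = x := rfl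
@[simp] theorem fc2 (x : V) : fc x 2 = (x.1 - 1, x.2) := rfl
@[simp] theorem fc3 (x : V) : fc x 3 = (x.1 - 1, x.2 - 1) := rfl

end Pool.Agent.P.MP_6c8efb_pr
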