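import Pool.Agent.P.MP_6c8efb_pr.Defs

/-! (adapted from the library of the problem d74cc6) Toolkit for product Bernoulli measures on `ι → Bool`: local events, independence, FKG,
transport, superposition of layers, tilting, conditioning on a local random variable. -/

open MeasureTheory ProbabilityTheory unitInterval
open scoped ENNReal

namespace Pool.Agent.P.MP_6c8efb_pr

variable {ι : Type*}

/-- the product Bernoulli measure with parameters `π` -/
noncomputable def PM (π : ι → I) : Measure (ι → Bool) :=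
  Measure.infinitePi fun i => bernoulliMeasure true false (π i)

instance (π : ι → I) : IsProbabilityMeasure (PM π) := by unfold PM; infer_instance

/-- the probability of an event -/
noncomputable def Pr (π : ι → I) (A : Set (ι → Bool)) : ℝ := (PM π).real A

/-- the event depends only on the coordinates in `S` -/
def Dep (A : Set (ι → Bool)) (S : Set ι) : Prop :=
  ∀ ⦃ω ω' : ι → Bool⦄, (∀ i ∈ S, ω i = ω' i) → ω ∈ A → ω' ∈ A

/-- local event -/
def Loc (A : Set (ι → Bool)) : Prop := ∃ S : Set ι, S.Finite ∧ Dep A S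

/-- local function -/
def LocF {β : Type*} (f : (ι → Bool) → β) : Prop := ∃ S : Set ι, S.Finite ∧ DependsOn f S

/-- weight of a value -/
noncomputable def wt (p : I) (b : Bool) : ℝ := if b then (p : ℝ) else 1 - p

theorem wt_nonneg (p : I) (b : Bool) : 0 ≤ wt p b := by
  unfold wt; split_ifs
  · exact p.2.1
  · exact sub_nonneg.2 p.2.2

@[simp] theorem wt_true (p : I) : wt p true = p := rfl
@[simp] theorem wt_false (p : I) : wt p false = 1 - p := rfl

section DepLemmas

variable {A B : Set (ι → Bool)} {S T : Set ι}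

theorem Dep.mono (h : Dep A S) (hST : S ⊆ T) : Dep A T :=
  fun _ _ hω => h fun i hi => hω i (hST hi)

theorem Dep.iff (h : Dep A S) {ω ω' : ι → Bool} (hω : ∀ i ∈ S, ω i = ω' i) : ω ∈ A ↔ ω' ∈ A :=
  ⟨h hω, h fun i hi => (hω i hi).symm⟩

theorem Dep.compl (h : Dep A S) : Dep Aᶜ S := fun _ _ hω h1 h2 => h1 ((h.iff hω).2 h2)

theorem Dep.inter (hA : Dep A S) (hB : Dep B S) : Dep (A ∩ B) S :=
  fun _ _ hω h => ⟨hA hω h.1, hB hω h.2⟩

theorem Dep.union (hA : Dep A S) (hB : Dep B S) : Dep (A ∪ B) S :=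
  fun _ _ hω h => h.imp (hA hω) (hB hω)

theorem Dep.inter' (hA : Dep A S) (hB : Dep B T) : Dep (A ∩ B) (S ∪ T) :=
  (hA.mono Set.subset_union_left).inter (hB.mono Set.subset_union_right)

theorem Dep.union' (hA : Dep A S) (hB : Dep B T) : Dep (A ∪ B) (S ∪ T) :=
  (hA.mono Set.subset_union_left).union (hB.mono Set.subset_union_right)

theorem Dep.iUnion {κ : Sort*} {A : κ → Set (ι → Bool)} (h : ∀ k, Dep (A k) S) :
    Dep (⋃ k, A k) S := fun _ _ hω h1 => by
  obtain ⟨k, hk⟩ := Set.mem_iUnion.1 h1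
  exact Set.mem_iUnion.2 ⟨k, h k hω hk⟩

theorem Dep.iInter {κ : Sort*} {A : κ → Set (ι → Bool)} (h : ∀ k, Dep (A k) S) :
    Dep (⋂ k, A k) S := fun _ _ hω h1 =>
  Set.mem_iInter.2 fun k => h k hω (Set.mem_iInter.1 h1 k)

theorem dep_univ (S : Set ι) : Dep Set.univ S := fun _ _ _ h => h
theorem dep_empty (S : Set ι) : Dep ∅ S := fun _ _ _ h => h

theorem dep_const (p : Prop) (S : Set ι) : Dep {_ω | p} S := fun _ _ _ h => h

theorem Dep.inter_supp (h1 : Dep A S) (h2 : Dep A T) : Dep A (S ∩ T) := by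
  classical
  intro ω ω' hω hA
  have a : (fun i => if i ∈ S then ω i else ω' i) ∈ A := h1 (fun i hi => by simp [hi]) hA
  refine h2 (fun i hi => ?_) a
  by_cases h : i ∈ S
  · simp [h, hω i ⟨h, hi⟩]
  · simp [h]

theorem dependsOn_inter_supp {β : Type*} {f : (ι → Bool) → β} (h1 : DependsOn f S)
    (h2 : DependsOn f T) : DependsOn f (S ∩ T) := by
  classical
  intro ω ω' hω
  have a : f ω = f (fun i => if i ∈ S then ω i else ω' i) := h1 (fun i hi => by simp [hi])
  rw [a]
  refine h2 (fun i hi => ?_)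
  by_cases h : i ∈ S
  · simp [h, hω i ⟨h, hi⟩]
  · simp [h]

theorem dep_of_dependsOn {β : Type*} {f : (ι → Bool) → β} (h : DependsOn f S) (G : Set β) :
    Dep {ω | f ω ∈ G} S := fun _ _ hω h1 => by
  have := h hω
  simp only [Set.mem_ofPred_eq] at h1 ⊢
  rwa [← this]

theorem Dep.dependsOn_indicator (h : Dep A S) (c : ℝ) :
    DependsOn (A.indicator fun _ => c) S := fun ω ω' hω => by
  by_cases h1 : ω ∈ A
  · rw [Set.indicator_of_mem h1, Set.indicator_of_mem (h hω h1)]
  · rw [Set.indicator_of_notMem h1, Set.indicator_of_notMem fun h2 => h1 ((h.iff hω).2 h2)]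

theorem Dep.loc (h : Dep A S) (hS : S.Finite) : Loc A := ⟨S, hS, h⟩

theorem Loc.compl (h : Loc A) : Loc Aᶜ := let ⟨S, hS, h⟩ := h; ⟨S, hS, h.compl⟩

theorem Loc.inter (hA : Loc A) (hB : Loc B) : Loc (A ∩ B) :=
  let ⟨_, hS, h⟩ := hA; let ⟨_, hT, h'⟩ := hB; ⟨_, hS.union hT, h.inter' h'⟩

theorem Loc.union (hA : Loc A) (hB : Loc B) : Loc (A ∪ B) :=
  let ⟨_, hS, h⟩ := hA; let ⟨_, hT, h'⟩ := hB; ⟨_, hS.union hT, h.union' h'⟩

theorem loc_univ : Loc (Set.univ : Set (ι → Bool)) := ⟨∅, Set.finite_empty, dep_univ _⟩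
theorem loc_empty : Loc (∅ : Set (ι → Bool)) := ⟨∅, Set.finite_empty, dep_empty _⟩
theorem loc_const (p : Prop) : Loc {_ω : ι → Bool | p} := ⟨∅, Set.finite_empty, dep_const _ _⟩

theorem Loc.biInter {κ : Type*} (s : Finset κ) {A : κ → Set (ι → Bool)} (h : ∀ k ∈ s, Loc (A k)) :
    Loc (⋂ k ∈ s, A k) := by
  classical
  induction s using Finset.induction_on with
  | empty => simpa using loc_univ
  | insert a s _ ih =>
    rw [Finset.set_biInter_insert]
    exact (h a (by simp)).inter (ih fun k hk => h k (by simp [hk]))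

theorem Loc.biUnion {κ : Type*} (s : Finset κ) {A : κ → Set (ι → Bool)} (h : ∀ k ∈ s, Loc (A k)) :
    Loc (⋃ k ∈ s, A k) := by
  classical
  induction s using Finset.induction_on with
  | empty => simpa using loc_empty
  | insert a s _ ih =>
    rw [Finset.set_biUnion_insert]
    exact (h a (by simp)).union (ih fun k hk => h k (by simp [hk]))

theorem Loc.forall_mem {κ : Type*} (s : Finset κ) {A : κ → Set (ι → Bool)}
    (h : ∀ k ∈ s, Loc (A k)) : Loc {ω | ∀ k ∈ s, ω ∈ A k} := by
  convert Loc.biInter s h using 1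
  ext; simp

theorem Loc.exists_mem {κ : Type*} (s : Finset κ) {A : κ → Set (ι → Bool)}
    (h : ∀ k ∈ s, Loc (A k)) : Loc {ω | ∃ k ∈ s, ω ∈ A k} := by
  convert Loc.biUnion s h using 1
  ext; simp

theorem LocF.loc {β : Type*} {f : (ι → Bool) → β} (h : LocF f) (G : Set β) : Loc {ω | f ω ∈ G} :=
  let ⟨S, hS, h⟩ := h; ⟨S, hS, dep_of_dependsOn h G⟩

theorem LocF.loc_eq {β : Type*} {f : (ι → Bool) → β} (h : LocF f) (c : β) : Loc {ω | f ω = c} :=
  h.loc {c}

theorem LocF.comp {β γ : Type*} {f : (ι → Bool) → β} (h : LocF f) (g : β → γ) :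
    LocF fun ω => g (f ω) :=
  let ⟨S, hS, h⟩ := h; ⟨S, hS, fun _ _ hω => congrArg g (h hω)⟩

theorem LocF.prod {β γ : Type*} {f : (ι → Bool) → β} {g : (ι → Bool) → γ} (hf : LocF f)
    (hg : LocF g) : LocF fun ω => (f ω, g ω) :=
  let ⟨_, hS, h⟩ := hf; let ⟨_, hT, h'⟩ := hg
  ⟨_, hS.union hT, fun _ _ hω =>
    Prod.ext (h fun i hi => hω i (Or.inl hi)) (h' fun i hi => hω i (Or.inr hi))⟩

theorem LocF.comp₂ {β γ δ : Type*} {f : (ι → Bool) → β} {g : (ι → Bool) → γ} (hf : LocF f)
    (hg : LocF g) (F : β → γ → δ) : LocF fun ω => F (f ω) (g ω) :=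
  (hf.prod hg).comp fun p => F p.1 p.2

theorem locF_const {β : Type*} (b : β) : LocF fun _ : ι → Bool => b :=
  ⟨∅, Set.finite_empty, fun _ _ _ => rfl⟩

theorem LocF.sum {κ : Type*} (s : Finset κ) {f : κ → (ι → Bool) → ℝ} (h : ∀ k ∈ s, LocF (f k)) :
    LocF fun ω => ∑ k ∈ s, f k ω := by
  classical
  induction s using Finset.induction_on with
  | empty => simpa using locF_const (0 : ℝ)
  | insert a s ha ih =>
    simp only [Finset.sum_insert ha]
    exact (h a (by simp)).comp₂ (ih fun k hk => h k (by simp [hk])) (· + ·)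

theorem Loc.locF_indicator (h : Loc A) (c : ℝ) : LocF (A.indicator fun _ => c) :=
  let ⟨S, hS, h⟩ := h; ⟨S, hS, h.dependsOn_indicator c⟩

end DepLemmas

section Finite

open Classical in
/-- extension by `false` -/
noncomputable def ext (S : Finset ι) (η : S → Bool) : ι → Bool :=
  fun i => if h : i ∈ S then η ⟨i, h⟩ else false

theorem ext_apply (S : Finset ι) (η : S → Bool) (i : S) : ext S η i = η i := by
  simp [ext, i.2]

theorem eq_ext_restrict {β : Type*} {f : (ι → Bool) → β} {S : Finset ι} (h : DependsOn f S)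
    (ω : ι → Bool) : f ω = f (ext S (S.restrict ω)) :=
  h fun i hi => by
    have hi' : i ∈ S := hi
    simp [ext, hi']

theorem LocF.measurable {β : Type*} [MeasurableSpace β] {f : (ι → Bool) → β} (h : LocF f) :
    Measurable f := by
  obtain ⟨S, hS, h⟩ := h
  lift S to Finset ι using hS
  have : f = (fun η => f (ext S η)) ∘ S.restrict := funext fun ω => eq_ext_restrict h ω
  rw [this]
  exact (measurable_of_finite _).comp (Finset.measurable_restrict S)

theorem LocF.finite_range {β : Type*} {f : (ι → Bool) → β} (h : LocF f) :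
    (Set.range f).Finite := by
  obtain ⟨S, hS, h⟩ := h
  lift S to Finset ι using hS
  refine (Set.finite_range fun η => f (ext S η)).subset ?_
  rintro _ ⟨ω, rfl⟩
  exact ⟨_, (eq_ext_restrict h ω).symm⟩

theorem Loc.measurableSet {A : Set (ι → Bool)} (h : Loc A) : MeasurableSet A := by
  obtain ⟨S, hS, h⟩ := h
  have : LocF fun ω => ω ∈ A := ⟨S, hS, fun _ _ hω => propext (h.iff hω)⟩
  exact measurableSet_setOfPred.2 this.measurable

theorem LocF.integrable {f : (ι → Bool) → ℝ} (h : LocF f) (π : ι → I) : Integrable f (PM π) := by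
  obtain ⟨C, hC⟩ := (h.finite_range.image fun x => ‖x‖).bddAbove
  exact Integrable.of_bound h.measurable.aestronglyMeasurable C
    (Filter.Eventually.of_forall fun ω => hC ⟨_, ⟨ω, rfl⟩, rfl⟩)

theorem bern_singleton (p : I) (b : Bool) : (bernoulliMeasure true false p).real {b} = wt p b := by
  cases b
  · rw [bernoulliMeasure_real_apply_of_notMem_of_mem p (measurableSet_singleton _) (by simp) rfl]
    rfl
  · rw [bernoulliMeasure_real_apply_of_mem_of_notMem p (measurableSet_singleton _) rfl (by simp)]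
    rfl

open Classical in
/-- the expectation of a local function as a finite sum -/
theorem integral_eq_sum (π : ι → I) {f : (ι → Bool) → ℝ} {S : Finset ι} (h : DependsOn f S) :
    ∫ ω, f ω ∂PM π = ∑ η : S → Bool, (∏ i : S, wt (π i) (η i)) * f (ext S η) := by
  have e : ∫ ω, f ω ∂PM π = ∫ ω, (fun η => f (ext S η)) (S.restrict ω) ∂PM π :=
    integral_congr_ae (Filter.Eventually.of_forall fun ω => eq_ext_restrict h ω)
  rw [e, PM, integral_restrict_infinitePi (fun i => bernoulliMeasure true false (π i))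
    (f := fun η => f (ext S η)) (measurable_of_finite _).aestronglyMeasurable,
    integral_fintype Integrable.of_finite]
  refine Finset.sum_congr rfl fun η _ => ?_
  rw [smul_eq_mul, measureReal_def, Measure.pi_singleton, ENNReal.toReal_prod]
  congr 1
  exact Finset.prod_congr rfl fun i _ => bern_singleton _ _

end Finite

section Basic

variable (π : ι → I) {A B : Set (ι → Bool)}

theorem Pr_nonneg (A : Set (ι → Bool)) : 0 ≤ Pr π A := measureReal_nonneg
theorem Pr_le_one (A : Set (ι → Bool)) : Pr π A ≤ 1 := measureReal_le_one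
@[simp] theorem Pr_univ : Pr π Set.univ = 1 := probReal_univ
@[simp] theorem Pr_empty : Pr π ∅ = 0 := measureReal_empty

variable {π} in
theorem Pr_mono (h : A ⊆ B) : Pr π A ≤ Pr π B := measureReal_mono h

theorem Pr_union_le (A B : Set (ι → Bool)) : Pr π (A ∪ B) ≤ Pr π A + Pr π B :=
  measureReal_union_le A B

theorem Pr_biUnion_le {κ : Type*} (s : Finset κ) (A : κ → Set (ι → Bool)) :
    Pr π (⋃ k ∈ s, A k) ≤ ∑ k ∈ s, Pr π (A k) := measureReal_biUnion_finset_le s A

theorem Pr_exists_le {κ : Type*} (s : Finset κ) (A : κ → Set (ι → Bool)) :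
    Pr π {ω | ∃ k ∈ s, ω ∈ A k} ≤ ∑ k ∈ s, Pr π (A k) := by
  convert Pr_biUnion_le π s A using 2
  ext; simp

theorem Pr_compl (h : Loc A) : Pr π Aᶜ = 1 - Pr π A := by
  rw [Pr, measureReal_compl h.measurableSet, probReal_univ]; rfl

theorem Pr_biUnion_eq {κ : Type*} (s : Finset κ) {A : κ → Set (ι → Bool)}
    (hd : (s : Set κ).PairwiseDisjoint A) (h : ∀ k ∈ s, Loc (A k)) :
    Pr π (⋃ k ∈ s, A k) = ∑ k ∈ s, Pr π (A k) :=
  measureReal_biUnion_finset hd fun k hk => (h k hk).measurableSet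

theorem sum_Pr_le {κ : Type*} (s : Finset κ) {A : κ → Set (ι → Bool)}
    (hd : (s : Set κ).PairwiseDisjoint A) (h : ∀ k ∈ s, Loc (A k)) (hB : ∀ k ∈ s, A k ⊆ B) :
    ∑ k ∈ s, Pr π (A k) ≤ Pr π B := by
  rw [← Pr_biUnion_eq π s hd h]
  exact Pr_mono (Set.iUnion₂_subset hB)

theorem Pr_eq_integral (h : Loc A) : Pr π A = ∫ ω, A.indicator (fun _ => (1 : ℝ)) ω ∂PM π := by
  rw [integral_indicator h.measurableSet]; simp [Pr]

theorem integral_indicator_const' (h : Loc A) (c : ℝ) :
    ∫ ω, A.indicator (fun _ => c) ω ∂PM π = c * Pr π A := by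
  rw [integral_indicator h.measurableSet]; simp [Pr, mul_comm]

/-- independence of local functions of disjoint sets of coordinates -/
theorem integral_mul_indep {f g : (ι → Bool) → ℝ} {S T : Set ι} (hf : LocF f) (hg : LocF g)
    (hS : DependsOn f S) (hT : DependsOn g T) (hd : Disjoint S T) :
    ∫ ω, f ω * g ω ∂PM π = (∫ ω, f ω ∂PM π) * ∫ ω, g ω ∂PM π := by
  obtain ⟨S₀, hS₀, h1⟩ := hf
  obtain ⟨T₀, hT₀, h2⟩ := hg
  have h3 := dependsOn_inter_supp hS h1
  have h4 := dependsOn_inter_supp hT h2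
  have hd' : Disjoint (S ∩ S₀) (T ∩ T₀) := hd.mono Set.inter_subset_left Set.inter_subset_left
  have f1 : (S ∩ S₀).Finite := hS₀.inter_of_right _
  have f2 : (T ∩ T₀).Finite := hT₀.inter_of_right _
  generalize S ∩ S₀ = S' at h3 hd' f1
  generalize T ∩ T₀ = T' at h4 hd' f2
  lift S' to Finset ι using f1
  lift T' to Finset ι using f2
  have hi : IndepFun (fun (ω : ι → Bool) (i : S') => ω i) (fun ω (i : T') => ω i) (PM π) :=
    (iIndepFun_infinitePi (X := fun _ b => b) (fun _ => measurable_id)).indepFun_finset S' T'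
      (Finset.disjoint_coe.1 hd') fun i => measurable_pi_apply i
  have := hi.integral_fun_comp_mul_comp (f := fun η => f (ext S' η)) (g := fun η => g (ext T' η))
    (Finset.measurable_restrict S').aemeasurable (Finset.measurable_restrict T').aemeasurable
    (measurable_of_finite _).aestronglyMeasurable (measurable_of_finite _).aestronglyMeasurable
  convert this using 1
  · exact integral_congr_ae (Filter.Eventually.of_forall fun ω => by
      simp only []
      rw [eq_ext_restrict h3 ω, eq_ext_restrict h4 ω]; rfl)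
  · congr 1
    · exact integral_congr_ae (Filter.Eventually.of_forall fun ω => eq_ext_restrict h3 ω)
    · exact integral_congr_ae (Filter.Eventually.of_forall fun ω => eq_ext_restrict h4 ω)

theorem Pr_inter_indep {S T : Set ι} (hA : Loc A) (hB : Loc B) (hS : Dep A S) (hT : Dep B T)
    (hd : Disjoint S T) : Pr π (A ∩ B) = Pr π A * Pr π B := by
  rw [Pr_eq_integral π (hA.inter hB), Pr_eq_integral π hA, Pr_eq_integral π hB,
    ← integral_mul_indep π (hA.locF_indicator 1) (hB.locF_indicator 1)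
      (hS.dependsOn_indicator 1) (hT.dependsOn_indicator 1) hd]
  congr 1
  ext ω
  by_cases h1 : ω ∈ A <;> by_cases h2 : ω ∈ B <;> simp [h1, h2]

theorem Pr_forall_indep {κ : Type*} (s : Finset κ) {A : κ → Set (ι → Bool)} {S : κ → Set ι}
    (hA : ∀ k ∈ s, Loc (A k)) (hS : ∀ k ∈ s, Dep (A k) (S k))
    (hd : (s : Set κ).PairwiseDisjoint S) :
    Pr π {ω | ∀ k ∈ s, ω ∈ A k} = ∏ k ∈ s, Pr π (A k) := by
  classical
  induction s using Finset.induction_on with
  | empty => simp
  | insert a s ha ih =>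
    have e : {ω | ∀ k ∈ insert a s, ω ∈ A k} = A a ∩ {ω | ∀ k ∈ s, ω ∈ A k} := by
      ext; simp
    rw [e, Finset.prod_insert ha, ← ih (fun k hk => hA k (by simp [hk]))
      (fun k hk => hS k (by simp [hk])) (hd.subset (by simp))]
    refine Pr_inter_indep π (hA a (by simp)) (Loc.forall_mem s fun k hk => hA k (by simp [hk]))
      (hS a (by simp)) (T := ⋃ k ∈ s, S k) ?_ ?_
    · intro ω ω' hω h k hk
      exact hS k (by simp [hk]) (fun i hi => hω i (Set.mem_biUnion hk hi)) (h k hk)
    · rw [Set.disjoint_iUnion₂_right]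
      intro k hk
      exact hd (by simp) (by simp [hk]) (fun h => ha (h ▸ hk))

theorem Pr_eval (i : ι) (b : Bool) : Pr π {ω | ω i = b} = wt (π i) b := by
  rw [← bern_singleton, Pr, PM, ← Measure.infinitePi_map_eval (fun i => bernoulliMeasure true false (π i)) i,
    measureReal_def,
    measureReal_def, Measure.map_apply (measurable_pi_apply i) (measurableSet_singleton _)]
  rfl

theorem dep_eval (i : ι) (b : Bool) : Dep {ω : ι → Bool | ω i = b} {i} :=
  fun _ _ hω h => by rw [Set.mem_ofPred_eq, ← hω i rfl]; exact h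

theorem dep_cyl (J : Set ι) (η : ι → Bool) : Dep {ω : ι → Bool | ∀ i ∈ J, ω i = η i} J :=
  fun _ _ hω h i hi => by rw [← hω i hi]; exact h i hi

theorem loc_cyl (J : Finset ι) (η : ι → Bool) : Loc {ω : ι → Bool | ∀ i ∈ J, ω i = η i} :=
  (dep_cyl (J : Set ι) η).loc J.finite_toSet

/-- probability of a cylinder -/
theorem Pr_cyl (J : Finset ι) (η : ι → Bool) :
    Pr π {ω | ∀ i ∈ J, ω i = η i} = ∏ i ∈ J, wt (π i) (η i) := by
  rw [← Finset.prod_congr rfl fun i _ => Pr_eval π i (η i)]
  exact Pr_forall_indep π J (A := fun i => {ω | ω i = η i}) (S := fun i => {i})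
    (fun i _ => (dep_eval i _).loc (Set.finite_singleton i)) (fun i _ => dep_eval i _)
    (fun i _ j _ hij => Set.disjoint_singleton.2 hij)

/-- Markov inequality for the number of events that occur -/
theorem Pr_card_ge {κ : Type*} (s : Finset κ) {A : κ → Set (ι → Bool)} (hA : ∀ k ∈ s, Loc (A k))
    {t : ℝ} {E : Set (ι → Bool)} (hE : Loc E)
    (h : ∀ ω ∈ E, ∃ u ⊆ s, t ≤ u.card ∧ ∀ k ∈ u, ω ∈ A k) :
    t * Pr π E ≤ ∑ k ∈ s, Pr π (A k) := by
  rw [← integral_indicator_const' π hE, Finset.sum_congr rfl fun k hk => Pr_eq_integral π (hA k hk),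
    ← integral_finsetSum _ fun k hk => ((hA k hk).locF_indicator 1).integrable π]
  refine integral_mono ((hE.locF_indicator t).integrable π)
    ((LocF.sum s fun k hk => (hA k hk).locF_indicator 1).integrable π) fun ω => ?_
  have nn : ∀ k, 0 ≤ (A k).indicator (fun _ => (1 : ℝ)) ω := fun k =>
    Set.indicator_nonneg (fun _ _ => zero_le_one) _
  by_cases hω : ω ∈ E
  · obtain ⟨u, hu, ht, h'⟩ := h ω hω
    rw [Set.indicator_of_mem hω]
    refine ht.trans (le_trans ?_ (Finset.sum_le_sum_of_subset_of_nonneg hu fun k _ _ => nn k))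
    rw [Finset.sum_congr rfl fun k hk => Set.indicator_of_mem (h' k hk) _]
    simp
  · rw [Set.indicator_of_notMem hω]
    exact Finset.sum_nonneg fun k _ => nn k

/-- decomposition according to the value of a local random variable -/
theorem Pr_eq_sum_fiber {γ : Type*} {X : (ι → Bool) → γ} (hX : LocF X) (hA : Loc A) :
    Pr π A = ∑ c ∈ hX.finite_range.toFinset, Pr π ({ω | X ω = c} ∩ A) := by
  rw [← Pr_biUnion_eq π _ ?_ fun c _ => (hX.loc_eq c).inter hA]
  · congr 1
    ext ω
    simp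
  · intro a _ b _ hab
    rw [Function.onFun, Set.disjoint_left]
    rintro ω ⟨h1, -⟩ ⟨h2, -⟩
    exact hab (h1.symm.trans h2)

/-- conditioning on a local random variable, upper bound -/
theorem Pr_cond_le {γ : Type*} {X : (ι → Bool) → γ} (hX : LocF X) (G : Set γ)
    {A : γ → Set (ι → Bool)} {S T : γ → Set ι} (hA : ∀ c ∈ G, Loc (A c))
    (hS : ∀ c ∈ G, Dep {ω | X ω = c} (S c)) (hT : ∀ c ∈ G, Dep (A c) (T c))
    (hd : ∀ c ∈ G, Disjoint (S c) (T c)) {κ : ℝ} (hκ : ∀ c ∈ G, Pr π (A c) ≤ κ) :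
    Pr π {ω | X ω ∈ G ∧ ω ∈ A (X ω)} ≤ κ * Pr π {ω | X ω ∈ G} := by
  classical
  have e : {ω | X ω ∈ G ∧ ω ∈ A (X ω)} =
      ⋃ c ∈ hX.finite_range.toFinset.filter (· ∈ G), ({ω | X ω = c} ∩ A c) := by
    ext ω; simp
  rw [e, Pr_eq_sum_fiber π hX (hX.loc G), Finset.mul_sum]
  refine (Pr_biUnion_le π _ _).trans ?_
  rw [Finset.sum_filter]
  refine Finset.sum_le_sum fun c _ => ?_
  split_ifs with hc
  · have : {ω | X ω = c} ∩ {ω | X ω ∈ G} = {ω | X ω = c} := by
      ext ω; simp only [Set.mem_inter_iff, Set.mem_ofPred_eq]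
      exact ⟨fun h => h.1, fun h => ⟨h, h ▸ hc⟩⟩
    rw [this, Pr_inter_indep π (hX.loc_eq c) (hA c hc) (hS c hc) (hT c hc) (hd c hc), mul_comm]
    exact mul_le_mul_of_nonneg_right (hκ c hc) (Pr_nonneg π _)
  · have : {ω | X ω = c} ∩ {ω | X ω ∈ G} = ∅ := by
      ext ω; simp only [Set.mem_inter_iff, Set.mem_ofPred_eq, Set.mem_empty_iff_false, iff_false]
      exact fun h => hc (h.1 ▸ h.2)
    simp [this]

/-- conditioning on a local random variable, lower bound -/
theorem Pr_cond_ge {γ : Type*} {X : (ι → Bool) → γ} (hX : LocF X) (G : Set γ)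
    {A : γ → Set (ι → Bool)} {S T : γ → Set ι} (hA : ∀ c ∈ G, Loc (A c))
    (hS : ∀ c ∈ G, Dep {ω | X ω = c} (S c)) (hT : ∀ c ∈ G, Dep (A c) (T c))
    (hd : ∀ c ∈ G, Disjoint (S c) (T c)) {κ : ℝ} (hκ : ∀ c ∈ G, κ ≤ Pr π (A c)) :
    κ * Pr π {ω | X ω ∈ G} ≤ Pr π {ω | X ω ∈ G ∧ ω ∈ A (X ω)} := by
  classical
  have h1 := Pr_cond_le π hX G (A := fun c => (A c)ᶜ) (fun c hc => (hA c hc).compl) hS
    (fun c hc => (hT c hc).compl) hd (κ := 1 - κ) fun c hc => by
      rw [Pr_compl π (hA c hc)]; linarith [hκ c hc]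
  have h2 : Pr π {ω | X ω ∈ G} ≤
      Pr π {ω | X ω ∈ G ∧ ω ∈ A (X ω)} + Pr π {ω | X ω ∈ G ∧ ω ∈ (A (X ω))ᶜ} := by
    refine le_trans (Pr_mono fun ω hω => ?_) (Pr_union_le π _ _)
    by_cases h : ω ∈ A (X ω)
    · exact Or.inl ⟨hω, h⟩
    · exact Or.inr ⟨hω, h⟩
  linarith

end Basic

section FKG

variable (π : ι → I)

theorem ext_mono (S : Finset ι) : Monotone (ext S) := fun η η' h i => by
  unfold ext
  split_ifs with hi
  · exact h _
  · exact le_rfl

/-- Harris inequality for monotone nonnegative local functions -/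
theorem harris_fun {f g : (ι → Bool) → ℝ} (hf : LocF f) (hg : LocF g) (f0 : 0 ≤ f) (g0 : 0 ≤ g)
    (mf : Monotone f) (mg : Monotone g) :
    (∫ ω, f ω ∂PM π) * ∫ ω, g ω ∂PM π ≤ ∫ ω, f ω * g ω ∂PM π := by
  classical
  obtain ⟨S₁, hS₁, h1⟩ := hf
  obtain ⟨S₂, hS₂, h2⟩ := hg
  have hS := hS₁.union hS₂
  replace h1 := h1.mono (Set.subset_union_left (t := S₂))
  replace h2 := h2.mono (Set.subset_union_right (s := S₁))
  generalize S₁ ∪ S₂ = S at h1 h2 hS
  lift S to Finset ι using hS
  have h3 : DependsOn (fun ω => f ω * g ω) (S : Set ι) := fun _ _ hω => by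
    simp only [h1 hω, h2 hω]
  have h0 : ∑ η : S → Bool, ∏ i : S, wt (π i) (η i) = 1 := by
    have := integral_eq_sum π (f := fun _ => (1 : ℝ)) (S := S) (fun _ _ _ => rfl)
    simpa using this.symm
  rw [integral_eq_sum π h1, integral_eq_sum π h2, integral_eq_sum π h3]
  have := fkg (μ := fun η : S → Bool => ∏ i : S, wt (π i) (η i)) (fun η => f (ext S η))
    (fun η => g (ext S η)) (fun η => Finset.prod_nonneg fun i _ => wt_nonneg _ _)
    (fun η => f0 _) (fun η => g0 _) (mf.comp (ext_mono S)) (mg.comp (ext_mono S)) (fun a b => by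
      rw [← Finset.prod_mul_distrib, ← Finset.prod_mul_distrib]
      refine le_of_eq (Finset.prod_congr rfl fun i _ => ?_)
      rw [Pi.inf_apply, Pi.sup_apply]
      cases a i <;> cases b i <;> simp [mul_comm])
  rwa [h0, one_mul] at this

theorem harris_upper {A B : Set (ι → Bool)} (hA : Loc A) (hB : Loc B) (uA : IsUpperSet A)
    (uB : IsUpperSet B) : Pr π A * Pr π B ≤ Pr π (A ∩ B) := by
  have key : ∀ C : Set (ι → Bool), IsUpperSet C → Monotone (C.indicator fun _ => (1 : ℝ)) := by
    intro C hC a b hab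
    by_cases h : a ∈ C
    · simp [h, hC hab h]
    · rw [Set.indicator_of_notMem h]; exact Set.indicator_nonneg (fun _ _ => zero_le_one) _
  rw [Pr_eq_integral π hA, Pr_eq_integral π hB, Pr_eq_integral π (hA.inter hB)]
  refine (harris_fun π (hA.locF_indicator 1) (hB.locF_indicator 1)
    (fun _ => Set.indicator_nonneg (fun _ _ => zero_le_one) _)
    (fun _ => Set.indicator_nonneg (fun _ _ => zero_le_one) _) (key A uA) (key B uB)).trans_eq ?_
  congr 1
  ext ω
  by_cases h1 : ω ∈ A <;> by_cases h2 : ω ∈ B <;> simp [h1, h2]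

theorem harris_lower {A B : Set (ι → Bool)} (hA : Loc A) (hB : Loc B) (uA : IsLowerSet A)
    (uB : IsLowerSet B) : Pr π A * Pr π B ≤ Pr π (A ∩ B) := by
  have h1 := harris_upper π hA.compl hB.compl uA.compl uB.compl
  rw [← Set.compl_union, Pr_compl π hA, Pr_compl π hB, Pr_compl π (hA.union hB)] at h1
  have h2 : Pr π (A ∪ B) + Pr π (A ∩ B) = Pr π A + Pr π B :=
    measureReal_union_add_inter hB.measurableSet
  nlinarith

theorem harris_lower_prod {κ : Type*} (s : Finset κ) {A : κ → Set (ι → Bool)}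
    (hA : ∀ k ∈ s, Loc (A k)) (uA : ∀ k ∈ s, IsLowerSet (A k)) :
    ∏ k ∈ s, Pr π (A k) ≤ Pr π {ω | ∀ k ∈ s, ω ∈ A k} := by
  classical
  induction s using Finset.induction_on with
  | empty => simp
  | insert a s ha ih =>
    have e : {ω | ∀ k ∈ insert a s, ω ∈ A k} = A a ∩ {ω | ∀ k ∈ s, ω ∈ A k} := by
      ext; simp
    rw [e, Finset.prod_insert ha]
    refine le_trans (mul_le_mul_of_nonneg_left (ih (fun k hk => hA k (by simp [hk]))
      (fun k hk => uA k (by simp [hk]))) (Pr_nonneg π _)) ?_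
    refine harris_lower π (hA a (by simp)) (Loc.forall_mem s fun k hk => hA k (by simp [hk]))
      (uA a (by simp)) fun ω ω' h h' k hk => uA k (by simp [hk]) h (h' k hk)

end FKG

section Transport

variable {ι' : Type*}

theorem PM_map_inj (π : ι' → I) {φ : ι → ι'} (hφ : Function.Injective φ) :
    (PM π).map (fun ω i => ω (φ i)) = PM fun i => π (φ i) :=
  Measure.map_infinitePi_infinitePi_of_inj hφ

theorem measurable_reindex (φ : ι → ι') : Measurable fun (ω : ι' → Bool) i => ω (φ i) :=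
  measurable_pi_lambda _ fun _ => measurable_pi_apply _

/-- transport of probabilities along an injective reindexing -/
theorem Pr_comp_inj (π : ι' → I) {φ : ι → ι'} (hφ : Function.Injective φ) {A : Set (ι → Bool)}
    (hA : Loc A) : Pr π {ω | (fun i => ω (φ i)) ∈ A} = Pr (fun i => π (φ i)) A := by
  rw [Pr, Pr, ← PM_map_inj π hφ, measureReal_def, measureReal_def,
    Measure.map_apply (measurable_reindex φ) hA.measurableSet]
  rfl

theorem integral_comp_inj (π : ι' → I) {φ : ι → ι'} (hφ : Function.Injective φ)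
    {f : (ι → Bool) → ℝ} (hf : LocF f) :
    ∫ ω, f (fun i => ω (φ i)) ∂PM π = ∫ ω, f ω ∂PM fun i => π (φ i) := by
  rw [← PM_map_inj π hφ, integral_map (measurable_reindex φ).aemeasurable
    hf.measurable.aestronglyMeasurable]

theorem Dep.comp {A : Set (ι → Bool)} {S : Set ι} (h : Dep A S) (φ : ι → ι') :
    Dep {ω : ι' → Bool | (fun i => ω (φ i)) ∈ A} (φ '' S) :=
  fun _ _ hω h1 => h (fun i hi => hω _ ⟨i, hi, rfl⟩) h1

theorem Loc.comp {A : Set (ι → Bool)} (h : Loc A) (φ : ι → ι') :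
    Loc {ω : ι' → Bool | (fun i => ω (φ i)) ∈ A} :=
  let ⟨_, hS, h⟩ := h; ⟨_, hS.image φ, h.comp φ⟩

theorem measure_bool_ext {μ ν : Measure Bool} [IsProbabilityMeasure μ] [IsProbabilityMeasure ν]
    (h : μ.real {false} = ν.real {false}) : μ = ν := by
  have h1 : μ {false} = ν {false} := by
    rw [← ofReal_measureReal (μ := μ), ← ofReal_measureReal (μ := ν), h]
  have e : ({true} : Set Bool) = {false}ᶜ := by ext b; cases b <;> simp
  refine Measure.ext_of_singleton fun b => ?_
  cases b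
  · exact h1
  · rw [e, prob_compl_eq_one_sub (measurableSet_singleton _),
      prob_compl_eq_one_sub (measurableSet_singleton _), h1]


/-- one half -/
noncomputable def hf : I := ⟨1 / 2, by norm_num, by norm_num⟩

theorem PM_map_equiv (g : ι → Bool ≃ Bool) :
    (PM fun _ : ι => hf).map (fun ω i => g i (ω i)) = PM fun _ => hf := by
  have h2 := Measure.infinitePi_map_pi (fun _ : ι => bernoulliMeasure true false hf)
    (f := fun i (b : Bool) => g i b) fun _ => measurable_of_finite _
  rw [PM, h2]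
  congr 1
  ext1 i
  have : IsProbabilityMeasure ((bernoulliMeasure true false hf).map fun b : Bool => g i b) :=
    Measure.isProbabilityMeasure_map (measurable_of_finite _).aemeasurable
  refine measure_bool_ext ?_
  rw [measureReal_def, Measure.map_apply (measurable_of_finite _) (measurableSet_singleton _)]
  have e : (fun b : Bool => g i b) ⁻¹' {false} = {(g i).symm false} := by
    ext b; simp [Equiv.eq_symm_apply]
  rw [e, ← measureReal_def, bern_singleton, bern_singleton]
  cases (g i).symm false <;> simp [hf] <;> norm_num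

theorem measurable_equiv (g : ι → Bool ≃ Bool) : Measurable fun (ω : ι → Bool) i => g i (ω i) :=
  measurable_pi_lambda _ fun i => (measurable_of_finite (g i)).comp (measurable_pi_apply i)

theorem Pr_equiv (g : ι → Bool ≃ Bool) {A : Set (ι → Bool)} (hA : Loc A) :
    Pr (fun _ => hf) {ω | (fun i => g i (ω i)) ∈ A} = Pr (fun _ => hf) A := by
  conv_rhs => rw [Pr, ← PM_map_equiv g, measureReal_def,
    Measure.map_apply (measurable_equiv g) hA.measurableSet]
  rfl

theorem integral_equiv (g : ι → Bool ≃ Bool) {f : (ι → Bool) → ℝ} (hf' : LocF f) :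
    ∫ ω, f (fun i => g i (ω i)) ∂PM (fun _ => hf) = ∫ ω, f ω ∂PM fun _ => hf := by
  conv_rhs => rw [← PM_map_equiv g, integral_map (measurable_equiv g).aemeasurable
    hf'.measurable.aestronglyMeasurable]

end Transport

/-- probability at one half -/
noncomputable abbrev Q (A : Set Cfg) : ℝ := Pr (fun _ => hf) A

theorem crit_real (A : Set Cfg) : crit.real A = Q A := rfl

end Pool.Agent.P.MP_6c8efb_pr
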