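import Pool.Agent.P.MP_6c8efb_pr.Chain

/-! The boundary of a set of faces attached to the left side of a rectangle. -/

namespace Pool.Agent.P.MP_6c8efb_pr

open Classical

/-- the second face adjacent to an edge (the first one is `e.1`) -/
def ot (e : E) : V := if e.2 then (e.1.1, e.1.2 - 1) else (e.1.1 - 1, e.1.2)

@[simp] theorem ot_true (x : V) : ot (x, true) = (x.1, x.2 - 1) := rfl
@[simp] theorem ot_false (x : V) : ot (x, false) = (x.1 - 1, x.2) := rfl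

/-- edges adjacent to a set of faces -/
def EF (F : Set V) : Set E := {e | e.1 ∈ F ∨ ot e ∈ F}

/-- close all the edges adjacent to a set of faces -/
noncomputable def cut (F : Set V) (ω : Cfg) : Cfg := fun e => if e ∈ EF F then false else ω e

/-- boundary edges of a set of faces inside a strip -/
noncomputable def bt (F : Set V) (H : ℤ) : Cfg := fun e =>
  decide ((e.1 ∈ F ↔ ot e ∉ F) ∧ 0 ≤ (hd e).1 ∧ (e.2 = true → 0 < e.1.2 ∧ e.1.2 < H))

theorem bt_iff {F : Set V} {H : ℤ} {e : E} : bt F H e = true ↔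
    (e.1 ∈ F ↔ ot e ∉ F) ∧ 0 ≤ (hd e).1 ∧ (e.2 = true → 0 < e.1.2 ∧ e.1.2 < H) :=
  decide_eq_true_iff

/-- indicator -/
noncomputable def ic (F : Set V) (f : V) : ℤ := if f ∈ F then 1 else 0

/-- the signed boundary -/
noncomputable def sb (F : Set V) (e : E) : ℤ :=
  if e.2 then ic F e.1 - ic F (ot e) else ic F (ot e) - ic F e.1

theorem mem_EF_edge {F : Set V} {v : V} {d : Fin 4} :
    edge v d ∈ EF F ↔ fc v d ∈ F ∨ fc v (d + 1) ∈ F := by
  rcases cases4 d with rfl | rfl | rfl | rfl <;> simp [EF, or_comm]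

theorem sb_edge (F : Set V) (v : V) (d : Fin 4) :
    ic F (fc v (d + 1)) - ic F (fc v d) = sg d * sb F (edge v d) := by
  rcases cases4 d with rfl | rfl | rfl | rfl <;> simp [sb]

theorem bd_sb (F : Set V) (v : V) : bd (sb F) v = 0 := by
  simp [bd, sb]

theorem bt_edge {F : Set V} {H : ℤ} {v : V} {d : Fin 4} (hv : 0 ≤ v.1) (h : St 0 H (fc v d))
    (h' : St 0 H (fc v (d + 1))) :
    bt F H (edge v d) = true ↔ (fc v d ∈ F ↔ fc v (d + 1) ∉ F) := by
  rw [bt_iff]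
  rcases cases4 d with rfl | rfl | rfl | rfl <;> simp [St] at h h' ⊢
  · exact ⟨by tauto, fun h => ⟨by tauto, by omega⟩⟩
  · exact fun _ => hv
  · exact fun _ => by omega
  · exact ⟨by tauto, fun h => ⟨by tauto, by omega⟩⟩

theorem bt_mem {F : Set V} {n H : ℤ} (hF : ∀ f ∈ F, -1 ≤ f.1 ∧ f.1 < n ∧ 0 ≤ f.2 ∧ f.2 < H)
    (hL : ∀ j, 0 ≤ j → j < H → (-1, j) ∈ F) {e : E} (h : bt F H e = true) :
    e ∈ In (Rc 0 n 0 H) := by
  rw [bt_iff] at h
  obtain ⟨⟨i, j⟩, b⟩ := e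
  cases b <;> simp [In, mem_Rc] at h ⊢
  · by_cases h1 : (i, j) ∈ F
    · have := hF _ h1
      simp only at this
      omega
    · have := hF (i - 1, j) (by tauto)
      simp only at this
      omega
  · have h0 : i ≠ -1 := by
      rintro rfl
      exact h.1.1 (hL j (by omega) (by omega)) (hL _ (by omega) (by omega))
    by_cases h1 : (i, j) ∈ F
    · have := hF _ h1
      simp only at this
      omega
    · have := hF (i, j - 1) (by tauto)
      simp only at this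
      omega

theorem last_touch {ω : Cfg} {R : Set V} {I : V → Prop} {x y : V} (h : Conn ω R x y) (hR : x ∈ R)
    (hx : I x) : ∃ w, I w ∧ w ∈ R ∧ (w = y ∨ ∃ d, w + u d ∈ R ∧ ¬ I (w + u d) ∧
      ω (edge w d) = true ∧ Conn ω (R ∩ {z | ¬ I z}) (w + u d) y) := by
  by_cases hy : I y
  · exact ⟨y, hy, h.mem hR, Or.inl rfl⟩
  obtain ⟨a, d, h1, h2, h3, h4, h5, h6⟩ := h.symm'.exit (A := {z | ¬ I z}) hy (by simpa using hx)
  refine ⟨a + u d, by simpa using h5, h4, Or.inr ⟨d + 2, ?_⟩⟩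
  rw [u_back, edge_back]
  exact ⟨h2, h3, h6, h1.symm'⟩

theorem T2 {F : Set V} {n m H : ℤ} (hm : n ≤ m) (hH : 0 < H)
    (hF : ∀ f ∈ F, -1 ≤ f.1 ∧ f.1 < n ∧ 0 ≤ f.2 ∧ f.2 < H)
    (hL : ∀ j, 0 ≤ j → j < H → (-1, j) ∈ F)
    (hC : ∀ f ∈ F, ∃ f0, f0.1 = -1 ∧ Conn (fun _ => true) F f0 f)
    {ω : Cfg} {x y : V} (h : Conn ω (Rc 0 m 0 H) x y) (hx : x ∈ Rc 0 m 0 H) (hx0 : x.1 = 0)
    (hy : y.1 = m) :
    ∃ w, w ∈ Rc 0 n 0 H ∧ Conn (cut F ω) (Rc 0 m 0 H) w y ∧ ∃ p q, p.2 = 0 ∧ q.2 = H ∧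
      Conn (bt F H) (Rc 0 n 0 H) w p ∧ Conn (bt F H) (Rc 0 n 0 H) w q := by
  have hFS : ∀ f ∈ F, St 0 H f := fun f hf => (hF f hf).2.2
  obtain ⟨w, ⟨dw, hw⟩, wR, hw'⟩ := last_touch (I := fun z => ∃ d, fc z d ∈ F) h hx (by
    obtain ⟨d, h1, h2⟩ := left_face hH hx.2.2.1 hx.2.2.2
    refine ⟨d, ?_⟩
    have := hL _ h1.1 h1.2
    rwa [show fc x d = (-1, (fc x d).2) from Prod.ext (by omega) rfl])
  have wn : w ∈ Rc 0 n 0 H := by
    have := hF _ hw
    refine ⟨wR.1, ?_, wR.2.2⟩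
    rcases cases4 dw with rfl | rfl | rfl | rfl <;> simp at this <;> omega
  have nEF : ∀ a d, (¬ ∃ d', fc a d' ∈ F) → cut F ω (edge a d) = ω (edge a d) := fun a d ha =>
    if_neg fun b => (mem_EF_edge.1 b).elim (fun b => ha ⟨_, b⟩) fun b => ha ⟨_, b⟩
  refine ⟨w, wn, ?_, ?_⟩
  · rcases hw' with rfl | ⟨d, b1, b2, b3, b4⟩
    · exact Conn.rfl'
    · refine (Conn.one wR b1 ?_).trans' (b4.ind (p := fun z => Conn (cut F ω) (Rc 0 m 0 H) (w + u d) z)
        Conn.rfl' fun a d' _ ha hb ho ih => ih.snoc ha.1 hb.1 ?_)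
      · rw [← edge_back, nEF _ _ b2, edge_back, b3]
      · rw [nEF _ _ ha.2, ho]
  set K := Cl (bt F H) (Rc 0 n 0 H) w with hK
  let c : E → ℤ := fun e => if e ∈ In K ∧ bt F H e = true then sb F e else 0
  have f1 : ∀ e, c e ≠ 0 → e ∈ In K ∧ bt F H e = true := fun e he => by
    by_contra b; exact he (if_neg b)
  have f2 : ∀ v ∈ K, ∀ d, St 0 H (fc v d) → St 0 H (fc v (d + 1)) →
      c (edge v d) = sb F (edge v d) := fun v hv d a1 a2 => by
    by_cases b : bt F H (edge v d) = true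
    · have b1 := (edge_mem_In.1 (bt_mem hF hL b)).2
      exact if_pos ⟨edge_mem_In.2 ⟨hv, b1, hv.2.snoc hv.1 b1 b⟩, b⟩
    · have b1 := sb_edge F v d
      rw [bt_edge hv.1.1 a1 a2] at b
      have b2 : ic F (fc v (d + 1)) = ic F (fc v d) := by
        unfold ic; by_cases b3 : fc v d ∈ F <;> by_cases b4 : fc v (d + 1) ∈ F <;> simp_all
      have b3 : sb F (edge v d) = 0 := by
        rcases cases4 d with rfl | rfl | rfl | rfl <;> simp only [sg0, sg1, sg2, sg3] at b1 <;> omega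
      simp only [c, b3, ite_self]
  have f3 : ∀ k j, 0 < j → j < H → bd c (k, j) = 0 := fun k j a1 a2 => by
    by_cases b : (k, j) ∈ K
    · rw [← bd_sb F (k, j), bd, bd, f2 _ b 0, f2 _ b 1, f2 _ b 2, f2 _ b 3] <;> simp [St] <;> omega
    · have : ∀ d, c (edge (k, j) d) = 0 := fun d => by
        by_contra b1; exact b (edge_mem_In.1 (f1 _ b1).1).1
      simp only [bd, this]; rfl
  obtain ⟨J, j1, j2, j3⟩ := exists_J c 0 fun e he => (f1 e he).1.1.1.1
  have j4 : ∀ i j, 0 < j → j < H → J (i, j) - J (i, j - 1) + c ((i, j), true) = 0 := by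
    intro i j a1 a2
    rw [j3 j 0 (fun k _ => f3 k j a1 a2), f3 0 j a1 a2, ite_self]
  have j5 := J_dart j2 j4
  have j6 : ∀ v d, St 0 H (fc v d) → St 0 H (fc v (d + 1)) → (fc v d ∈ F ↔ fc v (d + 1) ∈ F) →
      J (fc v (d + 1)) = J (fc v d) := fun v d a1 a2 a3 => by
    have b := j5 v d a1 a2
    have : c (edge v d) = 0 := by
      by_contra b1
      have b2 := f1 _ b1
      have := (bt_edge (edge_mem_In.1 b2.1).1.1.1 a1 a2).1 b2.2
      tauto
    rw [this] at b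
    omega
  have jF : ∀ f ∈ F, J f = 0 := fun f hf => by
    obtain ⟨f0, b1, b2⟩ := hC f hf
    refine b2.ind (p := fun f => J f = 0) (j1 _ (by omega)) fun a d _ ha hb _ ih => ?_
    obtain ⟨v, d', c1, c2, -⟩ := face_step a d
    have := j6 v d' (c1 ▸ hFS _ ha) (c2 ▸ hFS _ hb) (by rw [c1, c2]; tauto)
    rw [c1, c2] at this
    omega
  have nF : ∀ f : V, n ≤ f.1 → f ∉ F := fun f hf b => by have := hF f b; omega
  have jR : ∀ f : V, n ≤ f.1 → St 0 H f → J f = J (n, 0) := by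
    have b1 : ∀ j, 0 ≤ j → j < H → J (n, j) = J (n, 0) := fun j hj => by
      induction j, hj using Int.leInduction with
      | base => exact fun _ => rfl
      | succ k hk ih =>
        intro b
        have := j6 (n, k + 1) 0 (by simp [St]; omega) (by simp [St]; omega)
          (iff_of_false (nF _ (by simp)) (nF _ (by simp)))
        simp only [a01, fc0, fc1, add_sub_cancel_right] at this
        rw [this, ih (by omega)]
    rintro ⟨i, j⟩ hi hj
    simp only at hi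
    induction i, hi using Int.leInduction with
    | base => exact b1 j hj.1 hj.2
    | succ k hk ih =>
      have := j6 (k + 1, j) 1 hj hj (iff_of_false (nF _ (by simp; omega)) (nF _ (by simpa)))
      simp only [a11, fc2, fc1, add_sub_cancel_right] at this
      rw [← this, ih hj]
  have ar : ∀ v, (¬ ∃ d, fc v d ∈ F) → ∀ d d', St 0 H (fc v d) → St 0 H (fc v d') →
      J (fc v d) = J (fc v d') := fun v hv d d' a1 a2 =>
    around (fun d b1 b2 => j6 v d b1 b2 (iff_of_false (fun b => hv ⟨_, b⟩) fun b => hv ⟨_, b⟩)) a1 a2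
  have yR := h.mem hx
  obtain ⟨dy, y1, y2⟩ := right_face hH yR.2.2.1 yR.2.2.2
  have key : ∃ d, St 0 H (fc w d) ∧ fc w d ∉ F ∧ J (fc w d) = J (n, 0) := by
    rcases hw' with rfl | ⟨d, b1, b2, b3, b4⟩
    · exact ⟨dy, y1, nF _ (by omega), jR _ (by omega) y1⟩
    · have b5 := b4.symm'.ind (p := fun v => ∀ d, St 0 H (fc v d) → J (fc v d) = J (n, 0))
        (fun d a1 => by
          rw [ar y (b4.mem ⟨b1, b2⟩).2 d dy a1 y1, jR _ (by omega) y1])
        fun a d _ ha hb _ ih d' a1 => by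
          obtain ⟨d1, d2, -, c1, c2⟩ := shared hH ha.1.2.2.1 ha.1.2.2.2 hb.1.2.2.1 hb.1.2.2.2
          rw [ar _ hb.2 d' d2 a1 (c1 ▸ c2), ← c1, ih d1 c2]
      obtain ⟨d1, d2, -, c1, c2⟩ := shared hH wR.2.2.1 wR.2.2.2 b1.2.2.1 b1.2.2.2
      exact ⟨d1, c2, fun b => b2 ⟨d2, c1 ▸ b⟩, by rw [c1]; exact b5 d2 (c1 ▸ c2)⟩
  obtain ⟨d, k1, k2, k3⟩ := key
  have wK : w ∈ K := ⟨wn, Conn.rfl'⟩
  have k4 := around (J := fun f => J f + ic F f) (fun d a1 a2 => by
    have b1 := j5 w d a1 a2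
    have b2 := sb_edge F w d
    rw [f2 w wK d a1 a2] at b1
    omega) k1 (hFS _ hw)
  simp only [ic, if_neg k2, if_pos hw, jF _ hw, k3] at k4
  have row : ∀ j, 0 ≤ j → j < H → ∃ k, (k, j) ∈ K ∧ (k, j + 1) ∈ K := fun j a1 a2 => by
    by_contra b
    have b1 : ∀ i, J (i, j) = 0 := ind_right 0 (fun i hi => j1 _ hi) fun i ih => by
      have b2 := j2 i j
      have : c ((i, j), false) = 0 := by
        by_contra b3
        exact b ⟨i, (f1 _ b3).1⟩
      omega
    have := jR (n, j) le_rfl ⟨a1, a2⟩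
    rw [b1] at this
    omega
  obtain ⟨k, p1, -⟩ := row 0 le_rfl hH
  obtain ⟨k', -, q1⟩ := row (H - 1) (by omega) (by omega)
  exact ⟨_, _, rfl, by simp, p1.2, q1.2⟩

end Pool.Agent.P.MP_6c8efb_pr
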