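import Mathlib

/-! Orbits of a map as lists; splitting and merging of loops. -/

namespace Pool.Agent.P.MP_6c8efb_pr

variable {D : Type*} {σ σ' : D → D} {p q r c s t : D} {l l' a b e : List D}

/-- `l` lists the iterates from `p` (included) to `q` (excluded) -/
def Wk (σ : D → D) : D → List D → D → Prop
  | p, [], q => p = q
  | p, x :: l, q => p = x ∧ Wk σ (σ x) l q

@[simp] theorem wk_nil : Wk σ p [] q ↔ p = q := Iff.rfl
@[simp] theorem wk_cons {x : D} : Wk σ p (x :: l) q ↔ p = x ∧ Wk σ (σ x) l q := Iff.rfl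

theorem wk_append : Wk σ p (l ++ l') r ↔ ∃ q, Wk σ p l q ∧ Wk σ q l' r := by
  induction l generalizing p with
  | nil => simp
  | cons x l ih => simp [ih, and_assoc]

theorem wk_mid : Wk σ p (l ++ s :: l') r ↔ Wk σ p l s ∧ Wk σ (σ s) l' r := by
  rw [wk_append]
  exact ⟨fun ⟨_, h1, h2, h3⟩ => ⟨h2 ▸ h1, h3⟩, fun ⟨h1, h2⟩ => ⟨_, h1, rfl, h2⟩⟩

theorem Wk.congr (h : Wk σ p l q) (hs : ∀ x ∈ l, σ' x = σ x) : Wk σ' p l q := by
  induction l generalizing p with
  | nil => exact h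
  | cons x l ih =>
    refine ⟨h.1, ?_⟩
    rw [hs x (by simp)]
    exact ih h.2 fun y hy => hs y (by simp [hy])

theorem Wk.det (h : Wk σ p l q) (h' : Wk σ p l' q) (hq : q ∉ l) (hq' : q ∉ l') : l = l' := by
  induction l generalizing p l' with
  | nil =>
    cases l' with
    | nil => rfl
    | cons y l' => exact absurd (by rw [← h, h'.1]; simp) hq'
  | cons x l ih =>
    cases l' with
    | nil => exact absurd (by rw [← h', h.1]; simp) hq
    | cons y l' =>
      obtain ⟨rfl, h⟩ := h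
      obtain ⟨rfl, h'⟩ := h'
      rw [ih h h' (fun b => hq (by simp [b])) fun b => hq' (by simp [b])]

theorem Wk.nodup (h : Wk σ p l q) (hq : q ∉ l) : l.Nodup := by
  induction l generalizing p with
  | nil => simp
  | cons x l ih =>
    have hq' : q ∉ l := fun b => hq (by simp [b])
    refine List.nodup_cons.2 ⟨fun hx => ?_, ih h.2 hq'⟩
    obtain ⟨a, b, rfl⟩ := List.append_of_mem hx
    have := congrArg List.length (h.2.det (wk_mid.1 h.2).2 hq' fun b => hq' (by simp [b]))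
    simp at this
    omega

theorem Wk.cut (h : Wk σ p l q) : ∃ l', Wk σ p l' q ∧ q ∉ l' := by
  induction l generalizing p with
  | nil => exact ⟨[], h, by simp⟩
  | cons x l ih =>
    by_cases b : p = q
    · exact ⟨[], b, by simp⟩
    · obtain ⟨l', h1, h2⟩ := ih h.2
      exact ⟨x :: l', ⟨h.1, h1⟩, by simp [h2, ← h.1, Ne.symm b]⟩

theorem Wk.ind {P : D → Prop} (h : Wk σ p l q) (h0 : P p) (hs : ∀ x ∈ l, P x → P (σ x)) :
    (∀ x ∈ l, P x) ∧ P q := by
  induction l generalizing p with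
  | nil => exact ⟨by simp, h ▸ h0⟩
  | cons x l ih =>
    obtain ⟨rfl, h⟩ := h
    have := ih h (hs p (by simp) h0) fun y hy => hs y (by simp [hy])
    exact ⟨by simpa [h0] using this.1, this.2⟩

theorem Wk.succ_mem (h : Wk σ p l q) {x : D} (hx : x ∈ l) : σ x ∈ l ∨ σ x = q := by
  obtain ⟨a, b, rfl⟩ := List.append_of_mem hx
  have := (wk_mid.1 h).2
  cases b with
  | nil => exact Or.inr this
  | cons y b => exact Or.inl (by simp [this.1])

theorem Wk.last (h : Wk σ p l q) (hl : l ≠ []) : ∃ x ∈ l, σ x = q := by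
  obtain ⟨a, x, rfl⟩ := (List.eq_nil_or_concat' l).resolve_left hl
  exact ⟨x, by simp, (wk_mid.1 h).2⟩

theorem wk_iterate (σ : D → D) (p : D) (k : ℕ) : ∃ l, Wk σ p l (σ^[k] p) := by
  induction k generalizing p with
  | zero => exact ⟨[], rfl⟩
  | succ k ih => obtain ⟨l, h⟩ := ih (σ p); exact ⟨p :: l, rfl, h⟩

theorem Wk.iterate (h : Wk σ p l q) : ∃ k, σ^[k] p = q := by
  induction l generalizing p with
  | nil => exact ⟨0, h⟩
  | cons x l ih => obtain ⟨k, hk⟩ := ih h.2; exact ⟨k + 1, by rw [h.1]; exact hk⟩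

/-- `l` is the loop through `c`, starting at `c` -/
def Lp (σ : D → D) (c : D) (l : List D) : Prop := l ≠ [] ∧ Wk σ c l c ∧ l.Nodup

theorem Lp.of (h : Wk σ (σ c) l c) (hc : c ∉ l) : Lp σ c (c :: l) :=
  ⟨by simp, ⟨rfl, h⟩, List.nodup_cons.2 ⟨hc, h.nodup hc⟩⟩

theorem Lp.eq_cons (h : Lp σ c l) : ∃ t, l = c :: t ∧ Wk σ (σ c) t c ∧ c ∉ t := by
  obtain ⟨h1, h2, h3⟩ := h
  cases l with
  | nil => exact absurd rfl h1
  | cons x l =>
    obtain ⟨rfl, h2⟩ := h2
    exact ⟨l, rfl, h2, (List.nodup_cons.1 h3).1⟩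

theorem Lp.mem (h : Lp σ c l) : c ∈ l := by
  obtain ⟨t, rfl, -⟩ := h.eq_cons; simp

theorem Lp.unique (h : Lp σ c l) (h' : Lp σ c l') : l = l' := by
  obtain ⟨t, rfl, h1, h2⟩ := h.eq_cons
  obtain ⟨t', rfl, h3, h4⟩ := h'.eq_cons
  rw [h1.det h3 h2 h4]

theorem Lp.congr (h : Lp σ c l) (hs : ∀ x ∈ l, σ' x = σ x) : Lp σ' c l :=
  ⟨h.1, h.2.1.congr hs, h.2.2⟩

theorem exists_lp (hσ : Function.Injective σ) {A : Set D} (hA : A.Finite)
    (h : ∀ k, σ^[k] c ∈ A) : ∃ l, Lp σ c l := by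
  obtain ⟨m, n, h1, h2⟩ := hA.exists_lt_map_eq_of_forall_mem h
  obtain ⟨k, rfl⟩ := Nat.exists_eq_add_of_lt h1
  rw [add_assoc, Function.iterate_add_apply] at h2
  have h3 := hσ.iterate m h2
  obtain ⟨l, hl⟩ := wk_iterate σ (σ c) k
  rw [← Function.iterate_succ_apply, ← h3] at hl
  obtain ⟨l', h4, h5⟩ := hl.cut
  exact ⟨_, Lp.of h4 h5⟩

theorem Lp.succ_mem (h : Lp σ c l) {x : D} (hx : x ∈ l) : σ x ∈ l :=
  (h.2.1.succ_mem hx).elim id fun b => b ▸ h.mem

theorem Lp.rotate (h : Lp σ c (a ++ s :: b)) : Lp σ s (s :: (b ++ a)) := by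
  obtain ⟨h1, h2⟩ := wk_mid.1 h.2.1
  refine ⟨by simp, ⟨rfl, wk_append.2 ⟨_, h2, h1⟩⟩, ?_⟩
  exact (List.perm_append_comm.nodup_iff).1 h.2.2

theorem Lp.pred_mem (hσ : Function.Injective σ) (h : Lp σ c l) {x : D} (hx : σ x ∈ l) : x ∈ l := by
  obtain ⟨a, b, rfl⟩ := List.append_of_mem hx
  obtain ⟨y, h1, h2⟩ := h.rotate.2.1.last (by simp)
  obtain rfl := hσ h2
  simp only [List.mem_cons, List.mem_append] at h1 ⊢
  tauto

theorem Lp.ind {P : D → Prop} (h : Lp σ c l) (h0 : P c) (hs : ∀ x ∈ l, P x → P (σ x)) :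
    ∀ x ∈ l, P x := (h.2.1.ind h0 hs).1

theorem Lp.not_mem (hσ : Function.Injective σ) (h : Lp σ c l) (h' : Lp σ t l') (ht : t ∉ l) :
    ∀ x ∈ l', x ∉ l := h'.ind (P := fun x => x ∉ l) ht fun _ _ h1 h2 => h1 (h.pred_mem hσ h2)

theorem Lp.split (h : Lp σ c (a ++ s :: (b ++ t :: e))) (h1 : σ' s = σ t) (h2 : σ' t = σ s)
    (h3 : ∀ x, x ≠ s → x ≠ t → σ' x = σ x) : Lp σ' c (a ++ s :: e) ∧ Lp σ' t (t :: b) := by
  obtain ⟨w1, w2⟩ := wk_mid.1 h.2.1
  obtain ⟨w2, w3⟩ := wk_mid.1 w2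
  have n := h.2.2
  simp only [List.nodup_append, List.nodup_cons, List.mem_cons, List.mem_append] at n
  refine ⟨⟨by simp, wk_mid.2 ⟨w1.congr fun x hx => h3 x ?_ ?_, h1 ▸ w3.congr fun x hx => h3 x ?_ ?_⟩,
    h.2.2.sublist ?_⟩, Lp.of (h2 ▸ w2.congr fun x hx => h3 x ?_ ?_) ?_⟩
  · exact n.2.2 x hx s (by simp)
  · exact n.2.2 x hx t (by simp)
  · rintro rfl; exact n.2.1.1 (by simp [hx])
  · rintro rfl; exact n.2.1.2.2.1.1 hx
  · exact (List.Sublist.refl a).append (List.Sublist.cons_cons s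
      ((List.sublist_cons_self t e).trans (List.sublist_append_right b _)))
  · rintro rfl; exact n.2.1.1 (by simp [hx])
  · exact n.2.1.2.2.2 x hx t (by simp)
  · exact fun hx => n.2.1.2.2.2 t hx t (by simp) rfl

theorem Lp.merge (hσ : Function.Injective σ) (h : Lp σ c (a ++ s :: e)) (h' : Lp σ t (t :: b))
    (ht : t ∉ a ++ s :: e) (h1 : σ' s = σ t) (h2 : σ' t = σ s)
    (h3 : ∀ x, x ≠ s → x ≠ t → σ' x = σ x) : Lp σ' c (a ++ s :: (b ++ t :: e)) := by
  obtain ⟨w1, w3⟩ := wk_mid.1 h.2.1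
  have w2 := h'.2.1.2
  have n := h.2.2
  have n' := h'.2.2
  have n2 := h.not_mem hσ h' ht
  refine ⟨by simp, wk_mid.2 ⟨w1.congr fun x hx => h3 x ?_ ?_, wk_mid.2
    ⟨h1 ▸ w2.congr fun x hx => h3 x ?_ ?_, h2 ▸ w3.congr fun x hx => h3 x ?_ ?_⟩⟩, ?_⟩
  · simp only [List.nodup_append] at n; exact n.2.2 x hx s (by simp)
  · rintro rfl; exact ht (by simp [hx])
  · rintro rfl; exact n2 x (by simp [hx]) (by simp)
  · rintro rfl; exact (List.nodup_cons.1 n').1 hx
  · rintro rfl; exact (List.nodup_cons.1 n.of_append_right).1 hx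
  · rintro rfl; exact ht (by simp [hx])
  · have : (a ++ s :: (b ++ t :: e)).Perm ((t :: b) ++ (a ++ s :: e)) := by
      classical
      rw [List.perm_iff_count]
      intro x
      simp [List.count_cons]
      omega
    rw [this.nodup_iff, List.nodup_append]
    exact ⟨n', n, fun x hx y hy b => n2 x hx (b ▸ hy)⟩

/-- weighted sum along a list, with the running total of `τ` -/
def gs (τ : D → ℤ) (φ : D → ℤ → ℤ) : List D → ℤ → ℤ
  | [], _ => 0
  | x :: l, w => φ x w + gs τ φ l (w + τ x)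

variable {τ τ' : D → ℤ} {φ φ' : D → ℤ → ℤ} {w : ℤ}

@[simp] theorem gs_nil : gs τ φ [] w = 0 := rfl
@[simp] theorem gs_cons {x : D} : gs τ φ (x :: l) w = φ x w + gs τ φ l (w + τ x) := rfl

theorem gs_append : gs τ φ (l ++ l') w = gs τ φ l w + gs τ φ l' (w + (l.map τ).sum) := by
  induction l generalizing w with
  | nil => simp
  | cons x l ih => simp [ih, add_assoc]

theorem gs_zero (h : ∀ x ∈ l, ∀ w, φ x w = 0) : gs τ φ l w = 0 := by
  induction l generalizing w with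
  | nil => rfl
  | cons x l ih => simp [h x (by simp), ih fun y hy => h y (by simp [hy])]

theorem gs_tele (g : ℤ → ℤ) : gs τ (fun x w => g (w + τ x) - g w) l w =
    g (w + (l.map τ).sum) - g w := by
  induction l generalizing w with
  | nil => simp
  | cons x l ih => simp [ih, add_assoc]

theorem gs_sum {κ : Type*} (S : Finset κ) (ψ : κ → D → ℤ → ℤ) :
    gs τ (fun x w => ∑ k ∈ S, ψ k x w) l w = ∑ k ∈ S, gs τ (ψ k) l w := by
  induction l generalizing w with
  | nil => simp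
  | cons x l ih => simp [ih, Finset.sum_add_distrib]

theorem gs_add : gs τ (fun x w => φ x w + φ' x w) l w = gs τ φ l w + gs τ φ' l w := by
  induction l generalizing w with
  | nil => simp
  | cons x l ih => simp [ih]; ring

theorem gs_eq {ψ : D → ℤ} (h : ∀ a x b, l = a ++ x :: b → φ x (w + (a.map τ).sum) = ψ x) :
    gs τ φ l w = (l.map ψ).sum := by
  induction l generalizing w with
  | nil => rfl
  | cons x l ih =>
    have h1 := h [] x l rfl
    rw [gs_cons, List.map_cons, List.sum_cons, ih fun a y b e => ?_]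
    · simpa using h1
    · simpa [add_assoc] using h (x :: a) y b (by simp [e])

end Pool.Agent.P.MP_6c8efb_pr
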