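import Pool.Agent.P.MP_6c8efb_pr.Lat

/-! Integer chains, their primitives on faces, and planar crossing lemmas. -/

namespace Pool.Agent.P.MP_6c8efb_pr

theorem ind_right {p : ℤ → Prop} (x0 : ℤ) (h0 : ∀ i, i < x0 → p i) (hs : ∀ i, p (i - 1) → p i)
    (i : ℤ) : p i := by
  rcases lt_or_ge i x0 with h | h
  · exact h0 i h
  · have : x0 - 1 ≤ i := by omega
    induction i, this using Int.leInduction with
    | base => exact h0 _ (by omega)
    | succ k hk ih =>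
      refine hs _ ?_
      rw [add_sub_cancel_right]
      rcases lt_or_ge k x0 with h' | h'
      · exact h0 _ h'
      · exact ih h'

theorem exists_prim (g : ℤ → ℤ) (x0 : ℤ) (h : ∀ k, k < x0 → g k = 0) :
    ∃ G : ℤ → ℤ, (∀ i, i < x0 → G i = 0) ∧ ∀ i, G i - G (i - 1) = g i := by
  refine ⟨fun i => ∑ k ∈ Finset.range (i - x0 + 1).toNat, g (x0 + k), fun i hi => ?_, fun i => ?_⟩
  · have : (i - x0 + 1).toNat = 0 := by omega
    simp [this]
  · rcases lt_or_ge i x0 with hi | hi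
    · have h1 : (i - x0 + 1).toNat = 0 := by omega
      have h2 : (i - 1 - x0 + 1).toNat = 0 := by omega
      simp [h1, h2, h i hi]
    · have h1 : (i - x0 + 1).toNat = (i - 1 - x0 + 1).toNat + 1 := by omega
      have h2 : x0 + ((i - 1 - x0 + 1).toNat : ℤ) = i := by omega
      simp only [h1, Finset.sum_range_succ, h2]
      ring

/-- boundary of a chain -/
def bd (c : E → ℤ) (x : V) : ℤ := c (edge x 0) + c (edge x 1) - c (edge x 2) - c (edge x 3)

/-- orientation sign -/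
def sg : Fin 4 → ℤ := ![1, 1, -1, -1]

@[simp] theorem sg0 : sg 0 = 1 := rfl
@[simp] theorem sg1 : sg 1 = 1 := rfl
@[simp] theorem sg2 : sg 2 = -1 := rfl
@[simp] theorem sg3 : sg 3 = -1 := rfl

theorem exists_chain {ω : Cfg} {S : Set V} {p q : V} (h : Conn ω S p q) :
    ∃ c : E → ℤ, (∀ e, c e ≠ 0 → ω e = true ∧ e ∈ In S) ∧
      ∀ x, bd c x = (if x = p then 1 else 0) - if x = q then 1 else 0 := by
  refine h.ind (p := fun q => ∃ c : E → ℤ, (∀ e, c e ≠ 0 → ω e = true ∧ e ∈ In S) ∧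
      ∀ x, bd c x = (if x = p then 1 else 0) - if x = q then 1 else 0)
    ⟨fun _ => 0, by simp, by simp [bd]⟩ ?_
  rintro a d - ha hb ho ⟨c, h1, h2⟩
  refine ⟨fun e => c e + if e = edge a d then sg d else 0, fun e he => ?_, fun x => ?_⟩
  · by_cases h : e = edge a d
    · rw [h]; exact ⟨ho, edge_mem_In.2 ⟨ha, hb⟩⟩
    · exact h1 e (by simpa [h] using he)
  · have h3 := h2 x
    have h4 : bd (fun e => if e = edge a d then sg d else 0) x =
        (if x = a then 1 else 0) - if x = a + u d then 1 else 0 := by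
      obtain ⟨x1, x2⟩ := x
      obtain ⟨a1, a2⟩ := a
      rcases cases4 d with rfl | rfl | rfl | rfl <;> simp [bd, Prod.ext_iff] <;>
        split_ifs <;> omega
    simp only [bd] at h3 h4 ⊢
    omega

theorem exists_J (c : E → ℤ) (x0 : ℤ) (hc : ∀ e, c e ≠ 0 → x0 ≤ e.1.1) :
    ∃ J : V → ℤ, (∀ f, f.1 < x0 → J f = 0) ∧ (∀ i j, J (i, j) - J (i - 1, j) = c ((i, j), false)) ∧
      (∀ j p, (∀ k, k ≠ p → bd c (k, j) = 0) → ∀ i, J (i, j) - J (i, j - 1) + c ((i, j), true) =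
        if p ≤ i then bd c (p, j) else 0) := by
  have hz : ∀ e : E, e.1.1 < x0 → c e = 0 := fun e he => by
    by_contra h; have := hc e h; omega
  choose G h1 h2 using fun j => exists_prim (fun k => c ((k, j), false)) x0 fun k hk => hz _ hk
  refine ⟨fun f => G f.2 f.1, fun f hf => h1 _ _ hf, fun i j => h2 j i, fun j p hp => ?_⟩
  refine ind_right (min x0 p) (fun i hi => ?_) fun i ih => ?_
  · have : ¬ p ≤ i := by omega
    simp [this, h1 _ i (by omega), hz ((i, j), true) (by simp; omega)]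
  · have h3 := h2 j i
    have h4 := h2 (j - 1) i
    have h5 := hp i
    simp only [bd, edge0, edge1, edge2, edge3] at h5 h3 h4 ih ⊢
    by_cases h6 : i = p
    · subst h6
      simp only [le_refl, if_true] at ih ⊢
      rw [if_neg (by omega)] at ih
      omega
    · have := h5 h6
      split_ifs at ih ⊢ <;> omega

theorem fc_succ (v : V) (d : Fin 4) : fc v (d + 1) = fc v d + u (d + 1) := by
  rcases cases4 d with rfl | rfl | rfl | rfl <;> simp [Prod.ext_iff, sub_eq_add_neg]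

theorem fc_step (v : V) (d : Fin 4) : fc (v + u d) (d - 1) = fc v d := by
  rcases cases4 d with rfl | rfl | rfl | rfl <;> simp only [s01, s11, s21, s31] <;>
    simp [Prod.ext_iff] <;> omega

theorem fc_step' (v : V) (d : Fin 4) : fc (v + u d) (d + 2) = fc v (d + 1) := by
  rcases cases4 d with rfl | rfl | rfl | rfl <;> simp [Prod.ext_iff, sub_eq_add_neg]

theorem face_step (f : V) (d : Fin 4) :
    ∃ v d', fc v d' = f ∧ fc v (d' + 1) = f + u d ∧ edge v d' = dl (edge f d) := by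
  rcases cases4 d with rfl | rfl | rfl | rfl
  · exact ⟨(f.1 + 1, f.2 + 1), 3, by simp [dl, Prod.ext_iff]⟩
  · exact ⟨(f.1, f.2 + 1), 0, by simp [dl, Prod.ext_iff]⟩
  · exact ⟨f, 1, by simp [dl, Prod.ext_iff, sub_eq_add_neg]⟩
  · exact ⟨(f.1 + 1, f.2), 2, by simp [dl, Prod.ext_iff, sub_eq_add_neg]⟩

/-- the horizontal strip of faces -/
def St (y0 y1 : ℤ) (f : V) : Prop := y0 ≤ f.2 ∧ f.2 < y1

theorem J_dart {c : E → ℤ} {J : V → ℤ} {y0 y1 : ℤ}
    (h2 : ∀ i j, J (i, j) - J (i - 1, j) = c ((i, j), false))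
    (h3 : ∀ i j, y0 < j → j < y1 → J (i, j) - J (i, j - 1) + c ((i, j), true) = 0)
    (v : V) (d : Fin 4) (h : St y0 y1 (fc v d)) (h' : St y0 y1 (fc v (d + 1))) :
    J (fc v (d + 1)) - J (fc v d) = -(sg d * c (edge v d)) := by
  obtain ⟨i, j⟩ := v
  rcases cases4 d with rfl | rfl | rfl | rfl <;> simp [St] at h h' ⊢
  · have := h3 i j (by omega) (by omega); omega
  · have := h2 i j; omega
  · have := h3 (i - 1) j (by omega) (by omega); omega
  · have := h2 i (j - 1); omega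

theorem around {J : V → ℤ} {y0 y1 : ℤ} {v : V}
    (h : ∀ d, St y0 y1 (fc v d) → St y0 y1 (fc v (d + 1)) → J (fc v (d + 1)) = J (fc v d))
    {d d' : Fin 4} (hd : St y0 y1 (fc v d)) (hd' : St y0 y1 (fc v d')) :
    J (fc v d) = J (fc v d') := by
  have h0 := h 0
  have h1 := h 1
  have h2 := h 2
  have h3 := h 3
  simp only [St, a01, a11, a21, a31, fc0, fc1, fc2, fc3] at h0 h1 h2 h3
  rcases cases4 d with rfl | rfl | rfl | rfl <;> rcases cases4 d' with rfl | rfl | rfl | rfl <;>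
    simp only [St, fc0, fc1, fc2, fc3] at hd hd' ⊢ <;> simp only [hd, hd', and_self, true_implies]
      at h0 h1 h2 h3 <;> omega

theorem shared {y0 y1 : ℤ} (hy : y0 < y1) {v : V} {d : Fin 4} (h1 : y0 ≤ v.2) (h2 : v.2 ≤ y1)
    (h3 : y0 ≤ (v + u d).2) (h4 : (v + u d).2 ≤ y1) :
    ∃ d1 d2, (d1 = d ∨ d1 = d + 1) ∧ fc v d1 = fc (v + u d) d2 ∧ St y0 y1 (fc v d1) := by
  by_cases h : St y0 y1 (fc v d)
  · exact ⟨d, d - 1, Or.inl rfl, (fc_step v d).symm, h⟩
  · refine ⟨d + 1, d + 2, Or.inr rfl, (fc_step' v d).symm, ?_⟩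
    rcases cases4 d with rfl | rfl | rfl | rfl <;> simp [St] at h h3 h4 ⊢ <;> omega

theorem left_face {y0 y1 : ℤ} (hy : y0 < y1) {v : V} (h1 : y0 ≤ v.2) (h2 : v.2 ≤ y1) :
    ∃ d, St y0 y1 (fc v d) ∧ (fc v d).1 = v.1 - 1 := by
  by_cases h : v.2 < y1
  · exact ⟨2, by simp [St]; omega⟩
  · exact ⟨3, by simp [St]; omega⟩

theorem right_face {y0 y1 : ℤ} (hy : y0 < y1) {v : V} (h1 : y0 ≤ v.2) (h2 : v.2 ≤ y1) :
    ∃ d, St y0 y1 (fc v d) ∧ (fc v d).1 = v.1 := by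
  by_cases h : v.2 < y1
  · exact ⟨1, by simp [St]; omega⟩
  · exact ⟨0, by simp [St]; omega⟩

theorem J_path {ω : Cfg} {A : Set V} {x0 x1 y0 y1 : ℤ} (hy : y0 < y1) (hA : A ⊆ Rc x0 x1 y0 y1)
    {p q : V} (h : Conn ω A p q) (hp : p ∈ A) (hp0 : p.2 = y0) (hq : q.2 = y1) :
    ∃ J : V → ℤ, (∀ f, f.1 < x0 → J f = 0) ∧ (∀ f, x1 ≤ f.1 → St y0 y1 f → J f = 1) ∧
      ∀ v d, St y0 y1 (fc v d) → St y0 y1 (fc v (d + 1)) →
        ¬ (ω (edge v d) = true ∧ edge v d ∈ In A) → J (fc v (d + 1)) = J (fc v d) := by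
  obtain ⟨c, h1, h2⟩ := exists_chain h
  have hz : ∀ e : E, ¬ (e.1 ∈ Rc x0 x1 y0 y1 ∧ hd e ∈ Rc x0 x1 y0 y1) → c e = 0 := fun e he => by
    by_contra h; exact he ⟨hA (h1 e h).2.1, hA (h1 e h).2.2⟩
  obtain ⟨J, j1, j2, j3⟩ := exists_J c x0 fun e he => (hA (h1 e he).2.1).1
  have j4 : ∀ i j, y0 < j → j < y1 → J (i, j) - J (i, j - 1) + c ((i, j), true) = 0 := by
    intro i j a1 a2
    have : ∀ k, bd c (k, j) = 0 := fun k => by
      rw [h2, if_neg, if_neg, sub_zero] <;> rintro rfl <;> simp at hp0 hq <;> omega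
    rw [j3 j 0 (fun k _ => this k), this, ite_self]
  refine ⟨J, j1, ?_, fun v d a1 a2 a3 => ?_⟩
  · rintro ⟨i, j⟩ hi ⟨b1, b2⟩
    simp only at hi b1 b2
    induction j, b1 using Int.leInduction with
    | base =>
      have e0 : ∀ i, J (i, y0 - 1) = 0 := ind_right x0 (fun i hi => j1 _ hi) fun i ih => by
        have := j2 i (y0 - 1)
        rw [hz _ (by simp [mem_Rc])] at this
        omega
      have e1 := j3 y0 p.1 (fun k hk => by
        rw [h2, if_neg, if_neg, sub_zero] <;> rintro rfl <;> simp at hk hq; omega) i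
      have e2 : ((p.1, y0) : V) = p := by rw [← hp0]
      rw [if_pos ((hA hp).2.1.trans hi), e2, h2, if_pos rfl, if_neg (by rintro rfl; omega), e0,
        hz _ (by simp [mem_Rc]; omega)] at e1
      omega
    | succ k hk ih =>
      have := j4 i (k + 1) (by omega) b2
      rw [hz _ (by simp [mem_Rc]; omega), add_sub_cancel_right, ih (by omega)] at this
      omega
  · have := J_dart j2 j4 v d a1 a2
    have e : c (edge v d) = 0 := by by_contra h; exact a3 (h1 _ h)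
    rw [e] at this
    omega

theorem cross0 {ω ω' : Cfg} {A B : Set V} {x0 x1 y0 y1 : ℤ} (hy : y0 < y1)
    (hA : A ⊆ Rc x0 x1 y0 y1) (hB : B ⊆ Rc x0 x1 y0 y1) {p p' q q' : V} (h : Conn ω A p p')
    (hp : p ∈ A) (hp0 : p.2 = y0) (hp1 : p'.2 = y1) (h' : Conn ω' B q q') (hq : q ∈ B)
    (hq0 : q.1 = x0) (hq1 : q'.1 = x1) : ∃ z, z ∈ A ∧ z ∈ B := by
  by_contra hn
  obtain ⟨J, j1, j2, j3⟩ := J_path hy hA h hp hp0 hp1
  have ar : ∀ v ∈ B, ∀ d d', St y0 y1 (fc v d) → St y0 y1 (fc v d') → J (fc v d) = J (fc v d') :=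
    fun v hv d d' a1 a2 => around (fun d b1 b2 => j3 v d b1 b2 fun b3 =>
      hn ⟨v, (edge_mem_In.1 b3.2).1, hv⟩) a1 a2
  have key := h'.ind (p := fun v => ∀ d, St y0 y1 (fc v d) → J (fc v d) = 0) (fun d a1 => by
      obtain ⟨d', b1, b2⟩ := left_face hy (hB hq).2.2.1 (hB hq).2.2.2
      rw [ar q hq d d' a1 b1, j1 _ (by omega)])
    fun a d _ ha hb _ ih d' a1 => by
      obtain ⟨d1, d2, -, b1, b2⟩ := shared hy (hB ha).2.2.1 (hB ha).2.2.2 (hB hb).2.2.1
        (hB hb).2.2.2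
      rw [ar _ hb d' d2 a1 (b1 ▸ b2), ← b1, ih d1 b2]
  have hq' := hB (h'.mem hq)
  obtain ⟨d', b1, b2⟩ := right_face hy hq'.2.2.1 hq'.2.2.2
  have := j2 _ (by omega) b1
  rw [key d' b1] at this
  omega

/-- a vertical crossing truncated at its first exit from a lower set meets every horizontal
crossing inside the lower set -/
theorem cross {ω : Cfg} {S : Set V} (hS : ∀ z, z + u 1 ∈ S → z ∈ S) {x0 x1 y0 y1 : ℤ}
    (hy : y0 < y1) {p p' q q' : V} (h : Conn ω (Rc x0 x1 y0 y1) p p') (hp : p ∈ Rc x0 x1 y0 y1)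
    (hpS : p ∈ S) (hp0 : p.2 = y0) (hp1 : p'.2 = y1) (h' : Conn ω (Rc x0 x1 y0 y1 ∩ S) q q')
    (hq : q ∈ Rc x0 x1 y0 y1 ∩ S) (hq0 : q.1 = x0) (hq1 : q'.1 = x1) :
    Conn ω (Rc x0 x1 y0 y1 ∩ S) p q := by
  set R := Rc x0 x1 y0 y1 with hR
  let A : Set V := Cl ω (R ∩ S) p ∪ (R \ S)
  have up : ∀ z ∈ R \ S, Conn (fun _ => true) A z (z.1, y1) := by
    rintro ⟨i, j⟩ hz
    have : ∀ k, j ≤ k → k ≤ y1 → (i, k) ∈ R \ S ∧ Conn (fun _ => true) A (i, j) (i, k) := by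
      intro k hk
      induction k, hk using Int.leInduction with
      | base => exact fun _ => ⟨hz, Conn.rfl'⟩
      | succ k hk ih =>
        intro b1
        obtain ⟨b2, b3⟩ := ih (by omega)
        have e : ((i, k + 1) : V) = (i, k) + u 1 := by simp
        have b4 : (i, k + 1) ∈ R \ S := ⟨by
          have := b2.1
          simp only [hR, mem_Rc] at this ⊢
          omega, fun b5 => b2.2 (hS _ (e ▸ b5))⟩
        refine ⟨b4, ?_⟩
        rw [e] at b4 ⊢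
        exact b3.snoc (Or.inr b2) (Or.inr b4) rfl
    exact (this y1 hz.1.2.2.2 le_rfl).2
  have key := h.ind (p := fun y => y ∈ Cl ω (R ∩ S) p ∨ ∃ z ∈ R \ S, Conn (fun _ => true) A p z)
    (Or.inl ⟨⟨hp, hpS⟩, Conn.rfl'⟩) fun a d _ ha hb ho ih => by
      rcases ih with ih | ih
      · by_cases b1 : a + u d ∈ S
        · exact Or.inl ⟨⟨hb, b1⟩, ih.2.snoc ih.1 ⟨hb, b1⟩ ho⟩
        · exact Or.inr ⟨a + u d, ⟨hb, b1⟩, (ih.2.cl.mono (T := A) Set.subset_union_left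
            fun _ _ _ => rfl).snoc (Or.inl ih) (Or.inr ⟨hb, b1⟩) rfl⟩
      · exact Or.inr ih
  have k2 : ∃ t, t.2 = y1 ∧ Conn (fun _ => true) A p t := by
    rcases key with k | ⟨z, hz, k⟩
    · exact ⟨p', hp1, k.2.cl.mono Set.subset_union_left fun _ _ _ => rfl⟩
    · exact ⟨_, rfl, k.trans' (up z hz)⟩
  obtain ⟨t, t1, t2⟩ := k2
  obtain ⟨z, z1, z2⟩ := cross0 (A := A) (B := Cl ω (R ∩ S) q) hy
    (by rintro z (hz | hz); exacts [hz.1.1, hz.1]) (fun z hz => hz.1.1) t2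
    (Or.inl ⟨⟨hp, hpS⟩, Conn.rfl'⟩) hp0 t1 h'.cl ⟨hq, Conn.rfl'⟩ hq0 hq1
  rcases z1 with z1 | z1
  · exact z1.2.trans' z2.2.symm'
  · exact absurd z2.1.2 z1.2

/-- a primal vertical crossing excludes a dual horizontal crossing -/
theorem excl {ω : Cfg} {a b : ℤ} (hb : 0 < b) (h : ω ∈ VC 0 a 0 b) :
    du ω ∉ HC (-1) a 0 (b - 1) := by
  obtain ⟨p, p', ⟨hp, hp0, hp1⟩, h⟩ := h
  rintro ⟨q, q', ⟨hq, hq0, hq1⟩, h'⟩
  obtain ⟨J, j1, j2, j3⟩ := J_path hb subset_rfl h hp hp0 hp1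
  have key := h'.ind (p := fun f => J f = 0) (j1 _ (by omega)) fun f d _ ha hb ho ih => by
    obtain ⟨v, d', b1, b2, b3⟩ := face_step f d
    have := j3 v d' (by rw [b1]; simp only [mem_Rc, St] at ha ⊢; omega)
      (by rw [b2]; simp only [mem_Rc, St] at hb ⊢; omega)
      (by rw [b3]; simp only [du, Bool.not_eq_eq_eq_not] at ho; simp [ho])
    rw [b1, b2] at this
    omega
  have hq' := h'.mem hq
  have := j2 q' (by omega) (by simp only [mem_Rc, St] at hq' ⊢; omega)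
  omega

end Pool.Agent.P.MP_6c8efb_pr
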