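import Mathlib

/-! Critical bond percolation on the square lattice: definitions used by the statements. -/

open MeasureTheory ProbabilityTheory

namespace Pool.Agent.P.MP_6c8efb_pr

/-- vertices of the square lattice -/
abbrev V := ℤ × ℤ

/-- edges: `(x, true)` joins `x` and `x + (1, 0)`; `(x, false)` joins `x` and `x + (0, 1)` -/
abbrev E := V × Bool

/-- bond configurations, `true` meaning open -/
abbrev Cfg := E → Bool

/-- the unit steps east, north, west, south, in counterclockwise order -/
def u : Fin 4 → V := ![(1, 0), (0, 1), (-1, 0), (0, -1)]

/-- the edge joining `x` and `x + u d` -/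
def edge (x : V) : Fin 4 → E :=
  ![(x, true), (x, false), (x - (1, 0), true), (x - (0, 1), false)]

/-- critical bond percolation: the edges are independently open with probability one half -/
noncomputable def crit : Measure Cfg :=
  Measure.infinitePi fun _ => bernoulliMeasure true false ⟨1 / 2, by norm_num, by norm_num⟩

/-- `x` and `y` are joined by a path of open edges with both end points in `S` -/
def Conn (ω : Cfg) (S : Set V) (x y : V) : Prop :=
  Relation.ReflTransGen (fun a b => a ∈ S ∧ b ∈ S ∧ ∃ d, b = a + u d ∧ ω (edge a d) = true) x y

/-- one-arm probability: the origin is joined inside `S` to a vertex of sup norm at least `n` -/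
noncomputable def arm (S : Set V) (n : ℕ) : ℝ :=
  crit.real {ω | ∃ y : V, (n : ℤ) ≤ max |y.1| |y.2| ∧ Conn ω S 0 y}

/-- the quarter plane -/
def quad : Set V := {z | 0 ≤ z.1 ∧ 0 ≤ z.2}

/-- the lattice half plane with outer normal `(a, b)` -/
def half (a b : ℝ) : Set V := {z | a * z.1 + b * z.2 ≤ 0}

/-- the boundary condition of the problem: in the upper half plane the horizontal edges on the
real axis are open to the left of the origin and closed to the right of it, edges below the
axis are absent -/
def bc (ω : Cfg) : Cfg := fun e =>
  if e.1.2 < 0 then false else if e.1.2 = 0 ∧ e.2 = true then decide (e.1.1 < 0) else ω e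

/-- one step of the exploration, which keeps the open cluster on its left: standing next to
`c.1` and facing the edge in direction `c.2`, follow that edge if it is open and otherwise
cross it, turning counterclockwise around `c.1` -/
def step (ω : Cfg) (c : V × Fin 4) : V × Fin 4 :=
  if ω (edge c.1 c.2) = true then (c.1 + u c.2, c.2 - 1) else (c.1, c.2 + 1)

/-- the exploration path, started at the origin facing east -/
def path (ω : Cfg) (k : ℕ) : V × Fin 4 := (step (bc ω))^[k] (0, 0)

/-- the probability that the exploration path passes at the boundary vertex `(n, 0)` -/
noncomputable def touch (n : ℕ) : ℝ := crit.real {ω | ∃ k, (path ω k).1 = ((n : ℤ), 0)}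

end Pool.Agent.P.MP_6c8efb_pr
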