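import Pool.Agent.P.MP_6c8efb_pr.Bdry

/-! Duality and the box crossing estimate. -/

namespace Pool.Agent.P.MP_6c8efb_pr

open Classical

theorem Conn.dep {ω ω' : Cfg} {S T : Set V} {x y : V} (h : Conn ω S x y) (hS : S ⊆ T)
    (hω : ∀ e ∈ In T, ω e = ω' e) : Conn ω' S x y :=
  h.mono subset_rfl fun e he h => hω e ⟨hS he.1, hS he.2⟩ ▸ h

theorem Conn.up {ω ω' : Cfg} {S : Set V} {x y : V} (h : Conn ω S x y) (hω : ω ≤ ω') :
    Conn ω' S x y :=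
  h.mono subset_rfl fun e _ h => by
    have := hω e
    rw [h] at this
    exact top_le_iff.1 this

/-- the dual cluster of the left side -/
def DC (a b : ℤ) (ω : Cfg) : Set V :=
  {f | ∃ f0, f0 ∈ Rc (-1) a 0 (b - 1) ∧ f0.1 = -1 ∧ Conn (du ω) (Rc (-1) a 0 (b - 1)) f0 f}

/-- admissible sets of faces -/
def Val (n H : ℤ) (F : Set V) : Prop :=
  (∀ f ∈ F, -1 ≤ f.1 ∧ f.1 < n ∧ 0 ≤ f.2 ∧ f.2 < H) ∧ (∀ j, 0 ≤ j → j < H → (-1, j) ∈ F) ∧
    ∀ f ∈ F, ∃ f0, f0.1 = -1 ∧ Conn (fun _ => true) F f0 f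

theorem val_DC {a b : ℤ} (ha : 0 ≤ a) {ω : Cfg} (h : du ω ∉ HC (-1) a 0 (b - 1)) :
    Val a b (DC a b ω) := by
  refine ⟨?_, fun j h1 h2 => ⟨(-1, j), by simp [mem_Rc]; omega, rfl, Conn.rfl'⟩, ?_⟩
  · rintro f ⟨f0, h1, h2, h3⟩
    have h4 := h3.mem h1
    have : f.1 ≠ a := fun h5 => h ⟨f0, f, ⟨h1, h2, h5⟩, h3⟩
    simp only [mem_Rc] at h4
    omega
  · rintro f ⟨f0, h1, h2, h3⟩
    exact ⟨f0, h2, h3.cl.mono (fun z hz => ⟨f0, h1, h2, hz.2⟩) fun _ _ _ => rfl⟩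

theorem ot_step (e : E) : ∃ d, ot e + u d = e.1 ∧ dl (edge (ot e) d) = e := by
  obtain ⟨⟨i, j⟩, b⟩ := e
  cases b
  · exact ⟨0, by simp [dl]⟩
  · exact ⟨1, by simp [dl]⟩

theorem bt_open {a b : ℤ} {ω : Cfg} (hv : Val a b (DC a b ω)) {e : E}
    (h : bt (DC a b ω) b e = true) : ω e = true := by
  have h1 := bt_mem hv.1 hv.2.1 h
  rw [bt_iff] at h
  have h2 : e.1 ∈ Rc (-1) a 0 (b - 1) ∧ ot e ∈ Rc (-1) a 0 (b - 1) := by
    obtain ⟨⟨i, j⟩, c⟩ := e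
    cases c <;> simp [In, mem_Rc] at h h1 ⊢ <;> omega
  obtain ⟨d, h3, h4⟩ := ot_step e
  by_contra h5
  have h6 : Conn (du ω) (Rc (-1) a 0 (b - 1)) (ot e) e.1 := by
    rw [← h3]
    exact Conn.one h2.2 (h3 ▸ h2.1) (by simpa [du, h4] using h5)
  have : e.1 ∈ DC a b ω ↔ ot e ∈ DC a b ω :=
    ⟨fun ⟨f0, b1, b2, b3⟩ => ⟨f0, b1, b2, b3.trans' h6.symm'⟩,
      fun ⟨f0, b1, b2, b3⟩ => ⟨f0, b1, b2, b3.trans' h6⟩⟩
  tauto

theorem line {ω : Cfg} {S : Set V} (x : V) (d : Fin 4) (n : ℕ)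
    (hS : ∀ k : ℕ, k ≤ n → x + k • u d ∈ S)
    (hω : ∀ k : ℕ, k < n → ω (edge (x + k • u d) d) = true) : Conn ω S x (x + n • u d) := by
  induction n with
  | zero => simpa using Conn.rfl'
  | succ n ih =>
    rw [succ_nsmul, ← add_assoc]
    refine (ih (fun k hk => hS k (by omega)) fun k hk => hω k (by omega)).snoc (hS n (by omega))
      ?_ (hω n (by omega))
    rw [add_assoc, ← succ_nsmul]
    exact hS _ le_rfl

theorem T1 {a b : ℤ} (ha : 0 ≤ a) (hb : 0 < b) {ω : Cfg} (h : du ω ∉ HC (-1) a 0 (b - 1)) :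
    ω ∈ VC 0 a 0 b := by
  have hv := val_DC ha h
  obtain ⟨w, h1, -, p, q, h2, h3, h4, h5⟩ := T2 le_rfl hb hv.1 hv.2.1 hv.2.2
    (line (ω := fun _ => true) (S := Rc 0 a 0 b) 0 0 a.toNat
      (fun k hk => by simp [mem_Rc]; omega) fun _ _ => rfl)
    (by simp [mem_Rc]; omega) rfl (by simp; omega)
  exact ⟨p, q, ⟨h4.mem h1, h2, h3⟩,
    (h4.symm'.trans' h5).mono subset_rfl fun e _ he => bt_open hv he⟩

theorem hc_half {n : ℤ} (hn : 0 ≤ n) : 1 / 2 ≤ hc n n := by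
  have h1 : Q {ω | du ω ∈ HC (-1) n 0 (n + 1 - 1)}ᶜ ≤ Q (VC 0 n 0 (n + 1)) :=
    Pr_mono fun ω h => T1 hn (by omega) h
  rw [Q, Pr_compl _ (loc_du (loc_HC ..)), ← Q, Q_du (loc_HC ..), Q_HC, Q_VC] at h1
  simp only [sub_neg_eq_add, add_sub_cancel_right, sub_zero] at h1
  have := hc_mono (w := n + 1) (h := n) hn (by omega) le_rfl
  linarith

theorem dl_mem_EF {F : Set V} {f : V} (h : f ∈ F) (d : Fin 4) : dl (edge f d) ∈ EF F := by
  rcases cases4 d with rfl | rfl | rfl | rfl <;> simp [EF, dl, h]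

theorem locF_DC (a b : ℤ) : LocF (DC a b) := by
  refine ⟨dl '' In (Rc (-1) a 0 (b - 1)), (In_finite (Rc_finite ..)).image _, fun ω ω' hω => ?_⟩
  have : ∀ e ∈ In (Rc (-1) a 0 (b - 1)), du ω e = du ω' e := fun e he => by
    simp only [du, hω _ ⟨e, he, rfl⟩]
  ext f
  exact ⟨fun ⟨f0, b1, b2, b3⟩ => ⟨f0, b1, b2, b3.dep subset_rfl this⟩,
    fun ⟨f0, b1, b2, b3⟩ => ⟨f0, b1, b2, b3.dep subset_rfl fun e he => (this e he).symm⟩⟩

theorem dep_DC (a b : ℤ) (F : Set V) : Dep {ω | DC a b ω = F} (EF F) := by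
  rintro ω ω' hω rfl
  have key : ∀ f ∈ DC a b ω, ∀ d, du ω (edge f d) = du ω' (edge f d) := fun f hf d => by
    simp only [du, hω _ (dl_mem_EF hf d)]
  ext f
  constructor
  · rintro ⟨f0, b1, b2, b3⟩
    exact b3.ind (p := fun f => f ∈ DC a b ω) ⟨f0, b1, b2, Conn.rfl'⟩
      fun c d _ h1 h2 h3 ih => by
        obtain ⟨g0, c1, c2, c3⟩ := id ih
        exact ⟨g0, c1, c2, c3.snoc h1 h2 (by rw [key c ih, h3])⟩
  · rintro ⟨f0, b1, b2, b3⟩
    exact ⟨f0, b1, b2, b3.ind (p := fun f => Conn (du ω') _ f0 f) Conn.rfl'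
      fun c d h0 h1 h2 h3 ih => ih.snoc h1 h2 (by rw [← key c ⟨f0, b1, b2, h0⟩, h3])⟩

/-- a set of faces together with its reflection -/
def db (n : ℤ) (F : Set V) : Set V := {f | f ∈ F ∨ (f.1, 2 * n - 1 - f.2) ∈ F}

theorem val_db {n : ℤ} {F : Set V} (h : Val n n F) : Val n (2 * n) (db n F) := by
  refine ⟨?_, fun j h1 h2 => ?_, ?_⟩
  · rintro ⟨i, j⟩ (hf | hf) <;> have := h.1 _ hf <;> simp only at this ⊢ <;> omega
  · by_cases h3 : j < n
    · exact Or.inl (h.2.1 j h1 h3)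
    · exact Or.inr (h.2.1 _ (by omega) (by omega))
  · rintro f (hf | hf)
    · obtain ⟨f0, b1, b2⟩ := h.2.2 f hf
      exact ⟨f0, b1, b2.mono_set fun z hz => Or.inl hz⟩
    · obtain ⟨f0, b1, b2⟩ := h.2.2 _ hf
      have := Conn.map (syY (2 * n - 1)) (ω := fun _ => true) (T := db n F) b2
        fun z hz => Or.inr (by simpa [syY] using hz)
      exact ⟨(f0.1, 2 * n - 1 - f0.2), b1, by simpa [syY] using this⟩

theorem bt_low {n : ℤ} {F : Set V} (h : Val n n F) {e : E} (he : bt (db n F) (2 * n) e = true)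
    (h1 : (hd e).2 ≤ n) : bt F n e = true := by
  have k : ∀ i j, n ≤ j → (i, j) ∉ F := fun i j hj b => by have := h.1 _ b; simp only at this; omega
  rw [bt_iff] at he ⊢
  obtain ⟨⟨i, j⟩, b⟩ := e
  cases b <;> simp only [db, Set.mem_ofPred_eq, ot_true, ot_false, hd_true, hd_false] at he h1 ⊢
  · have b1 := k i (2 * n - 1 - j) (by omega)
    have b2 := k (i - 1) (2 * n - 1 - j) (by omega)
    tauto
  · have b0 : j ≠ n := by
      rintro rfl
      have b1 := k i j le_rfl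
      have e1 : 2 * j - 1 - j = j - 1 := by omega
      have e2 : 2 * j - 1 - (j - 1) = j := by omega
      rw [e1, e2] at he
      tauto
    have b1 := k i (2 * n - 1 - j) (by omega)
    have b2 := k i (2 * n - 1 - (j - 1)) (by omega)
    refine ⟨by tauto, he.2.1, fun _ => ?_⟩
    have := he.2.2 trivial
    omega

theorem bt_refl {n : ℤ} {F : Set V} {e : E} (he : bt (db n F) (2 * n) e = true) :
    bt (db n F) (2 * n) ((syY (2 * n)).e e) = true := by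
  rw [bt_iff] at he ⊢
  obtain ⟨⟨i, j⟩, b⟩ := e
  cases b <;> simp only [db, syY, Set.mem_ofPred_eq, ot_true, ot_false, hd_true, hd_false,
    Bool.false_eq_true, if_false, if_true] at he ⊢
  · have e1 : 2 * n - 1 - (2 * n - 1 - j) = j := by omega
    rw [e1]
    tauto
  · have e1 : 2 * n - 1 - (2 * n - j) = j - 1 := by omega
    have e2 : 2 * n - 1 - (2 * n - j - 1) = j := by omega
    have e3 : 2 * n - j - 1 = 2 * n - 1 - j := by omega
    have e4 : 2 * n - 1 - (j - 1) = 2 * n - j := by omega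
    rw [e1, e2, e3]
    rw [e4] at he
    refine ⟨by tauto, he.2.1, fun _ => ?_⟩
    have := he.2.2 trivial
    omega

theorem EF_refl {n : ℤ} {F : Set V} {e : E} (he : (syY (2 * n)).e e ∈ EF (db n F)) :
    e ∈ EF (db n F) := by
  obtain ⟨⟨i, j⟩, b⟩ := e
  cases b <;> simp only [EF, db, syY, Set.mem_ofPred_eq, ot_true, ot_false,
    Bool.false_eq_true, if_false, if_true] at he ⊢
  · have e1 : 2 * n - 1 - (2 * n - 1 - j) = j := by omega
    rw [e1] at he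
    tauto
  · have e1 : 2 * n - 1 - (2 * n - j) = j - 1 := by omega
    have e2 : 2 * n - 1 - (2 * n - j - 1) = j := by omega
    have e3 : 2 * n - j - 1 = 2 * n - 1 - j := by omega
    have e4 : 2 * n - 1 - (j - 1) = 2 * n - j := by omega
    rw [e1, e2, e3] at he
    rw [e4]
    tauto

theorem hd_edge_le {a : V} {d : Fin 4} {n : ℤ} (h1 : a.2 ≤ n) (h2 : (a + u d).2 ≤ n) :
    (hd (edge a d)).2 ≤ n := by
  rcases cases4 d with rfl | rfl | rfl | rfl <;> simp at h2 ⊢ <;> omega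

/-- folding -/
def fo (n : ℤ) (z : V) : V := (z.1, min z.2 (2 * n - z.2))

theorem fold {n : ℤ} {F : Set V} (h : Val n n F) {a b : V}
    (hc : Conn (bt (db n F) (2 * n)) (Rc 0 n 0 (2 * n)) a b) :
    Conn (bt F n) (Rc 0 n 0 n) (fo n a) (fo n b) := by
  refine hc.ind (p := fun b => Conn (bt F n) (Rc 0 n 0 n) (fo n a) (fo n b)) Conn.rfl'
    fun z d _ h1 h2 h3 ih => ?_
  have m : ∀ z ∈ Rc 0 n 0 (2 * n), fo n z ∈ Rc 0 n 0 n := fun z hz => by
    simp only [mem_Rc, fo] at hz ⊢; omega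
  have l := abs_le.1 (lip_snd z d)
  by_cases b : z.2 ≤ n ∧ (z + u d).2 ≤ n
  · have e : ∀ z : V, z.2 ≤ n → fo n z = z := fun z hz => Prod.ext rfl (by simp [fo]; omega)
    have m1 := m _ h1
    have m2 := m _ h2
    rw [e _ b.1] at ih m1
    rw [e _ b.2] at m2 ⊢
    exact ih.snoc m1 m2 (bt_low h h3 (hd_edge_le b.1 b.2))
  · have e : ∀ z : V, n ≤ z.2 → fo n z = (syY (2 * n)).v z := fun z hz =>
      Prod.ext rfl (by simp [fo, syY]; omega)
    obtain ⟨d', c1, c2⟩ := (syY (2 * n)).ok z d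
    have m1 := m _ h1
    have m2 := m _ h2
    rw [e z (by omega)] at ih m1
    rw [e (z + u d) (by omega), c1] at m2 ⊢
    refine ih.snoc m1 m2 (bt_low h (c2 ▸ bt_refl h3) (hd_edge_le m1.2.2.2 m2.2.2.2))

/-- the vertex lies on a vertical crossing made of boundary edges -/
def Good (ω : Cfg) (n : ℤ) (w : V) : Prop :=
  w ∈ Rc 0 n 0 n ∧ ∃ p q : V, p.2 = 0 ∧ q.2 = n ∧ Conn ω (Rc 0 n 0 n) w p ∧ Conn ω (Rc 0 n 0 n) w q

/-- the event of Bollobas and Riordan -/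
def XE (n : ℤ) (R : Set V) (m : ℤ) : Set Cfg := {ω | ∃ w y, Good ω n w ∧ y.1 = m ∧ Conn ω R w y}

theorem loc_XE {n m : ℤ} {R : Set V} (hR : R.Finite) : Loc (XE n R m) := by
  refine ⟨In (Rc 0 n 0 n ∪ R), In_finite ((Rc_finite ..).union hR), ?_⟩
  rintro ω ω' hω ⟨w, y, ⟨h1, p, q, h2, h3, h4, h5⟩, h6, h7⟩
  exact ⟨w, y, ⟨h1, p, q, h2, h3, h4.dep Set.subset_union_left hω,
    h5.dep Set.subset_union_left hω⟩, h6, h7.dep Set.subset_union_right hω⟩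

theorem up_XE {n m : ℤ} {R : Set V} : IsUpperSet (XE n R m) := by
  rintro ω ω' hω ⟨w, y, ⟨h1, p, q, h2, h3, h4, h5⟩, h6, h7⟩
  exact ⟨w, y, ⟨h1, p, q, h2, h3, h4.up hω, h5.up hω⟩, h6, h7.up hω⟩

theorem Q_XE {n m : ℤ} (hn : 0 < n) (hm : n ≤ m) :
    hc m (2 * n) / 4 ≤ Q (XE n (Rc 0 m 0 (2 * n)) m) := by
  let Y : (V → V) → Set V → Set Cfg := fun φ F =>
    {ω | ∃ w y, (Good (bt F n) n (φ w) ∧ y.1 = m) ∧ Conn (cut (db n F) ω) (Rc 0 m 0 (2 * n)) w y}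
  have locY : ∀ φ F, Loc (Y φ F) := fun φ F => ⟨In (Rc 0 m 0 (2 * n)), In_finite (Rc_finite ..), by
    rintro ω ω' hω ⟨w, y, h1, h2⟩
    exact ⟨w, y, h1, h2.dep subset_rfl fun e he => by simp only [cut, hω e he]⟩⟩
  have depY : ∀ φ F, Dep (Y φ F) (EF (db n F))ᶜ := fun φ F ω ω' hω h => by
    have : cut (db n F) ω = cut (db n F) ω' := funext fun e => by
      unfold cut; split_ifs with b
      exacts [rfl, hω e b]
    simpa only [Y, Set.mem_ofPred_eq, ← this] using h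
  have hY : ∀ F, Val n n F → hc m (2 * n) / 2 ≤ Q (Y id F) := fun F hF => by
    have h1 : Q (HC 0 m 0 (2 * n)) ≤ Q (Y id F ∪ Y (syY (2 * n)).v F) := by
      refine Pr_mono ?_
      rintro ω ⟨x, y, ⟨b1, b2, b3⟩, b4⟩
      have hv := val_db hF
      obtain ⟨w, c1, c2, p, q, c3, c4, c5, c6⟩ := T2 hm (by omega) hv.1 hv.2.1 hv.2.2 b4 b1 b2 b3
      obtain ⟨z, c7, c8⟩ := (c5.symm'.trans' c6).hit (f := fun z => z.2)
        (fun a d => by have := abs_le.1 (lip_snd a d); omega) (b := n) (by omega) (by omega)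
      have g : Good (bt F n) n (fo n w) := ⟨by simp only [mem_Rc, fo] at c1 ⊢; omega, fo n p,
        fo n z, by simp only [fo]; omega, by simp only [fo]; omega, fold hF c5,
        fold hF (c5.trans' (c8.mono_set Set.inter_subset_left))⟩
      by_cases b : w.2 ≤ n
      · exact Or.inl ⟨w, y, ⟨by
          rwa [show fo n w = id w from Prod.ext rfl (by simp [fo]; omega)] at g, b3⟩, c2⟩
      · exact Or.inr ⟨w, y, ⟨by
          rwa [show fo n w = (syY (2 * n)).v w from Prod.ext rfl (by simp [fo, syY]; omega)] at g,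
          b3⟩, c2⟩
    have h2 : Q (Y (syY (2 * n)).v F) ≤ Q (Y id F) := by
      refine Q_le_map (syY (2 * n)).inj (locY _ _) ?_
      rintro ω ⟨w, y, ⟨b1, b2⟩, b3⟩
      refine ⟨_, (syY (2 * n)).v y, ⟨b1, b2⟩, Conn.map (syY (2 * n)) (b3.mono subset_rfl ?_) ?_⟩
      · intro e _ he
        unfold cut at he ⊢
        split_ifs at he with c1
        rwa [if_neg fun c2 => c1 (EF_refl c2)]
      · intro z hz
        simp only [mem_Rc, syY] at hz ⊢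
        omega
    have h3 := Pr_union_le (fun _ => hf) (Y id F) (Y (syY (2 * n)).v F)
    rw [Q_HC] at h1
    simp only [sub_zero, Q] at h1 h2 ⊢
    linarith
  have h1 := Pr_cond_ge (fun _ => hf) (locF_DC n n) {F | Val n n F} (A := Y id)
    (fun F _ => locY _ F) (fun F _ => dep_DC n n F) (fun F _ => depY _ F)
    (fun F _ => Set.disjoint_left.2 fun e b1 b2 =>
      b2 (b1.elim (fun b => Or.inl (Or.inl b)) fun b => Or.inr (Or.inl b))) hY
  have h2 : Q (VC 0 n 0 n) ≤ Q {ω | DC n n ω ∈ {F | Val n n F}} :=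
    Pr_mono fun ω h => val_DC hn.le (excl hn h)
  have h3 : Q {ω | DC n n ω ∈ {F | Val n n F} ∧ ω ∈ Y id (DC n n ω)} ≤
      Q (XE n (Rc 0 m 0 (2 * n)) m) := by
    refine Pr_mono ?_
    rintro ω ⟨hv, w, y, ⟨⟨b1, p, q, b2, b3, b4, b5⟩, b6⟩, b7⟩
    refine ⟨w, y, ⟨b1, p, q, b2, b3, b4.mono subset_rfl fun e _ he => bt_open hv he,
      b5.mono subset_rfl fun e _ he => bt_open hv he⟩, b6, b7.mono subset_rfl fun e _ he => ?_⟩
    unfold cut at he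
    split_ifs at he
    exact he
  rw [Q_VC] at h2
  have h4 := hc_half hn.le
  have h5 : 0 ≤ hc m (2 * n) := Pr_nonneg _ _
  simp only [sub_zero, Q] at h2 h3 ⊢
  nlinarith

theorem harris3 {A B C : Set Cfg} (lA : Loc A) (lB : Loc B) (lC : Loc C) (uA : IsUpperSet A)
    (uB : IsUpperSet B) (uC : IsUpperSet C) : Q A * Q B * Q C ≤ Q (A ∩ B ∩ C) :=
  (mul_le_mul_of_nonneg_right (harris_upper _ lA lB uA uB) (Pr_nonneg _ _)).trans
    (harris_upper _ (lA.inter lB) lC (uA.inter uB) uC)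

theorem cross' {ω : Cfg} {x0 x1 y0 y1 : ℤ} (hy : y0 < y1) {p p' q q' : V}
    (h : Conn ω (Rc x0 x1 y0 y1) p p') (hp : p ∈ Rc x0 x1 y0 y1) (hp0 : p.2 = y0)
    (hp1 : p'.2 = y1) (h' : Conn ω (Rc x0 x1 y0 y1) q q') (hq : q ∈ Rc x0 x1 y0 y1)
    (hq0 : q.1 = x0) (hq1 : q'.1 = x1) : Conn ω (Rc x0 x1 y0 y1) p q := by
  have := cross (S := Set.univ) (fun _ _ => trivial) hy h hp trivial hp0 hp1
    (by rwa [Set.inter_univ]) ⟨hq, trivial⟩ hq0 hq1
  rwa [Set.inter_univ] at this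

theorem hc_three {n : ℤ} (hn : 0 < n) : 1 / 128 ≤ hc (3 * n) (2 * n) := by
  have h1 := Q_XE hn (m := 2 * n) (by omega)
  have h2 : Q (XE n (Rc 0 (2 * n) 0 (2 * n)) (2 * n)) ≤ Q (XE n (Rc (-n) n 0 (2 * n)) (-n)) := by
    refine Q_le_map (syX n).inj (loc_XE (Rc_finite ..)) ?_
    rintro ω ⟨w, y, ⟨b1, p, q, b2, b3, b4, b5⟩, b6, b7⟩
    have m : ∀ z ∈ Rc 0 n 0 n, (syX n).v z ∈ Rc 0 n 0 n := fun z hz => by
      simp only [mem_Rc, syX] at hz ⊢; omega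
    refine ⟨_, _, ⟨m _ b1, (syX n).v p, (syX n).v q, b2, b3, b4.map (syX n) m, b5.map (syX n) m⟩, ?_,
      b7.map (syX n) fun z hz => ?_⟩
    · simp only [syX]; omega
    · simp only [mem_Rc, syX] at hz ⊢; omega
  have h3 := harris3 (loc_XE (n := n) (m := 2 * n) (Rc_finite 0 (2 * n) 0 (2 * n)))
    (loc_XE (n := n) (m := -n) (Rc_finite (-n) n 0 (2 * n))) (loc_HC 0 n 0 n) up_XE up_XE
    (up_HC ..)
  have h4 : Q (XE n (Rc 0 (2 * n) 0 (2 * n)) (2 * n) ∩ XE n (Rc (-n) n 0 (2 * n)) (-n) ∩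
      HC 0 n 0 n) ≤ Q (HC (-n) (2 * n) 0 (2 * n)) := by
    refine Pr_mono ?_
    rintro ω ⟨⟨⟨w, y, ⟨b1, p, q, b2, b3, b4, b5⟩, b6, b7⟩, w', y', ⟨c1, p', q', c2, c3, c4, c5⟩,
      c6, c7⟩, x, x', ⟨d1, d2, d3⟩, d4⟩
    have e1 := cross' hn (b4.symm'.trans' b5) (b4.mem b1) b2 b3 d4 d1 d2 d3
    have e2 := cross' hn (c4.symm'.trans' c5) (c4.mem c1) c2 c3 d4 d1 d2 d3
    have s1 : Rc 0 n 0 n ⊆ Rc (-n) (2 * n) 0 (2 * n) := fun z hz => by
      simp only [mem_Rc] at hz ⊢; omega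
    have s2 : Rc (-n) n 0 (2 * n) ⊆ Rc (-n) (2 * n) 0 (2 * n) := fun z hz => by
      simp only [mem_Rc] at hz ⊢; omega
    have s3 : Rc 0 (2 * n) 0 (2 * n) ⊆ Rc (-n) (2 * n) 0 (2 * n) := fun z hz => by
      simp only [mem_Rc] at hz ⊢; omega
    exact ⟨y', y, ⟨(c7.mono_set s2).mem (s1 c1), c6, b6⟩, (c7.symm'.mono_set s2).trans'
      ((((c4.trans' e2).trans' (e1.symm'.trans' b4.symm')).mono_set s1).trans' (b7.mono_set s3))⟩
  rw [Q_HC] at h3 h4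
  have h5 := hc_half hn.le
  have h6 := hc_half (n := 2 * n) (by omega)
  rw [show 2 * n - -n = 3 * n by ring] at h4
  simp only [sub_zero] at h3 h4
  have h7 : 1 / 8 ≤ Q (XE n (Rc 0 (2 * n) 0 (2 * n)) (2 * n)) := by linarith
  have h8 := mul_le_mul (mul_le_mul h7 (h7.trans h2) (by norm_num) (by linarith)) h5 (by norm_num)
    (mul_nonneg (Pr_nonneg _ _) (Pr_nonneg _ _))
  linarith

theorem hc_ext {w1 w2 h : ℤ} (hh : 0 < h) (h1 : h ≤ w1) (h2 : h ≤ w2) :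
    hc w1 h * hc w2 h * hc h h ≤ hc (w1 + w2 - h) h := by
  have h3 := harris3 (loc_HC 0 w1 0 h) (loc_HC (w1 - h) (w1 + w2 - h) 0 h) (loc_VC (w1 - h) w1 0 h)
    (up_HC ..) (up_HC ..) (up_VC ..)
  rw [Q_HC, Q_HC, Q_VC, show w1 + w2 - h - (w1 - h) = w2 by ring, show w1 - (w1 - h) = h by ring]
    at h3
  simp only [sub_zero] at h3
  refine h3.trans (Pr_mono ?_)
  rintro ω ⟨⟨⟨x, y, ⟨b1, b2, b3⟩, b4⟩, x', y', ⟨c1, c2, c3⟩, c4⟩, p, q, ⟨d1, d2, d3⟩, d4⟩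
  obtain ⟨a, a', e1, e2, e3, e4⟩ := b4.strip lip_fst (a := w1 - h) (b := w1) (by omega) (by omega)
    (by omega)
  obtain ⟨b, b', f1, f2, f3, f4⟩ := c4.strip lip_fst (a := w1 - h) (b := w1) (by omega) (by omega)
    (by omega)
  have ma := e3.mem b1
  have mb := f3.mem c1
  have g1 := cross' hh d4 d1 d2 d3 (e4.mono_set fun z hz => by
    simp only [mem_Rc, Set.mem_inter_iff, Set.mem_ofPred_eq] at hz ⊢; omega)
    (by simp only [mem_Rc] at ma ⊢; omega) e1 e2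
  have g2 := cross' hh d4 d1 d2 d3 (f4.mono_set fun z hz => by
    simp only [mem_Rc, Set.mem_inter_iff, Set.mem_ofPred_eq] at hz ⊢; omega)
    (by simp only [mem_Rc] at mb ⊢; omega) f1 f2
  have s1 : Rc 0 w1 0 h ⊆ Rc 0 (w1 + w2 - h) 0 h := fun z hz => by
    simp only [mem_Rc] at hz ⊢; omega
  have s2 : Rc (w1 - h) w1 0 h ⊆ Rc 0 (w1 + w2 - h) 0 h := fun z hz => by
    simp only [mem_Rc] at hz ⊢; omega
  have s3 : Rc (w1 - h) (w1 + w2 - h) 0 h ⊆ Rc 0 (w1 + w2 - h) 0 h := fun z hz => by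
    simp only [mem_Rc] at hz ⊢; omega
  exact ⟨x, y', ⟨s1 b1, b2, c3⟩, (e3.mono_set s1).trans' (((g1.symm'.trans' g2).mono_set s2).trans'
    ((f3.symm'.trans' c4).mono_set s3))⟩

theorem rsw (k : ℕ) : ∃ c : ℝ, 0 < c ∧ ∀ n : ℤ, 0 < n → c ≤ hc ((k + 2) * n) (2 * n) := by
  induction k with
  | zero => exact ⟨1 / 2, by norm_num, fun n hn => by simpa using hc_half (n := 2 * n) (by omega)⟩
  | succ k ih =>
    obtain ⟨c, h1, h2⟩ := ih
    refine ⟨c * (1 / 128) * (1 / 2), by positivity, fun n hn => ?_⟩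
    have h3 := hc_ext (w1 := (k + 2) * n) (w2 := 3 * n) (h := 2 * n) (by omega) (by nlinarith)
      (by omega)
    rw [show ((k : ℤ) + 2) * n + 3 * n - 2 * n = ((k + 1 : ℕ) + 2) * n by push_cast; ring] at h3
    refine le_trans (mul_le_mul (mul_le_mul (h2 n hn) (hc_three hn) (by norm_num) (Pr_nonneg _ _))
      (hc_half (by omega)) (by norm_num) (mul_nonneg (Pr_nonneg _ _) (Pr_nonneg _ _))) h3

end Pool.Agent.P.MP_6c8efb_pr
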