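import Pool.Agent.P.MP_6c8efb_pr.Ident
import Pool.Agent.P.MP_6c8efb_pr.RSW

/-! One-arm events and gluing. -/

namespace Pool.Agent.P.MP_6c8efb_pr

open Classical

/-- sup distance -/
def nm (x y : V) : ℤ := max |y.1 - x.1| |y.2 - x.2|

theorem nm_lip (x a : V) (d : Fin 4) : nm x (a + u d) ≤ nm x a + 1 := by
  have h1 := lip_fst a d
  have h2 := lip_snd a d
  simp only [nm, abs_eq_max_neg] at *
  omega

/-- the one-arm event -/
def AG (x : V) (S : Set V) (n : ℤ) : Set Cfg := {ω | ∃ y, n ≤ nm x y ∧ Conn ω S x y}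

theorem AG_eq (x : V) (S : Set V) {n : ℤ} (hn : 0 ≤ n) : AG x S n =
    {ω | ∃ x' y, (x' = x ∧ n ≤ nm x y) ∧ Conn ω (S ∩ {z | nm x z ≤ n}) x' y} := by
  ext ω
  constructor
  · rintro ⟨y, h1, h2⟩
    obtain ⟨y', h3, h4⟩ := h2.hit (nm_lip x) (by simpa [nm] using hn) h1
    exact ⟨x, y', ⟨rfl, h3.ge⟩, h4⟩
  · rintro ⟨_, y, ⟨rfl, h1⟩, h2⟩
    exact ⟨y, h1, h2.mono_set Set.inter_subset_left⟩

theorem ball_finite (x : V) (S : Set V) (n : ℤ) : (S ∩ {z | nm x z ≤ n}).Finite :=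
  (Rc_finite (x.1 - n) (x.1 + n) (x.2 - n) (x.2 + n)).subset fun z hz => by
    have := hz.2
    simp only [nm, abs_eq_max_neg, mem_Rc, Set.mem_ofPred_eq] at this ⊢
    omega

theorem dep_AG (x : V) (S : Set V) {n : ℤ} (hn : 0 ≤ n) :
    Dep (AG x S n) (In (S ∩ {z | nm x z ≤ n})) := AG_eq x S hn ▸ dep_conn _ _

theorem loc_AG (x : V) (S : Set V) {n : ℤ} (hn : 0 ≤ n) : Loc (AG x S n) :=
  (dep_AG x S hn).loc (In_finite (ball_finite ..))

theorem up_AG (x : V) (S : Set V) (n : ℤ) : IsUpperSet (AG x S n) :=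
  fun _ _ h ⟨y, h1, h2⟩ => ⟨y, h1, h2.up h⟩

theorem Q_AG_le (s : Sy) {x x' : V} {S T : Set V} {n : ℤ} (hn : 0 ≤ n) (hx : s.v x = x')
    (h1 : ∀ y, nm x' (s.v y) = nm x y) (h2 : ∀ z ∈ S, s.v z ∈ T) :
    Q (AG x S n) ≤ Q (AG x' T n) :=
  Q_le_map s.inj (loc_AG x S hn) fun _ ⟨y, b1, b2⟩ => ⟨s.v y, h1 y ▸ b1, hx ▸ b2.map s h2⟩

theorem arm_eq (S : Set V) (n : ℕ) : arm S n = Q (AG 0 S n) := by
  simp [arm, AG, nm, crit_real]

theorem AG_anti {x : V} {S : Set V} {n n' : ℤ} (h : n ≤ n') : Q (AG x S n') ≤ Q (AG x S n) :=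
  Pr_mono fun _ ⟨y, h1, h2⟩ => ⟨y, h.trans h1, h2⟩

theorem arm_negl (a b : ℝ) (n : ℕ) : arm (half (-a) b) n = arm (half a b) n := by
  have k : ∀ a : ℝ, arm (half (-a) b) n ≤ arm (half a b) n := fun a => by
    rw [arm_eq, arm_eq]
    exact Q_AG_le (syX 0) (by omega) (by simp [syX]) (fun y => by simp [syX, nm])
      fun z hz => by simpa [syX, half] using hz
  exact le_antisymm (k a) (by simpa using k (-a))

theorem arm_swap (a b : ℝ) (n : ℕ) : arm (half b a) n = arm (half a b) n := by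
  have k : ∀ a b : ℝ, arm (half b a) n ≤ arm (half a b) n := fun a b => by
    rw [arm_eq, arm_eq]
    exact Q_AG_le syS (by omega) (by simp [syS]) (fun y => by simp [syS, nm, max_comm])
      fun z hz => by simpa [syS, half, add_comm] using hz
  exact le_antisymm (k a b) (k b a)

theorem arm_abs (a b : ℝ) (n : ℕ) : arm (half |a| |b|) n = arm (half a b) n := by
  have k : ∀ a b : ℝ, arm (half |a| b) n = arm (half a b) n := fun a b => by
    rcases abs_choice a with h | h <;> rw [h]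
    exact arm_negl ..
  rw [k, arm_swap, k, arm_swap]

theorem arm_reduce {a b : ℝ} (h : (a, b) ≠ 0) (n : ℕ) :
    ∃ a' b' : ℝ, 0 ≤ a' ∧ a' ≤ b' ∧ 0 < b' ∧ arm (half a b) n = arm (half a' b') n := by
  have h1 : 0 < |a| ∨ 0 < |b| := by
    by_contra c
    simp only [abs_pos, not_or, not_not] at c
    exact h (by simp [c.1, c.2])
  rcases le_total |a| |b| with c | c
  · exact ⟨_, _, abs_nonneg a, c, h1.elim (fun e => e.trans_le c) id, (arm_abs ..).symm⟩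
  · exact ⟨_, _, abs_nonneg b, c, h1.elim id fun e => e.trans_le c, by rw [arm_swap, arm_abs]⟩

theorem Q_edge (e : E) : Q {ω | ω e = true} = 1 / 2 := Pr_eval _ e true

theorem Q_AG_step {x : V} {d : Fin 4} {S T : Set V} {n : ℤ} (hn : 0 ≤ n) (hS : S ⊆ T) (hx : x ∈ T)
    (hy : x + u d ∈ T) : Q (AG x S (n + 1)) ≤ 2 * Q (AG (x + u d) T n) := by
  have h1 := harris_upper (fun _ => hf) (loc_AG x S (n := n + 1) (by omega))
    ((dep_eval (edge x d) true).loc (Set.finite_singleton _)) (up_AG ..) fun ω ω' h b => by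
      have := h (edge x d)
      rw [show ω (edge x d) = true from b] at this
      exact top_le_iff.1 this
  have h2 : Q (AG x S (n + 1) ∩ {ω | ω (edge x d) = true}) ≤ Q (AG (x + u d) T n) := by
    refine Pr_mono ?_
    rintro ω ⟨⟨y, b1, b2⟩, b3⟩
    refine ⟨y, ?_, (Conn.one hx hy b3).symm'.trans' (b2.mono_set hS)⟩
    have h1 := lip_fst x d
    have h2 := lip_snd x d
    simp only [nm, abs_eq_max_neg] at *
    omega
  have h3 := Q_edge (edge x d)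
  simp only [Q] at h2 h3 ⊢
  rw [h3] at h1
  linarith

theorem Yg.sum_wgt {S : Set V} (hS : Yg S) {N : ℕ} (hN : ∀ x ∈ S, x.1 ≤ N ∧ x.2 ≤ N) :
    ∑ x ∈ hS.fin.toFinset, (wgt S x : ℝ) ≤ 2 * (N + 1) := by
  have k : ∀ (e : V) (f : V → ℤ), (∀ x ∈ S, 0 ≤ f x ∧ f x ≤ N) →
      (∀ x ∈ S, ∀ y ∈ S, x + e ∉ S → y + e ∉ S → f x = f y → x = y) →
      ∑ x ∈ hS.fin.toFinset, (if x + e ∈ S then 0 else 1 : ℝ) ≤ N + 1 := fun e f h1 h2 => by
    have := Finset.card_le_card_of_injOn (s := hS.fin.toFinset.filter fun x => x + e ∉ S)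
      (t := Finset.Icc (0 : ℤ) N) f (fun x hx => by simp at hx; simpa using h1 x hx.1)
      fun x hx y hy => by simp at hx hy; exact h2 x hx.1 y hy.1 hx.2 hy.2
    rw [Int.card_Icc, Finset.card_filter] at this
    have e1 : ((N : ℤ) + 1 - 0).toNat = N + 1 := by omega
    rw [e1] at this
    have h3 : ((∑ x ∈ hS.fin.toFinset, if x + e ∉ S then 1 else 0 : ℕ) : ℝ) ≤ (N + 1 : ℕ) := by
      exact_mod_cast this
    push_cast at h3
    simpa only [ite_not] using h3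
  have h1 := k (1, 0) Prod.snd (fun x hx => ⟨(hS.pos x hx).2, (hN x hx).2⟩) fun x hx y hy a1 a2 a3 => by
    have p1 := hS.pos x hx
    have p2 := hS.pos y hy
    rcases lt_trichotomy x.1 y.1 with h | h | h
    · exact absurd (hS.down y hy _ (by simp; omega) (by simp; omega) (by simp; omega)
        (by simp; omega)) a1
    · exact Prod.ext h a3
    · exact absurd (hS.down x hx _ (by simp; omega) (by simp; omega) (by simp; omega)
        (by simp; omega)) a2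
  have h2 := k (0, 1) Prod.fst (fun x hx => ⟨(hS.pos x hx).1, (hN x hx).1⟩) fun x hx y hy a1 a2 a3 => by
    have p1 := hS.pos x hx
    have p2 := hS.pos y hy
    rcases lt_trichotomy x.2 y.2 with h | h | h
    · exact absurd (hS.down y hy _ (by simp; omega) (by simp; omega) (by simp; omega)
        (by simp; omega)) a1
    · exact Prod.ext a3 h
    · exact absurd (hS.down x hx _ (by simp; omega) (by simp; omega) (by simp; omega)
        (by simp; omega)) a2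
  simp only [wgt]
  push_cast
  rw [Finset.sum_add_distrib]
  linarith

theorem prod_lower {a b : ℝ} (ha : 0 ≤ a) (hab : a ≤ b) (hb : 0 < b) (n : ℕ) :
    1 ≤ (8 * n + 14) * (arm quad n * arm (half a b) n) := by
  let N : ℕ := 4 * n + 6
  let S : Set V := {z | 0 ≤ z.1 ∧ 0 ≤ z.2 ∧ a * z.1 + b * z.2 ≤ b * N ∧ b * z.1 + a * z.2 ≤ b * N}
  have hN : ∀ x ∈ S, x.1 ≤ N ∧ x.2 ≤ N := fun x ⟨h1, h2, h3, h4⟩ => by
    have h1' : (0 : ℝ) ≤ x.1 := by exact_mod_cast h1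
    have h2' : (0 : ℝ) ≤ x.2 := by exact_mod_cast h2
    have e1 : (x.1 : ℝ) ≤ N := le_of_mul_le_mul_left (by nlinarith) hb
    have e2 : (x.2 : ℝ) ≤ N := le_of_mul_le_mul_left (by nlinarith) hb
    exact ⟨by exact_mod_cast e1, by exact_mod_cast e2⟩
  have hS : Yg S := ⟨(Rc_finite 0 N 0 N).subset fun x hx => ⟨hx.1, (hN x hx).1, hx.2.1, (hN x hx).2⟩,
    by simp [S]; positivity, fun x hx => ⟨hx.1, hx.2.1⟩, fun x hx y h1 h2 h3 h4 => by
      have h2' : (y.1 : ℝ) ≤ x.1 := by exact_mod_cast h2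
      have h4' : (y.2 : ℝ) ≤ x.2 := by exact_mod_cast h4
      exact ⟨h1, h3, by nlinarith [hx.2.2.1], by nlinarith [hx.2.2.2]⟩⟩
  have key : ∀ x ∈ S, ∀ d, (d = 0 ∨ d = 1) → x + u d ∉ S →
      Q {ω | Conn ω S (0, 0) x} ≤ 2 * (arm quad n * arm (half a b) n) := fun x hx d hd ho => by
    obtain ⟨a', b', c1, c2, c3, c4⟩ : ∃ a' b' : ℝ, arm (half a' b') n = arm (half a b) n ∧
        b * N < a' * (x + u d).1 + b' * (x + u d).2 ∧ (∀ z ∈ S, a' * z.1 + b' * z.2 ≤ b * N) ∧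
        a' ≤ b ∧ b' ≤ b := by
      have p : 0 ≤ (x + u d).1 ∧ 0 ≤ (x + u d).2 := by
        have := hS.pos x hx
        rcases hd with rfl | rfl <;> simp <;> omega
      by_cases c : a * (x + u d).1 + b * (x + u d).2 ≤ b * N
      · exact ⟨b, a, arm_swap .., not_le.1 fun c' => ho ⟨p.1, p.2, c, c'⟩, fun z hz => hz.2.2.2,
          le_rfl, hab⟩
      · exact ⟨a, b, rfl, not_le.1 c, fun z hz => hz.2.2.1, hab, le_rfl⟩
    have far : 2 * (n : ℤ) + 3 ≤ max x.1 x.2 := by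
      have p := hS.pos x hx
      have q : (N : ℤ) < (x + u d).1 + (x + u d).2 := by
        have p1 : (0 : ℝ) ≤ (x + u d).1 := by
          rcases hd with rfl | rfl <;> simp <;> norm_cast <;> omega
        have p2 : (0 : ℝ) ≤ (x + u d).2 := by
          rcases hd with rfl | rfl <;> simp <;> norm_cast <;> omega
        have : (N : ℝ) < (x + u d).1 + (x + u d).2 := lt_of_mul_lt_mul_left (by nlinarith) hb.le
        exact_mod_cast this
      rcases hd with rfl | rfl <;> simp [N] at q <;> omega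
    have p := hS.pos x hx
    have h1 : Q {ω | Conn ω S (0, 0) x} ≤ Q (AG 0 quad n ∩ AG x S (n + 1)) := Pr_mono fun ω h =>
      ⟨⟨x, by simp only [nm, abs_eq_max_neg, Prod.fst_zero, Prod.snd_zero]; omega,
        h.mono_set fun z hz => hS.pos z hz⟩, (0, 0), by simp only [nm, abs_eq_max_neg]; omega,
        h.symm'⟩
    have h2 := Pr_inter_indep (fun _ => hf) (loc_AG 0 quad (n := n) (by omega))
      (loc_AG x S (n := n + 1) (by omega)) (dep_AG _ _ (by omega)) (dep_AG _ _ (by omega))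
      (In_disjoint (Set.disjoint_left.2 fun z b1 b2 => by
        have b3 := b1.2
        have b4 := b2.2
        simp only [nm, abs_eq_max_neg, Set.mem_ofPred_eq, Prod.fst_zero, Prod.snd_zero] at b3 b4
        omega))
    have h3 := Q_AG_step (x := x) (d := d) (S := S) (n := n)
      (T := {z | a' * z.1 + b' * z.2 ≤ a' * (x + u d).1 + b' * (x + u d).2}) (by omega)
      (fun z hz => (c3 z hz).trans c2.le) ((c3 x hx).trans c2.le) (le_refl (_ : ℝ))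
    have h4 := Q_AG_le (syT (-(x + u d).1) (-(x + u d).2)) (x := x + u d) (x' := 0) (n := n)
      (S := {z | a' * z.1 + b' * z.2 ≤ a' * (x + u d).1 + b' * (x + u d).2}) (T := half a' b')
      (by omega) (by simp [syT]) (fun y => by simp [syT, nm, sub_eq_add_neg]) fun z hz => by
        simp only [syT, half, Set.mem_ofPred_eq] at hz ⊢
        push_cast
        linarith
    rw [← arm_eq, c1] at h4
    rw [arm_eq quad]
    have h5 : 0 ≤ Q (AG 0 quad n) := Pr_nonneg _ _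
    simp only [Q] at *
    nlinarith
  have h1 := identity hS
  have h2 := hS.sum_wgt hN
  have h0 : 0 ≤ arm quad n * arm (half a b) n := by
    rw [arm_eq, arm_eq]; exact mul_nonneg (Pr_nonneg _ _) (Pr_nonneg _ _)
  have h3 : ∑ x ∈ hS.fin.toFinset, (wgt S x : ℝ) * Q {ω | Conn ω S (0, 0) x} ≤
      ∑ x ∈ hS.fin.toFinset, (wgt S x : ℝ) * (2 * (arm quad n * arm (half a b) n)) :=
    Finset.sum_le_sum fun x hx => by
      have hx : x ∈ S := by simpa using hx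
      by_cases c : x + (1, 0) ∈ S ∧ x + (0, 1) ∈ S
      · simp [wgt, c.1, c.2]
      · refine mul_le_mul_of_nonneg_left ?_ (by unfold wgt; split_ifs <;> norm_num)
        rcases not_and_or.1 c with c | c
        exacts [key x hx 0 (Or.inl rfl) c, key x hx 1 (Or.inr rfl) c]
  rw [← Finset.sum_mul] at h3
  simp only [N] at h2
  push_cast at h2
  nlinarith

section Barrier

variable {ω : Cfg} {L : Set V} {m : ℤ} {q q' : V}

theorem bar_v (hm : 0 < m) (hL : ∀ z, z + u 1 ∈ L → z ∈ L) (hR : Rc 0 (4 * m) 0 (2 * m) ⊆ L)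
    (h : Conn ω (Rc 0 (4 * m) m (2 * m)) q q') (hq : q ∈ Rc 0 (4 * m) m (2 * m)) (q0 : q.1 = 0)
    (q1 : q'.1 = 4 * m) {a b : ℤ} (ha : 0 ≤ a) (hab : a ≤ b) (hb : b ≤ 4 * m) {p p' : V}
    (hp : p ∈ Rc a b 0 (7 * m)) (p0 : p.2 = 0) (p1 : p'.2 = 7 * m)
    (hv : Conn ω (Rc a b 0 (7 * m)) p p') : Conn ω (Rc 0 (4 * m) 0 (7 * m) ∩ L) p q ∧
    ∀ {W : Set V} {x y : V}, W ⊆ Rc 0 (4 * m) 0 (7 * m) ∩ L → x ∈ W → x.1 ≤ a → b ≤ y.1 →
      Conn ω W x y → Conn ω (Rc 0 (4 * m) 0 (7 * m) ∩ L) x q := by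
  have k : ∀ {W : Set V} {x y : V}, W ⊆ Rc 0 (4 * m) 0 (7 * m) ∩ L → x ∈ W → x.1 ≤ a → b ≤ y.1 →
      Conn ω W x y → Conn ω (Rc 0 (4 * m) 0 (7 * m) ∩ L) x p := by
    intro W x y hW hx x0 y0 hc
    obtain ⟨x', y', b1, b2, b3, b4⟩ := hc.strip lip_fst hab x0 y0
    have s : W ∩ {z | a ≤ z.1 ∧ z.1 ≤ b} ⊆ Rc a b 0 (7 * m) ∩ L := fun z hz =>
      ⟨⟨hz.2.1, hz.2.2, (hW hz.1).1.2.2⟩, (hW hz.1).2⟩
    have := cross hL (by omega) hv hp (hR (by simp only [mem_Rc] at hp ⊢; omega)) p0 p1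
      (b4.mono_set s) (s ⟨b3.mem hx, by simp only [Set.mem_ofPred_eq]; omega⟩) b1 b2
    exact (b3.mono_set hW).trans' (this.symm'.mono_set fun z hz =>
      ⟨by have := hz.1; simp only [mem_Rc] at this ⊢; omega, hz.2⟩)
  have k1 := (k (fun z hz => ⟨by simp only [mem_Rc] at hz ⊢; omega,
    hR (by simp only [mem_Rc] at hz ⊢; omega)⟩) hq (by omega) (by omega) h).symm'
  exact ⟨k1, fun hW hx x0 y0 hc => (k hW hx x0 y0 hc).trans' k1⟩

theorem bar_h (hm : 0 < m) (hR : Rc 0 (4 * m) 0 (2 * m) ⊆ L)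
    (h : Conn ω (Rc 0 (4 * m) m (2 * m)) q q') (hq : q ∈ Rc 0 (4 * m) m (2 * m)) (q0 : q.1 = 0)
    (q1 : q'.1 = 4 * m) {W : Set V} {x y : V} (hW : W ⊆ Rc 0 (4 * m) 0 (7 * m) ∩ L) (hx : x ∈ W)
    (x0 : x.2 ≤ m) (y0 : 2 * m ≤ y.2) (hc : Conn ω W x y) :
    Conn ω (Rc 0 (4 * m) 0 (7 * m) ∩ L) x q := by
  obtain ⟨x', y', b1, b2, b3, b4⟩ := hc.strip lip_snd (by omega) x0 y0
  have s : W ∩ {z | m ≤ z.2 ∧ z.2 ≤ 2 * m} ⊆ Rc 0 (4 * m) m (2 * m) := fun z hz =>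
    ⟨(hW hz.1).1.1, (hW hz.1).1.2.1, hz.2⟩
  have := cross' (by omega) (b4.mono_set s) (s ⟨b3.mem hx, by simp only [Set.mem_ofPred_eq]; omega⟩)
    b1 b2 h hq q0 q1
  exact (b3.mono_set hW).trans' (this.mono_set fun z hz => ⟨by simp only [mem_Rc] at hz ⊢; omega,
    hR (by simp only [mem_Rc] at hz ⊢; omega)⟩)

theorem bar_z (hm : 0 < m) (hL : ∀ z, z + u 1 ∈ L → z ∈ L) (hR : Rc 0 (4 * m) 0 (2 * m) ⊆ L)
    (hL7 : ∀ z ∈ L, 0 ≤ z.1 → z.2 ≤ 7 * m)
    (h : Conn ω (Rc 0 (4 * m) m (2 * m)) q q') (hq : q ∈ Rc 0 (4 * m) m (2 * m)) (q0 : q.1 = 0)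
    (q1 : q'.1 = 4 * m) (v1 : ω ∈ VC m (2 * m) 0 (7 * m)) (v2 : ω ∈ VC (3 * m) (4 * m) 0 (7 * m))
    {z : V} (hz : z ∈ L) (z0 : 2 * m ≤ z.1) (z1 : z.1 ≤ 3 * m) (z2 : 2 * m ≤ z.2)
    (ha : ω ∈ AG z L (6 * m)) : Conn ω (Rc 0 (4 * m) 0 (7 * m) ∩ L) z q := by
  obtain ⟨y, y1, y2⟩ := ha
  obtain ⟨p, p', ⟨p1, p2, p3⟩, p4⟩ := v1
  obtain ⟨r, r', ⟨r1, r2, r3⟩, r4⟩ := v2
  have z7 := hL7 z hz (by omega)
  obtain ⟨a, d, b1, b2, b3, b4, b5, b6⟩ := y2.exit (A := {w | m < w.1 ∧ w.1 < 4 * m ∧ m < w.2})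
    (by simp only [Set.mem_ofPred_eq]; omega) fun b => by
      have := hL7 y (y2.mem hz) (by have := b.1; omega)
      simp only [nm, abs_eq_max_neg, Set.mem_ofPred_eq] at y1 b
      omega
  have l1 := abs_le.1 (lip_fst a d)
  have l2 := abs_le.1 (lip_snd a d)
  simp only [Set.mem_ofPred_eq] at b3 b5
  let W : Set V := {w | w ∈ L ∧ m ≤ w.1 ∧ w.1 ≤ 4 * m ∧ m ≤ w.2}
  have hW : W ⊆ Rc 0 (4 * m) 0 (7 * m) ∩ L := fun w ⟨c1, c2⟩ =>
    ⟨by have := hL7 w c1 (by omega); simp only [mem_Rc]; omega, c1⟩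
  have mw : a + u d ∈ W := ⟨b4, by omega⟩
  have c : Conn ω W z (a + u d) := (b1.mono_set (T := W) fun w hw => ⟨hw.1, by
    have := hw.2; simp only [Set.mem_ofPred_eq] at this; omega⟩).snoc ⟨b2, by omega⟩ mw b6
  by_cases c1 : (a + u d).1 ≤ m
  · exact (c.mono_set hW).trans' ((bar_v hm hL hR h hq q0 q1 (by omega) (by omega) (by omega) p1 p2
      p3 p4).2 hW mw c1 z0 c.symm')
  by_cases c2 : (a + u d).2 ≤ m
  · exact (c.mono_set hW).trans' (bar_h hm hR h hq q0 q1 hW mw c2 z2 c.symm')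
  · exact (bar_v hm hL hR h hq q0 q1 (by omega) (by omega) le_rfl r1 r2 r3 r4).2 hW
      ⟨hz, by omega⟩ z1 (by omega) c

theorem bar_0 (hm : 0 < m) (hL : ∀ z, z + u 1 ∈ L → z ∈ L) (hR : Rc 0 (4 * m) 0 (2 * m) ⊆ L)
    (h : Conn ω (Rc 0 (4 * m) m (2 * m)) q q') (hq : q ∈ Rc 0 (4 * m) m (2 * m)) (q0 : q.1 = 0)
    (q1 : q'.1 = 4 * m) (v1 : ω ∈ VC m (2 * m) 0 (7 * m)) (ha : ω ∈ AG 0 quad (2 * m)) :
    Conn ω (Rc 0 (4 * m) 0 (7 * m) ∩ L) 0 q := by
  rw [AG_eq _ _ (by omega)] at ha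
  obtain ⟨_, y, ⟨rfl, y1⟩, y2⟩ := ha
  obtain ⟨p, p', ⟨p1, p2, p3⟩, p4⟩ := v1
  have hW : quad ∩ {z | nm 0 z ≤ 2 * m} ⊆ Rc 0 (4 * m) 0 (7 * m) ∩ L := fun w ⟨c1, c2⟩ => by
    simp only [quad, nm, abs_eq_max_neg, Set.mem_ofPred_eq, Prod.fst_zero, Prod.snd_zero] at c1 c2
    exact ⟨by simp only [mem_Rc]; omega, hR (by simp only [mem_Rc]; omega)⟩
  have m0 : (0 : V) ∈ quad ∩ {z | nm 0 z ≤ 2 * m} := by simp [quad, nm]; omega
  have my := (y2.mem m0).1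
  simp only [quad, nm, abs_eq_max_neg, Set.mem_ofPred_eq, Prod.fst_zero, Prod.snd_zero] at my y1
  by_cases c : 2 * m ≤ y.1
  · exact (bar_v hm hL hR h hq q0 q1 (by omega) (by omega) (by omega) p1 p2 p3 p4).2 hW m0
      (by simp; omega) c y2
  · exact bar_h hm hR h hq q0 q1 hW m0 (by simp; omega) (by omega) y2

end Barrier

/-- the three crossings of the barrier -/
def BE (m : ℤ) : Set Cfg :=
  VC m (2 * m) 0 (7 * m) ∩ VC (3 * m) (4 * m) 0 (7 * m) ∩ HC 0 (4 * m) m (2 * m)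

theorem loc_BE (m : ℤ) : Loc (BE m) := ((loc_VC ..).inter (loc_VC ..)).inter (loc_HC ..)
theorem up_BE (m : ℤ) : IsUpperSet (BE m) := ((up_VC ..).inter (up_VC ..)).inter (up_HC ..)

theorem Q_BE : ∃ c : ℝ, 0 < c ∧ ∀ k : ℤ, 0 < k → c ≤ Q (BE (2 * k)) := by
  obtain ⟨c, h1, h2⟩ := rsw 12
  refine ⟨c * c * c, by positivity, fun k hk => le_trans ?_
    (harris3 (loc_VC ..) (loc_VC ..) (loc_HC ..) (up_VC ..) (up_VC ..) (up_HC ..))⟩
  have h3 : c ≤ hc (7 * (2 * k)) (2 * k) := by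
    have := h2 k hk
    push_cast at this
    rwa [show 14 * k = 7 * (2 * k) by ring] at this
  have h4 := h3.trans (hc_mono (w' := 4 * (2 * k)) (by omega) (by omega) le_rfl)
  rw [Q_VC, Q_VC, Q_HC, show 2 * (2 * k) - 2 * k = 2 * k by ring,
    show 4 * (2 * k) - 3 * (2 * k) = 2 * k by ring, sub_zero, sub_zero]
  exact mul_le_mul (mul_le_mul h3 h3 h1.le (h1.le.trans h3)) h4 h1.le
    (mul_nonneg (h1.le.trans h3) (h1.le.trans h3))

theorem prod_upper0 : ∃ C : ℝ, 0 < C ∧ ∀ a b : ℝ, 0 ≤ a → a ≤ b → 0 < b → ∀ k : ℕ, 0 < k →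
    k * (arm quad (12 * k) * arm (half a b) (12 * k)) ≤ C := by
  obtain ⟨c, hc, h⟩ := Q_BE
  refine ⟨1 / c, by positivity, fun a b ha hab hb k hk => ?_⟩
  set m : ℤ := 2 * k with hm
  have m0 : 0 < m := by omega
  have m0' : (0 : ℝ) < m := by exact_mod_cast m0
  let L : Set V := {z | a * z.1 + b * z.2 ≤ b * (6 * m)}
  have hL : ∀ z, z + u 1 ∈ L → z ∈ L := fun z hz => by
    simp only [L, Set.mem_ofPred_eq, u1, Prod.fst_add, Prod.snd_add] at hz ⊢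
    push_cast at hz
    linarith
  have hR : Rc 0 (4 * m) 0 (2 * m) ⊆ L := fun z ⟨_, h2, _, h4⟩ => by
    have h2' : (z.1 : ℝ) ≤ 4 * m := by exact_mod_cast h2
    have h4' : (z.2 : ℝ) ≤ 2 * m := by exact_mod_cast h4
    simp only [L, Set.mem_ofPred_eq]
    nlinarith
  have hL6 : ∀ z ∈ L, 0 ≤ z.1 → z.2 ≤ 6 * m := fun z hz h1 => by
    have h1' : (0 : ℝ) ≤ z.1 := by exact_mod_cast h1
    simp only [L, Set.mem_ofPred_eq] at hz
    have : (z.2 : ℝ) ≤ 6 * m := le_of_mul_le_mul_left (by nlinarith) hb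
    exact_mod_cast this
  set S := Rc 0 (4 * m) 0 (7 * m) ∩ L with hS'
  have hS : Yg S := ⟨(Rc_finite ..).inter_of_left _,
    ⟨by simp only [mem_Rc]; omega, hR (by simp only [mem_Rc]; omega)⟩,
    fun x hx => ⟨hx.1.1, hx.1.2.2.1⟩, fun x hx y h1 h2 h3 h4 => by
      have h2' : (y.1 : ℝ) ≤ x.1 := by exact_mod_cast h2
      have h4' : (y.2 : ℝ) ≤ x.2 := by exact_mod_cast h4
      have h5 := hx.1
      have h6 := hx.2
      simp only [L, Set.mem_ofPred_eq] at h6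
      exact ⟨by simp only [mem_Rc] at h5 ⊢; omega, by simp only [L, Set.mem_ofPred_eq]; nlinarith⟩⟩
  have top : ∀ i : ℤ, ∃ j, 0 ≤ i → i ≤ 4 * m → 2 * m ≤ j ∧ (i, j) ∈ L ∧ (i, j + 1) ∉ L := fun i => by
    by_cases hi : 0 ≤ i ∧ i ≤ 4 * m
    · obtain ⟨j, h1, h2⟩ := Int.exists_greatest_of_bdd (P := fun j => (i, j) ∈ L)
        ⟨6 * m, fun j hj => hL6 _ hj hi.1⟩ ⟨2 * m, hR (by simp only [mem_Rc]; omega)⟩
      exact ⟨j, fun _ _ => ⟨h2 _ (hR (by simp only [mem_Rc]; omega)), h1,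
        fun b => by have := h2 _ b; omega⟩⟩
    · exact ⟨0, by tauto⟩
  choose j hj using top
  set K := c * (arm quad (12 * k) * arm (half a b) (12 * k)) with hK
  have key : ∀ i ∈ Finset.Ico (2 * m) (3 * m),
      K ≤ (wgt S (i, j i) : ℝ) * Q {ω | Conn ω S (0, 0) (i, j i)} := fun i hi => by
    rw [Finset.mem_Ico] at hi
    obtain ⟨j1, j2, j3⟩ := hj i (by omega) (by omega)
    have w : (1 : ℝ) ≤ wgt S (i, j i) := by
      have : (i, j i) + (0, 1) ∉ S := fun b => j3 (by simpa using b.2)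
      unfold wgt; rw [if_neg this]; split_ifs <;> norm_num
    have h1 := harris3 (loc_BE m) (loc_AG 0 quad (n := 6 * m) (by omega))
      (loc_AG (i, j i) L (n := 6 * m) (by omega)) (up_BE m) (up_AG ..) (up_AG ..)
    have h2 : Q (BE m ∩ AG 0 quad (6 * m) ∩ AG (i, j i) L (6 * m)) ≤
        Q {ω | Conn ω S (0, 0) (i, j i)} := by
      refine Pr_mono ?_
      rintro ω ⟨⟨⟨⟨v1, v2⟩, q, q', ⟨q1, q2, q3⟩, q4⟩, y, y1, y2⟩, az⟩
      exact (bar_0 m0 hL hR q4 q1 q2 q3 v1 ⟨y, by omega, y2⟩).trans'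
        (bar_z m0 hL hR (fun z hz b => by have := hL6 z hz b; omega) q4 q1 q2 q3 v1 v2 j2
          hi.1 hi.2.le j1 az).symm'
    have h3 := Q_AG_le (syT i (j i)) (x := 0) (x' := (i, j i)) (n := 6 * m) (S := half a b) (T := L)
      (by omega) (by simp [syT]) (fun y => by simp [syT, nm]) fun z hz => by
        simp only [syT, half, L, Set.mem_ofPred_eq] at hz j2 ⊢
        push_cast
        linarith
    have e : ((12 * k : ℕ) : ℤ) = 6 * m := by omega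
    rw [hK, arm_eq, arm_eq, e, ← mul_assoc]
    have h4 := mul_le_mul (mul_le_mul_of_nonneg_right (h k (by omega))
      (Pr_nonneg (fun _ => hf) (AG 0 quad (6 * m)))) h3 (Pr_nonneg _ _)
      (mul_nonneg (Pr_nonneg _ _) (Pr_nonneg _ _))
    exact ((h4.trans h1).trans h2).trans (le_mul_of_one_le_left (Pr_nonneg _ _) w)
  have h1 := identity hS
  have h2 := Finset.card_nsmul_le_sum _ _ _ key
  have h3 := Finset.sum_le_sum_of_subset_of_nonneg
    (s := (Finset.Ico (2 * m) (3 * m)).image fun i => (i, j i)) (t := hS.fin.toFinset)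
    (f := fun x => (wgt S x : ℝ) * Q {ω | Conn ω S (0, 0) x}) (fun x hx => by
      obtain ⟨i, hi, rfl⟩ := Finset.mem_image.1 hx
      rw [Finset.mem_Ico] at hi
      obtain ⟨j1, j2, j3⟩ := hj i (by omega) (by omega)
      have := hL6 _ j2 (by simp only; omega)
      exact hS.fin.mem_toFinset.2 ⟨by simp only [mem_Rc] at this ⊢; omega, j2⟩)
    fun x _ _ => mul_nonneg (by unfold wgt; split_ifs <;> norm_num) (Pr_nonneg _ _)
  rw [Finset.sum_image fun _ _ _ _ e => (Prod.mk.inj e).1, h1] at h3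
  rw [Int.card_Ico, show (3 * m - 2 * m).toNat = 2 * k by omega, nsmul_eq_mul] at h2
  push_cast at h2
  rw [le_div_iff₀ hc]
  nlinarith

theorem arm_nonneg (S : Set V) (n : ℕ) : 0 ≤ arm S n := MeasureTheory.measureReal_nonneg
theorem arm_le_one (S : Set V) (n : ℕ) : arm S n ≤ 1 := by rw [arm_eq]; exact Pr_le_one _ _
theorem arm_anti (S : Set V) {n n' : ℕ} (h : n ≤ n') : arm S n' ≤ arm S n := by
  rw [arm_eq, arm_eq]; exact AG_anti (by exact_mod_cast h)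

theorem prod_bounds : ∃ C : ℝ, 0 < C ∧ ∀ a b : ℝ, (a, b) ≠ 0 → ∀ n : ℕ, 1 ≤ n →
    1 / 22 ≤ n * (arm quad n * arm (half a b) n) ∧ n * (arm quad n * arm (half a b) n) ≤ C := by
  obtain ⟨C, hC, h⟩ := prod_upper0
  refine ⟨24 * C + 12, by positivity, fun a b hab n hn => ?_⟩
  obtain ⟨a', b', h1, h2, h3, e⟩ := arm_reduce hab n
  rw [e]
  have n1 : (1 : ℝ) ≤ n := by exact_mod_cast hn
  have p0 := mul_nonneg (arm_nonneg quad n) (arm_nonneg (half a' b') n)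
  refine ⟨by nlinarith [prod_lower h1 h2 h3 n], ?_⟩
  by_cases c : n < 12
  · have : (n : ℝ) ≤ 12 := by exact_mod_cast c.le
    nlinarith [mul_le_one₀ (arm_le_one quad n) (arm_nonneg (half a' b') n) (arm_le_one _ n)]
  · have h4 := h a' b' h1 h2 h3 (n / 12) (by omega)
    have h5 : (n : ℝ) ≤ 24 * (n / 12 : ℕ) := by exact_mod_cast (by omega : n ≤ 24 * (n / 12))
    have h6 := mul_le_mul (arm_anti quad (Nat.mul_div_le n 12))
      (arm_anti (half a' b') (Nat.mul_div_le n 12)) (arm_nonneg _ _) (arm_nonneg _ _)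
    have h7 := mul_le_mul h5 h6 p0 (by positivity)
    nlinarith

end Pool.Agent.P.MP_6c8efb_pr
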