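import Pool.Agent.P.MP_6c8efb_pr.Wind

/-! The exact boundary identity in a Young diagram. -/

namespace Pool.Agent.P.MP_6c8efb_pr

open Function MeasureTheory Classical

/-- a real form of the phase of spin one third -/
def ph (w : ℤ) : ℤ :=
  if w % 6 = 0 ∨ w % 6 = 1 then -1 else if w % 6 = 3 ∨ w % 6 = 4 then 1 else 0

theorem ph_rec (w : ℤ) : ph (w + 1) + ph (w - 1) = ph w := by
  unfold ph; split_ifs <;> omega

/-- the loop through the starting dart -/
noncomputable def gam (ω : Cfg) : List D := if h : ∃ l, Lp (step ω) c0 l then h.choose else []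

theorem gam_eq {ω : Cfg} {l : List D} (h : Lp (step ω) c0 l) : gam ω = l := by
  rw [gam, dif_pos ⟨l, h⟩]
  exact (Exists.choose_spec (⟨l, h⟩ : ∃ l, Lp (step ω) c0 l)).unique h

/-- the increment of the phase at an edge -/
def inc (ω : Cfg) (e : E) (x : D) (w : ℤ) : ℤ := if ed x = e then ph (w + tau ω x) - ph w else 0

/-- the contribution of an edge -/
noncomputable def Phi (ω : Cfg) (e : E) : ℤ := gs (tau ω) (inc ω e) (gam ω) 0

theorem inc_zero {ω : Cfg} {s : D} {l : List D} {w : ℤ} (h : ∀ x ∈ l, x ≠ s ∧ x ≠ opp s) :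
    gs (tau ω) (inc ω (ed s)) l w = 0 :=
  gs_zero fun x hx _ => if_neg fun b => (ed_eq b).elim (h x hx).1 (h x hx).2

variable {S : Set V} {ω ω' : Cfg}

theorem local_core (hS : Yg S) (hω : ∀ e, ω e = true → e ∈ In S) (hω' : ∀ e, ω' e = true → e ∈ In S)
    {s : D} (h1 : ∀ e, e ≠ ed s → ω' e = ω e) (h2 : ω' (ed s) ≠ ω (ed s)) {a b r : List D}
    (hl : Lp (step ω) c0 (a ++ s :: (b ++ opp s :: r))) : Phi ω (ed s) + Phi ω' (ed s) = 0 := by
  obtain ⟨k1, k2, k3⟩ := flip_facts h1 h2
  obtain ⟨l1, -⟩ := hl.split k1 k2 fun x b1 b2 => step_congr (k3 x b1 b2)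
  obtain ⟨n1, n2, n3⟩ := nodup_ne hl.2.2
  have t1 := loop_four hS hω hl
  have t2 := loop_four hS hω' l1
  have sa := sum_congr fun x hx => k3 x (n1 x hx).1 (n1 x hx).2
  have sr := sum_congr fun x hx => k3 x (n3 x hx).1 (n3 x hx).2
  rw [Phi, Phi, gam_eq hl, gam_eq l1]
  simp only [gs_append, gs_cons, inc_zero n1, inc_zero n2, inc_zero n3, List.map_append,
    List.map_cons, List.sum_append, List.sum_cons, inc, ed_opp, if_true, sa, sr] at t1 t2 ⊢
  generalize (a.map (tau ω)).sum = A at *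
  generalize (b.map (tau ω)).sum = B at *
  generalize (r.map (tau ω)).sum = C at *
  have r1 := ph_rec A
  by_cases o : ω (ed s) = true
  · rw [tau_open o, tau_open (c := opp s) (by rwa [ed_opp])] at *
    rw [tau_closed (by rwa [o] at h2)] at *
    obtain rfl : B = 3 := by omega
    have r2 := ph_rec (A + 1)
    ring_nf at r1 r2 ⊢
    omega
  · rw [tau_closed o, tau_closed (c := opp s) (by rwa [ed_opp])] at *
    rw [tau_open (by simpa [o] using h2)] at *
    obtain rfl : B = -3 := by omega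
    have r2 := ph_rec (A - 1)
    ring_nf at r1 r2 ⊢
    omega

theorem local_one (hS : Yg S) (hω : ∀ e, ω e = true → e ∈ In S) (hω' : ∀ e, ω' e = true → e ∈ In S)
    {s : D} (h1 : ∀ e, e ≠ ed s → ω' e = ω e) (h2 : ω' (ed s) ≠ ω (ed s)) {l : List D}
    (hl : Lp (step ω) c0 l) (hs : s ∈ l) (ht : opp s ∉ l) : Phi ω (ed s) + Phi ω' (ed s) = 0 := by
  obtain ⟨a, r, rfl⟩ := List.append_of_mem hs
  obtain ⟨l2, h3⟩ := exists_loop hS.fin hω (opp s)
  obtain ⟨b, rfl, -⟩ := h3.eq_cons
  obtain ⟨k1, k2, k3⟩ := flip_facts h1 h2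
  rw [add_comm]
  exact local_core hS hω' hω (fun e he => (h1 e he).symm) h2.symm
    (hl.merge (step_inj _) h3 ht k1 k2 fun x b1 b2 => step_congr (k3 x b1 b2))

theorem local_rel (hS : Yg S) (hω : ∀ e, ω e = true → e ∈ In S) (hω' : ∀ e, ω' e = true → e ∈ In S)
    {e : E} (h1 : ∀ e', e' ≠ e → ω' e' = ω e') (h2 : ω' e ≠ ω e) : Phi ω e + Phi ω' e = 0 := by
  obtain ⟨s, rfl⟩ : ∃ s, ed s = e := by
    obtain ⟨x, b⟩ := e
    cases b
    exacts [⟨(x, 1), rfl⟩, ⟨(x, 0), rfl⟩]
  obtain ⟨l, hl⟩ := exists_loop hS.fin hω c0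
  by_cases hs : s ∈ l <;> by_cases ht : opp s ∈ l
  · obtain ⟨a, r, rfl⟩ := List.append_of_mem hs
    rcases List.mem_append.1 ht with ht | ht
    · obtain ⟨a, b, rfl⟩ := List.append_of_mem ht
      rw [← ed_opp] at h1 h2 ⊢
      exact local_core hS hω hω' h1 h2 (a := a) (b := b) (r := r) (by simpa [opp_opp] using hl)
    · obtain ⟨b, r, rfl⟩ := List.append_of_mem ((List.mem_cons.1 ht).resolve_left (opp_ne s))
      exact local_core hS hω hω' h1 h2 hl
  · exact local_one hS hω hω' h1 h2 hl hs ht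
  · rw [← ed_opp] at h1 h2 ⊢
    exact local_one hS hω hω' h1 h2 hl ht (by rwa [opp_opp])
  · have n : ∀ x ∈ l, x ≠ s ∧ x ≠ opp s := fun x hx =>
      ⟨by rintro rfl; exact hs hx, by rintro rfl; exact ht hx⟩
    have := hl.congr fun x hx => step_congr ((flip_facts h1 h2).2.2 x (n x hx).1 (n x hx).2)
    rw [Phi, Phi, gam_eq hl, gam_eq this, inc_zero n, inc_zero n, add_zero]

/-- the number of outer darts towards east and north -/
noncomputable def wgt (S : Set V) (x : V) : ℤ :=
  (if x + (1, 0) ∈ S then 0 else 1) + if x + (0, 1) ∈ S then 0 else 1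

theorem per_config (hS : Yg S) (hω : ∀ e, ω e = true → e ∈ In S) :
    ∑ e ∈ (In_finite hS.fin).toFinset, Phi ω e +
      ∑ x ∈ hS.fin.toFinset, wgt S x * (if Conn ω S (0, 0) x then 1 else 0) = 2 := by
  obtain ⟨l, hl⟩ := exists_loop hS.fin hω c0
  have t := gs_tele (τ := tau ω) (l := l) (w := 0) ph
  rw [loop_four hS hω hl] at t
  have e : (fun x w => ph (w + tau ω x) - ph w) = fun x w =>
      ∑ e ∈ (In_finite hS.fin).toFinset, inc ω e x w +
        if ed x ∈ In S then 0 else ph (w + tau ω x) - ph w := by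
    funext x w
    simp only [inc, Finset.sum_ite_eq, Set.Finite.mem_toFinset]
    split_ifs <;> simp
  let ψ : D → ℤ := fun x => if x.1 + u x.2 ∈ S then 0 else ph (th x.2 + 1) - ph (th x.2)
  rw [e, gs_add, gs_sum, gs_eq (ψ := ψ)] at t
  · simp only [Phi, gam_eq hl]
    rw [show (2 : ℤ) = ph (0 + 4) - ph 0 by decide, ← t, ← List.sum_toFinset _ hl.2.2]
    congr 1
    have : l.toFinset = (hS.fin.toFinset ×ˢ Finset.univ).filter (· ∈ l) := by
      ext x
      simpa using fun hx => (loop_conn hS hω hl x hx).1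
    rw [this, Finset.sum_filter, Finset.sum_product]
    refine Finset.sum_congr rfl fun x hx => ?_
    have hx : x ∈ S := by simpa using hx
    have k : ∀ d, (if (x, d) ∈ l then ψ (x, d) else 0) =
        ψ (x, d) * if Conn ω S (0, 0) x then 1 else 0 := fun d => by
      by_cases b : x + u d ∈ S
      · simp [ψ, b]
      · by_cases b1 : Conn ω S (0, 0) x
        · rw [if_pos (loop_mem hS hω hl hx b b1), if_pos b1, mul_one]
        · rw [if_neg fun b2 => b1 (loop_conn hS hω hl _ b2).2, if_neg b1, mul_zero]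
    refine Eq.symm ((Finset.sum_congr rfl fun d _ => by convert k d).trans
      (?_ : ∑ d, ψ (x, d) * (if Conn ω S (0, 0) x then 1 else 0) = _))
    rw [← Finset.sum_mul]
    congr 1
    simp [ψ, Fin.sum_univ_four, th, ph, wgt]
  · rintro a x b rfl
    have hx := (loop_conn hS hω hl x (by simp)).1
    by_cases o : x.1 + u x.2 ∈ S
    · simp only [ψ, if_pos o]
      exact if_pos (edge_mem_In.2 ⟨hx, o⟩)
    · have o' : ed x ∉ In S := fun b => o (edge_mem_In.1 b).2
      simp only [ψ, if_neg o, if_neg o', wind hS hω hl o, zero_add,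
        tau_closed fun b => o' (hω _ b)]

/-- restriction of a configuration -/
noncomputable def rs (S : Set V) (ω : Cfg) : Cfg := fun e => if e ∈ In S then ω e else false

theorem rs_mem (e : E) (h : rs S ω e = true) : e ∈ In S := by
  by_contra b; simp [rs, b] at h

theorem conn_rs {x y : V} : Conn (rs S ω) S x y ↔ Conn ω S x y :=
  ⟨fun h => h.mono subset_rfl fun e he b => by simpa [rs, he] using b,
    fun h => h.mono subset_rfl fun e he b => by simpa [rs, he] using b⟩

theorem locF_rs (hS : S.Finite) : LocF (rs S) :=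
  ⟨In S, In_finite hS, fun ω ω' h => funext fun e => by
    unfold rs; split_ifs with b
    exacts [h e b, rfl]⟩

theorem int_Phi (hS : Yg S) {e : E} (he : e ∈ In S) :
    ∫ ω, (Phi (rs S ω) e : ℝ) ∂PM (fun _ => hf) = 0 := by
  have h1 := integral_equiv (fun i => if i = e then Equiv.boolNot else Equiv.refl _)
    ((locF_rs hS.fin).comp fun ω => (Phi ω e : ℝ))
  have h2 : ∀ ω : Cfg, (Phi (rs S fun i => (if i = e then Equiv.boolNot else Equiv.refl _) (ω i)) e : ℝ)
      = -(Phi (rs S ω) e : ℝ) := fun ω => by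
    have := local_rel hS (rs_mem (ω := ω))
      (rs_mem (ω := fun i => (if i = e then Equiv.boolNot else Equiv.refl _) (ω i))) (e := e)
      (fun e' b => by simp [rs, b]) (by simp [rs, he])
    rw [eq_neg_iff_add_eq_zero, add_comm]
    exact_mod_cast this
  simp only [h2, integral_neg] at h1
  linarith

theorem loc_conn0 (hS : S.Finite) (x y : V) : Loc {ω | Conn ω S x y} :=
  ⟨In S, In_finite hS, fun _ _ hω h => h.mono subset_rfl fun e he b => hω e he ▸ b⟩

theorem identity (hS : Yg S) :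
    ∑ x ∈ hS.fin.toFinset, (wgt S x : ℝ) * Q {ω | Conn ω S (0, 0) x} = 2 := by
  have h1 : ∀ ω : Cfg, ∑ e ∈ (In_finite hS.fin).toFinset, (Phi (rs S ω) e : ℝ) +
      ∑ x ∈ hS.fin.toFinset, {ω | Conn ω S (0, 0) x}.indicator (fun _ => (wgt S x : ℝ)) ω = 2 := by
    intro ω
    have := per_config hS (rs_mem (ω := ω))
    simp only [conn_rs] at this
    have h2 := congrArg (Int.cast : ℤ → ℝ) this
    push_cast at h2
    rw [← h2]
    congr 1
    refine Finset.sum_congr rfl fun x _ => ?_
    by_cases b : Conn ω S (0, 0) x <;> simp [b]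
  have i1 : ∀ e, Integrable (fun ω => (Phi (rs S ω) e : ℝ)) (PM fun _ => hf) := fun e =>
    ((locF_rs hS.fin).comp fun ω => (Phi ω e : ℝ)).integrable _
  have i2 : ∀ x, Integrable ({ω | Conn ω S (0, 0) x}.indicator fun _ => (wgt S x : ℝ))
      (PM fun _ => hf) := fun x => ((loc_conn0 hS.fin _ _).locF_indicator _).integrable _
  have h2 := congrArg (fun f : Cfg → ℝ => ∫ ω, f ω ∂PM fun _ => hf) (funext h1)
  rw [integral_add (integrable_finsetSum _ fun e _ => i1 e) (integrable_finsetSum _ fun x _ => i2 x),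
    integral_finsetSum _ fun e _ => i1 e, integral_finsetSum _ fun x _ => i2 x,
    Finset.sum_eq_zero fun e he => int_Phi hS (by simpa using he), zero_add] at h2
  simp only [integral_indicator_const' _ (loc_conn0 hS.fin _ _)] at h2
  simpa using h2

end Pool.Agent.P.MP_6c8efb_pr
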