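import Pool.Agent.P.MP_6c8efb_pr.Ident

/-! An exact identity for critical bond percolation in every Young diagram. -/

namespace Pool.Agent.P.MP_6c8efb_pr.IdentityRes

open Pool.Agent.P.MP_6c8efb_pr

theorem result (S : Finset (ℤ × ℤ)) (h0 : (0, 0) ∈ S) (hq : ∀ x ∈ S, 0 ≤ x.1 ∧ 0 ≤ x.2)
    (hd : ∀ x ∈ S, ∀ y : ℤ × ℤ, 0 ≤ y.1 → y.1 ≤ x.1 → 0 ≤ y.2 → y.2 ≤ x.2 → y ∈ S) :
    ∑ x ∈ S, ((if x + (1, 0) ∈ S then 0 else 1) + (if x + (0, 1) ∈ S then 0 else 1) : ℝ) *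
      crit.real {ω | Conn ω S (0, 0) x} = 2 := by
  have h := identity (S := S) ⟨S.finite_toSet, h0, hq, hd⟩
  rw [Finset.finite_toSet_toFinset] at h
  rw [← h]
  refine Finset.sum_congr rfl fun x _ => ?_
  simp only [wgt, Finset.mem_coe, crit_real]
  push_cast
  congr

end Pool.Agent.P.MP_6c8efb_pr.IdentityRes
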