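import Pool.Agent.P.MP_6c8efb_pr.Chain
import Pool.Agent.P.MP_6c8efb_pr.Walk

/-! Loops of the medial lattice, their index functions and their total turning. -/

namespace Pool.Agent.P.MP_6c8efb_pr

open Function

/-- darts -/
abbrev D := V × Fin 4

/-- the edge of a dart -/
def ed (c : D) : E := edge c.1 c.2
/-- the opposite dart -/
def opp (c : D) : D := (c.1 + u c.2, c.2 + 2)
/-- the next dart around the same vertex -/
def rot (c : D) : D := (c.1, c.2 + 1)
/-- the face of a dart -/
def fd (c : D) : V := fc c.1 c.2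
/-- the turn made at a dart -/
def tau (ω : Cfg) (c : D) : ℤ := if ω (ed c) = true then -1 else 1

theorem step_open {ω : Cfg} {c : D} (h : ω (ed c) = true) : step ω c = rot (opp c) := by
  refine (if_pos h).trans ?_
  rw [rot, opp]
  congr 1
  rcases cases4 c.2 with h | h | h | h <;> rw [h] <;> rfl

theorem step_closed {ω : Cfg} {c : D} (h : ¬ ω (ed c) = true) : step ω c = rot c := if_neg h

theorem tau_open {ω : Cfg} {c : D} (h : ω (ed c) = true) : tau ω c = -1 := if_pos h
theorem tau_closed {ω : Cfg} {c : D} (h : ¬ ω (ed c) = true) : tau ω c = 1 := if_neg h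

theorem ed_opp (c : D) : ed (opp c) = ed c := edge_back _ _

theorem opp_opp (c : D) : opp (opp c) = c := by
  obtain ⟨x, d⟩ := c
  simp only [opp, u_back]
  rcases cases4 d with rfl | rfl | rfl | rfl <;> rfl

theorem opp_ne (c : D) : opp c ≠ c := by
  obtain ⟨x, d⟩ := c
  rcases cases4 d with rfl | rfl | rfl | rfl <;> simp [opp]

theorem ed_eq {c c' : D} (h : ed c' = ed c) : c' = c ∨ c' = opp c := by
  obtain ⟨⟨x, y⟩, d⟩ := c
  obtain ⟨⟨x', y'⟩, d'⟩ := c'
  rcases cases4 d with rfl | rfl | rfl | rfl <;> rcases cases4 d' with rfl | rfl | rfl | rfl <;>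
    simp [ed, opp] at h ⊢ <;> omega

theorem rot_inj : Injective rot := by
  rintro ⟨x, d⟩ ⟨x', d'⟩ h
  simpa [rot] using h

theorem step_inj (ω : Cfg) : Injective (step ω) := by
  intro c c' h
  by_cases h1 : ω (ed c) = true <;> by_cases h2 : ω (ed c') = true
  · rw [step_open h1, step_open h2] at h
    rw [← opp_opp c, rot_inj h, opp_opp]
  · rw [step_open h1, step_closed h2] at h
    exact absurd (by rw [← rot_inj h, ed_opp, h1]) h2
  · rw [step_closed h1, step_open h2] at h
    exact absurd (by rw [rot_inj h, ed_opp, h2]) h1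
  · rw [step_closed h1, step_closed h2] at h
    exact rot_inj h

theorem fd_ro (c : D) : fd (rot (opp c)) = fd c := by
  obtain ⟨x, d⟩ := c
  rcases cases4 d with rfl | rfl | rfl | rfl <;> simp [fd, rot, opp, Prod.ext_iff] <;> omega

theorem fd_rot (c : D) : fd (rot c) = fd (opp c) := (fc_step' _ _).symm

theorem step_congr {ω ω' : Cfg} {c : D} (h : ω' (ed c) = ω (ed c)) : step ω' c = step ω c := by
  simp only [step]; rw [show ω' (edge c.1 c.2) = ω (edge c.1 c.2) from h]

theorem tau_congr {ω ω' : Cfg} {c : D} (h : ω' (ed c) = ω (ed c)) : tau ω' c = tau ω c := by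
  simp only [tau, h]

theorem sum_congr {ω ω' : Cfg} {l : List D} (h : ∀ x ∈ l, ω' (ed x) = ω (ed x)) :
    (l.map (tau ω')).sum = (l.map (tau ω)).sum := by
  rw [List.map_congr_left fun x hx => tau_congr (h x hx)]

/-- indicator of a list -/
def ch (l : List D) (c : D) : ℤ := if c ∈ l then 1 else 0

theorem ch_step {ω : Cfg} {c : D} {l : List D} (h : Lp (step ω) c l) (x : D) :
    ch l (step ω x) = ch l x :=
  if_congr ⟨h.pred_mem (step_inj ω), h.succ_mem⟩ rfl rfl

theorem balance {ω : Cfg} {c : D} {l : List D} (h : Lp (step ω) c l) (x : D) :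
    ch l x + ch l (opp x) = ch l (rot x) + ch l (rot (opp x)) := by
  have h1 := ch_step h x
  have h2 := ch_step h (opp x)
  by_cases b : ω (ed x) = true
  · rw [step_open b] at h1
    rw [step_open (by rwa [ed_opp]), opp_opp] at h2
    omega
  · rw [step_closed b] at h1
    rw [step_closed (by rwa [ed_opp])] at h2
    omega

/-- index functions of a loop, on vertices and on faces -/
structure Idx (l : List D) (IV IF : V → ℤ) : Prop where
  rel : ∀ c : D, IV c.1 - IF (fd c) = ch l c
  finV : (support IV).Finite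
  finF : (support IF).Finite

theorem exists_idx {ω : Cfg} {c : D} {l : List D} (h : Lp (step ω) c l) :
    ∃ IV IF, Idx l IV IF := by
  obtain ⟨M, hM⟩ : ∃ M : ℤ, ∀ x ∈ l, |x.1.1| ≤ M ∧ |x.1.2| ≤ M := by
    obtain ⟨M, hM⟩ := ((l.finite_toSet).image fun x : D => max |x.1.1| |x.1.2|).bddAbove
    exact ⟨M, fun x hx => max_le_iff.1 (hM ⟨x, hx, rfl⟩)⟩
  have z : ∀ i j d, (i < -M ∨ M < i ∨ j < -M ∨ M < j) → ch l ((i, j), d) = 0 := fun i j d b =>
    if_neg fun hx => by
      have := hM _ hx
      simp only [abs_le] at this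
      omega
  choose G g1 g2 using fun b => exists_prim (fun k => ch l ((k, b), 2) - ch l ((k - 1, b), 1)) (-M)
    fun k hk => by rw [z _ _ _ (by omega), z _ _ _ (by omega), sub_zero]
  have bh : ∀ a b, ch l ((a - 1, b), 0) + ch l ((a, b), 2) =
      ch l ((a - 1, b), 1) + ch l ((a, b), 3) := fun a b => by
    simpa [opp, rot] using balance h ((a - 1, b), 0)
  have bv : ∀ a b, ch l ((a, b - 1), 1) + ch l ((a, b), 3) =
      ch l ((a, b - 1), 2) + ch l ((a, b), 0) := fun a b => by
    simpa [opp, rot] using balance h ((a, b - 1), 1)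
  have k3 : ∀ b a, G b a - (G (b - 1) a - ch l ((a, b - 1), 2)) = ch l ((a, b), 3) := fun b =>
    ind_right (-M) (fun a ha => by
      rw [g1 _ _ ha, g1 _ _ ha, z _ _ _ (by omega), z _ _ _ (by omega)]; rfl) fun a ih => by
      have := g2 b a
      have := g2 (b - 1) a
      have := bh a b
      have := bv (a - 1) b
      omega
  have rel : ∀ c : D, G c.1.2 c.1.1 - (G (fd c).2 ((fd c).1 + 1) -
      ch l (((fd c).1 + 1, (fd c).2), 2)) = ch l c := by
    rintro ⟨⟨a, b⟩, d⟩
    have h1 := g2 b (a + 1)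
    have h2 := bh (a + 1) b
    have h3 := k3 b (a + 1)
    have h4 := k3 b a
    rw [add_sub_cancel_right] at h1 h2
    rcases cases4 d with rfl | rfl | rfl | rfl <;> simp [fd] <;> omega
  have zV : ∀ i j, (i < -M ∨ M < i ∨ j < -M ∨ M < j) → G j i = 0 := by
    have r : ∀ j, (j < -M ∨ M < j) → ∀ i, G j i = 0 := fun j hj =>
      ind_right (-M) (g1 j) fun i ih => by
        have := g2 j i
        rw [z _ _ _ (by omega), z _ _ _ (by omega)] at this
        omega
    rintro i j (b | b | b)
    · exact g1 _ _ b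
    · refine ind_right (p := fun j => G j i = 0) (-M) (fun j hj => r j (Or.inl hj) i)
        (fun j ih => ?_) j
      have h1 := rel ((i, j - 1), 1)
      have h2 := rel ((i, j), 0)
      rw [z i _ _ (by omega)] at h1 h2
      simp [fd] at h1 h2
      omega
    · exact r j b i
  refine ⟨fun x => G x.2 x.1, fun f => G f.2 (f.1 + 1) - ch l ((f.1 + 1, f.2), 2), rel,
    (Rc_finite (-M) M (-M) M).subset fun x hx => ?_,
    (Rc_finite (-M - 1) M (-M) M).subset fun x hx => ?_⟩
  · by_contra b
    exact hx (zV _ _ (by simp only [mem_Rc] at b; omega))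
  · by_contra b
    simp only [mem_Rc] at b
    exact hx (by simp only [zV (x.1 + 1) x.2 (by omega), z (x.1 + 1) x.2 2 (by omega), sub_zero])

theorem ray_zero {f : V → ℤ} (hf : (support f).Finite) (x : V) (d : Fin 4)
    (h : ∀ k : ℕ, f (x + (k + 1) • u d) = f (x + k • u d)) : f x = 0 := by
  by_contra b
  have h1 : ∀ k : ℕ, f (x + k • u d) = f x := fun k => by
    induction k with
    | zero => simp
    | succ k ih => rw [h, ih]
  refine Set.infinite_of_injective_forall_mem (f := fun k : ℕ => x + k • u d) ?_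
    (fun k => by rw [mem_support, h1 k]; exact b) hf
  intro k k' hk
  rcases cases4 d with rfl | rfl | rfl | rfl <;> simpa using hk

theorem Idx.add {l l1 l2 : List D} {IV IF V1 F1 V2 F2 : V → ℤ} (h : Idx l IV IF) (h1 : Idx l1 V1 F1)
    (h2 : Idx l2 V2 F2) (hc : ∀ c, ch l c = ch l1 c + ch l2 c) :
    (∀ x, IV x = V1 x + V2 x) ∧ ∀ x, IF x = F1 x + F2 x := by
  have k : ∀ x, IV x - V1 x - V2 x = 0 := fun x => by
    refine ray_zero (f := fun x => IV x - V1 x - V2 x) (((h.finV.union h1.finV).union h2.finV).subset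
      fun z hz => ?_) x 0 fun k => ?_
    · by_contra b
      simp only [Set.mem_union, mem_support, not_or, not_not] at b hz
      omega
    · rw [succ_nsmul, ← add_assoc]
      generalize x + k • u 0 = y
      have e : fd (y + u 0, 2) = fd (y, 1) := by simp [fd]
      have a1 := h.rel (y, 1)
      have a2 := h1.rel (y, 1)
      have a3 := h2.rel (y, 1)
      have a4 := h.rel (y + u 0, 2)
      have a5 := h1.rel (y + u 0, 2)
      have a6 := h2.rel (y + u 0, 2)
      rw [e] at a4 a5 a6
      have := hc (y, 1)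
      have := hc (y + u 0, 2)
      simp only at *
      omega
  refine ⟨fun x => by have := k x; omega, fun x => ?_⟩
  have a1 := h.rel (x, 1)
  have a2 := h1.rel (x, 1)
  have a3 := h2.rel (x, 1)
  have := hc (x, 1)
  have := k x
  simp only [fd, fc1] at *
  omega

theorem all_vertices {p : V → Prop} (h : ∀ x d, p x → p (x + u d)) {x0 : V} (h0 : p x0) (z : V) :
    p z := by
  have k : ∀ (d : Fin 4) (n : ℕ) x, p x → p (x + n • u d) := fun d n x hx => by
    induction n with
    | zero => simpa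
    | succ n ih => rw [succ_nsmul, ← add_assoc]; exact h _ _ ih
  have := k 3 (x0.2 - z.2).toNat _ (k 2 (x0.1 - z.1).toNat _ (k 1 (z.2 - x0.2).toNat _
    (k 0 (z.1 - x0.1).toNat _ h0)))
  convert this using 1
  ext <;> simp <;> omega

section Val

variable {ω : Cfg} {c : D} {l : List D} {IV IF : V → ℤ}

theorem idx_closed (h : Lp (step ω) c l) (hI : Idx l IV IF) {x : D} (hx : ¬ ω (ed x) = true) :
    IF (fd (rot x)) = IF (fd x) := by
  have h1 := ch_step h x
  rw [step_closed hx, ← hI.rel, ← hI.rel] at h1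
  simp only [rot] at h1 ⊢
  omega

theorem idx_open (h : Lp (step ω) c l) (hI : Idx l IV IF) {x : D} (hx : ω (ed x) = true) :
    IV (x.1 + u x.2) = IV x.1 := by
  have h1 := ch_step h x
  rw [step_open hx, ← hI.rel, ← hI.rel, fd_ro] at h1
  simp only [rot, opp] at h1
  omega

theorem idx_face (h : Lp (step ω) c l) (hI : Idx l IV IF) : ∀ x ∈ l, IF (fd x) = IF (fd c) :=
  h.ind rfl fun x _ ih => by
    by_cases b : ω (ed x) = true
    · rw [step_open b, fd_ro, ih]
    · rw [step_closed b, idx_closed h hI b, ih]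

theorem idx_vertex (h : Lp (step ω) c l) (hI : Idx l IV IF) {x : D} (hx : x ∈ l) :
    IV x.1 = IF (fd c) + 1 := by
  have h1 := hI.rel x
  rw [idx_face h hI x hx, ch, if_pos hx] at h1
  omega

theorem idx_val (h : Lp (step ω) c l) (hI : Idx l IV IF) :
    (∀ z, IV z = IF (fd c) ∨ IV z = IF (fd c) + 1) ∧
    (∀ z, IF z = IF (fd c) ∨ IF z = IF (fd c) + 1) ∧ (IF (fd c) = 0 ∨ IF (fd c) = -1) := by
  have k : ∀ x : D, (IV x.1 = IF (fd c) ∨ IV x.1 = IF (fd c) + 1) ↔
      (IF (fd x) = IF (fd c) ∨ IF (fd x) = IF (fd c) + 1) := fun x => by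
    by_cases b : x ∈ l
    · simp [idx_vertex h hI b, idx_face h hI x b]
    · have h1 := hI.rel x
      rw [ch, if_neg b] at h1
      rw [show IV x.1 = IF (fd x) by omega]
  have k1 := all_vertices (p := fun z => IV z = IF (fd c) ∨ IV z = IF (fd c) + 1)
    (fun x d hx => (k (rot (opp (x, d)))).2 (by rw [fd_ro]; exact (k (x, d)).1 hx))
    (Or.inr (idx_vertex h hI h.mem))
  refine ⟨k1, fun z => (k (z, 1)).1 (k1 z), ?_⟩
  obtain ⟨z, hz⟩ := hI.finV.infinite_compl.nonempty
  have := k1 z
  simp only [Set.mem_compl_iff, mem_support, not_not] at hz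
  omega

theorem idx_ray (h : Lp (step ω) c l) (hI : Idx l IV IF) (x : D)
    (hx : ∀ k : ℕ, ¬ ω (edge (x.1 + (k + 1) • u x.2) (x.2 - 1)) = true) : IF (fd x) = 0 := by
  have e : ∀ k : ℕ, fd x + k • u x.2 = fd (x.1 + k • u x.2, x.2) := fun k => by
    obtain ⟨x, d⟩ := x
    rcases cases4 d with rfl | rfl | rfl | rfl <;> simp [fd, Prod.ext_iff] <;> omega
  refine ray_zero hI.finF _ x.2 fun k => ?_
  have := idx_closed h hI (x := (x.1 + (k + 1) • u x.2, x.2 - 1)) (hx k)
  rw [e, e]
  simp only [rot, sub_add_cancel] at this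
  rw [this, succ_nsmul, ← add_assoc, fd, fd, fc_step]

end Val

theorem face_darts {t y : D} : fd y = fd t ↔
    y ∈ [t, rot (opp t), rot (opp (rot (opp t))), rot (opp (rot (opp (rot (opp t)))))] := by
  obtain ⟨⟨x1, x2⟩, d⟩ := t
  obtain ⟨⟨y1, y2⟩, d'⟩ := y
  rcases cases4 d with rfl | rfl | rfl | rfl <;> rcases cases4 d' with rfl | rfl | rfl | rfl <;>
    simp [fd, rot, opp] <;> omega

theorem face_loop {ω : Cfg} {t : D} (h : ∀ y, fd y = fd t → ω (ed y) = true) :
    Lp (step ω) t [t, rot (opp t), rot (opp (rot (opp t))), rot (opp (rot (opp (rot (opp t)))))] := by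
  refine Lp.of ?_ ?_
  · simp only [wk_cons, wk_nil]
    rw [step_open (h _ rfl), step_open (h _ (fd_ro _)), step_open (h _ (by rw [fd_ro, fd_ro])),
      step_open (h _ (by rw [fd_ro, fd_ro, fd_ro]))]
    obtain ⟨x, d⟩ := t
    rcases cases4 d with rfl | rfl | rfl | rfl <;> simp [rot, opp, Prod.ext_iff]
  · obtain ⟨x, d⟩ := t
    rcases cases4 d with rfl | rfl | rfl | rfl <;> simp [rot, opp, Prod.ext_iff]

theorem vertex_loop {ω : Cfg} {c : D} {l : List D} (h : Lp (step ω) c l)
    (ho : ∀ x ∈ l, ¬ ω (ed x) = true) : (l.map (tau ω)).sum = 4 := by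
  have m0 := h.mem
  have m1 := step_closed (ho _ m0) ▸ h.succ_mem m0
  have m2 := step_closed (ho _ m1) ▸ h.succ_mem m1
  have m3 := step_closed (ho _ m2) ▸ h.succ_mem m2
  have : Lp (step ω) c [c, rot c, rot (rot c), rot (rot (rot c))] := by
    refine Lp.of ?_ ?_
    · simp only [wk_cons, wk_nil]
      rw [step_closed (ho _ m0), step_closed (ho _ m1), step_closed (ho _ m2),
        step_closed (ho _ m3)]
      obtain ⟨x, d⟩ := c
      rcases cases4 d with rfl | rfl | rfl | rfl <;> simp [rot]
    · obtain ⟨x, d⟩ := c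
      rcases cases4 d with rfl | rfl | rfl | rfl <;> simp [rot]
  rw [h.unique this]
  simp [tau_closed (ho _ m0), tau_closed (ho _ m1), tau_closed (ho _ m2), tau_closed (ho _ m3)]

theorem flip_facts {ω ω' : Cfg} {s : D} (h : ∀ e, e ≠ ed s → ω' e = ω e)
    (hs : ω' (ed s) ≠ ω (ed s)) :
    step ω' s = step ω (opp s) ∧ step ω' (opp s) = step ω s ∧
      (∀ x, x ≠ s → x ≠ opp s → ω' (ed x) = ω (ed x)) := by
  refine ⟨?_, ?_, fun x h1 h2 => h _ fun b => (ed_eq b).elim h1 h2⟩ <;>
    by_cases b : ω (ed s) = true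
  · rw [step_closed (by rwa [b] at hs), step_open (by rwa [ed_opp]), opp_opp]
  · rw [step_open (by simpa [b] using hs), step_closed (by rwa [ed_opp])]
  · rw [step_closed (by rw [ed_opp]; rwa [b] at hs), step_open b]
  · rw [step_open (by rw [ed_opp]; simpa [b] using hs), step_closed b, opp_opp]

theorem nodup_ne {a b e : List D} {s t : D} (h : (a ++ s :: (b ++ t :: e)).Nodup) :
    (∀ x ∈ a, x ≠ s ∧ x ≠ t) ∧ (∀ x ∈ b, x ≠ s ∧ x ≠ t) ∧ ∀ x ∈ e, x ≠ s ∧ x ≠ t := by
  simp only [List.nodup_append, List.nodup_cons, List.mem_cons, List.mem_append] at h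
  refine ⟨fun x hx => ⟨h.2.2 x hx s (by simp), h.2.2 x hx t (by simp)⟩, fun x hx => ⟨?_,
    h.2.1.2.2.2 x hx t (by simp)⟩, fun x hx => ⟨?_, ?_⟩⟩
  · rintro rfl; exact h.2.1.1 (by simp [hx])
  · rintro rfl; exact h.2.1.1 (by simp [hx])
  · rintro rfl; exact h.2.1.2.2.1.1 hx

/-- discrete Umlaufsatz -/
theorem umlauf (N : ℕ) : ∀ (ω : Cfg) (c : D) (l : List D) (IV IF : V → ℤ), Lp (step ω) c l →
    Idx l IV IF → IF (fd c) = 0 → (support IV).ncard + (support IF).ncard = N →
    (l.map (tau ω)).sum = 4 := by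
  induction N using Nat.strong_induction_on with
  | _ N ih =>
  intro ω c l IV IF h hI h0 hN
  by_cases ho : ∀ x ∈ l, ¬ ω (ed x) = true
  · exact vertex_loop h ho
  push Not at ho
  obtain ⟨s, hs, os⟩ := ho
  obtain ⟨v1, v2, -⟩ := idx_val h hI
  rw [h0] at v1 v2
  have fs : IF (fd s) = 0 := by rw [idx_face h hI s hs, h0]
  have vs : IV s.1 = 1 := by rw [idx_vertex h hI hs, h0]; rfl
  have vt : IV (opp s).1 = 1 := (idx_open h hI os).trans vs
  obtain ⟨a, b, rfl⟩ := List.append_of_mem hs
  by_cases ht : opp s ∈ a ++ s :: b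
  · have hr := h.rotate
    have ht' : opp s ∈ b ++ a := by
      have := opp_ne s
      simp only [List.mem_append, List.mem_cons] at ht ⊢
      tauto
    obtain ⟨b', e', he⟩ := List.append_of_mem ht'
    rw [he] at hr
    have pm : (a ++ s :: b).Perm (s :: (b' ++ opp s :: e')) := by
      rw [← he]; exact List.perm_append_comm
    obtain ⟨k1, k2, k3⟩ := flip_facts (ω := ω) (ω' := update ω (ed s) false) (s := s)
      (fun e he => update_of_ne he ..) (by simp [os])
    have cs : ¬ update ω (ed s) false (ed s) = true := by simp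
    obtain ⟨l1, l2⟩ := Lp.split (a := []) hr k1 k2 fun x h1 h2 => step_congr (k3 x h1 h2)
    obtain ⟨-, n2, n3⟩ := nodup_ne (a := []) hr.2.2
    obtain ⟨V1, F1, i1⟩ := exists_idx l1
    obtain ⟨V2, F2, i2⟩ := exists_idx l2
    have dj := l1.not_mem (step_inj _) l2 (by
      simp only [List.nil_append, List.mem_cons, not_or]
      exact ⟨opp_ne s, fun b => (n3 _ b).2 rfl⟩)
    obtain ⟨aV, aF⟩ := hI.add i1 i2 fun x => by
      have := dj x
      simp only [ch, pm.mem_iff, List.nil_append, List.mem_cons, List.mem_append] at this ⊢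
      split_ifs <;> first | rfl | tauto
    obtain ⟨p1, p2, p3⟩ := idx_val l1 i1
    obtain ⟨q1, q2, q3⟩ := idx_val l2 i2
    have e1 := idx_closed l2 i2 cs
    rw [fd_rot] at e1
    have e2 := aF (fd s)
    have z1 : F1 (fd s) = 0 := by omega
    have z2 : F2 (fd (opp s)) = 0 := by omega
    rw [z1] at p1 p2
    rw [z2] at q1 q2
    have w1 := idx_vertex l1 i1 l1.mem
    have w2 := idx_vertex l2 i2 l2.mem
    have lt : ∀ {f g : V → ℤ}, (support g).Finite → (∀ x, f x ≠ 0 → g x ≠ 0) → ∀ z, f z = 0 →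
        g z ≠ 0 → (support f).ncard < (support g).ncard := fun hg h1 z h2 h3 =>
      Set.ncard_lt_ncard ⟨h1, fun b => b h3 h2⟩ hg
    have le : ∀ {f g : V → ℤ}, (support g).Finite → (∀ x, f x ≠ 0 → g x ≠ 0) →
        (support f).ncard ≤ (support g).ncard := fun hg h1 => Set.ncard_le_ncard h1 hg
    have r1 := ih _ (hN ▸ add_lt_add_of_lt_of_le
      (lt hI.finV (fun x => by have := aV x; have := p1 x; have := q1 x; omega) (opp s).1
        (by have := aV (opp s).1; omega) (by omega))
      (le hI.finF fun x => by have := aF x; have := p2 x; have := q2 x; omega)) _ _ _ _ _ l1 i1 z1 rfl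
    have r2 := ih _ (hN ▸ add_lt_add_of_lt_of_le
      (lt hI.finV (fun x => by have := aV x; have := p1 x; have := q1 x; omega) s.1
        (by have := aV s.1; omega) (by omega))
      (le hI.finF fun x => by have := aF x; have := p2 x; have := q2 x; omega)) _ _ _ _ _ l2 i2 z2 rfl
    rw [(pm.map _).sum_eq]
    simp only [List.nil_append, List.map_cons, List.sum_cons, List.map_append, List.sum_append]
      at r1 r2 ⊢
    rw [sum_congr fun x hx => k3 x (n3 x hx).1 (n3 x hx).2, tau_closed cs] at r1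
    rw [sum_congr fun x hx => k3 x (n2 x hx).1 (n2 x hx).2, tau_closed (by rwa [ed_opp])] at r2
    rw [tau_open os, tau_open (by rwa [ed_opp])]
    omega
  · have ft : IF (fd (opp s)) = 1 := by
      have := hI.rel (opp s)
      rw [ch, if_neg ht] at this
      omega
    have nm : ∀ y, fd y = fd (opp s) → y ∉ a ++ s :: b := fun y hy b => by
      have := idx_face h hI y b
      rw [hy] at this
      omega
    classical
    let ω1 : Cfg := fun e => ω e || decide (∃ y, fd y = fd (opp s) ∧ ed y = e)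
    have o1 : ∀ y, fd y = fd (opp s) → ω1 (ed y) = true := fun y hy => by
      simp only [ω1, Bool.or_eq_true, decide_eq_true_eq]; exact Or.inr ⟨y, hy, rfl⟩
    have o2 : ∀ x ∈ a ++ s :: b, ω1 (ed x) = ω (ed x) := fun x hx => by
      by_cases b : ω (ed x) = true
      · simp [ω1, b]
      · simp only [ω1, b, Bool.false_or, decide_eq_false_iff_not]
        rintro ⟨y, y1, y2⟩
        rcases ed_eq y2 with rfl | rfl
        · exact nm _ y1 hx
        · exact nm (rot x) (by rwa [fd_rot]) (step_closed b ▸ h.succ_mem hx)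
    have h1 : Lp (step ω1) c (a ++ s :: b) := h.congr fun x hx => step_congr (o2 x hx)
    have os1 : ω1 (ed s) = true := by rw [o2 s hs, os]
    obtain ⟨k1, k2, k3⟩ := flip_facts (ω := ω1) (ω' := update ω1 (ed s) false) (s := s)
      (fun e he => update_of_ne he ..) (by simp [os1])
    have cs : ¬ update ω1 (ed s) false (ed s) = true := by simp
    have h2 := h1.merge (step_inj _) (face_loop o1) ht k1 k2
      fun x h1 h2 => step_congr (k3 x h1 h2)
    obtain ⟨n1, n2, n3⟩ := nodup_ne h2.2.2
    have sub : support (update IF (fd (opp s)) 0) ⊂ support IF :=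
      ⟨fun x hx => by
        by_cases b : x = fd (opp s)
        · simp [b] at hx
        · rwa [mem_support, update_of_ne b] at hx, fun b => b (a := fd (opp s)) (by simp [ft]) (by simp)⟩
    have r := ih _ (hN ▸ add_lt_add_of_le_of_lt le_rfl (Set.ncard_lt_ncard sub hI.finF)) _ _ _ IV _ h2
      ⟨fun x => ?_, hI.finV, hI.finF.subset sub.1⟩ (by
        rw [update_of_ne fun b => nm c b h.mem, h0]) rfl
    · simp only [List.map_cons, List.sum_cons, List.map_append, List.sum_append] at r ⊢
      rw [sum_congr fun x hx => (k3 x (n1 x hx).1 (n1 x hx).2).trans (o2 x (by simp [hx])),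
        sum_congr fun x hx => (k3 x (n3 x hx).1 (n3 x hx).2).trans (o2 x (by simp [hx])),
        tau_closed cs, tau_closed (c := opp s) (by rwa [ed_opp]),
        tau_congr (k3 _ (n2 _ (by simp)).1 (n2 _ (by simp)).2),
        tau_congr (k3 _ (n2 _ (by simp)).1 (n2 _ (by simp)).2),
        tau_congr (k3 _ (n2 _ (by simp)).1 (n2 _ (by simp)).2),
        tau_open (o1 _ (fd_ro _)), tau_open (o1 _ (by rw [fd_ro, fd_ro])),
        tau_open (o1 _ (by rw [fd_ro, fd_ro, fd_ro]))] at r
      rw [tau_open os]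
      simp only [List.map_nil, List.sum_nil] at r
      omega
    · have e1 := hI.rel x
      have e2 := face_darts (t := opp s) (y := x)
      by_cases b : fd x = fd (opp s)
      · have e3 := nm x b
        rw [ch, if_neg e3, b] at e1
        rw [b, update_self, ch, if_pos (by
          have := e2.1 b
          simp only [List.mem_append, List.mem_cons] at this ⊢
          tauto)]
        omega
      · rw [update_of_ne b, e1]
        refine if_congr ?_ rfl rfl
        have := mt e2.2 b
        simp only [List.mem_cons, List.not_mem_nil, or_false, not_or] at this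
        simp only [List.mem_append, List.mem_cons, List.not_mem_nil, this.1, this.2.1, this.2.2.1,
          this.2.2.2, or_self, false_or]

theorem turn_four {ω : Cfg} {c : D} {l : List D} (h : Lp (step ω) c l)
    (hx : ∀ k : ℕ, ¬ ω (edge (c.1 + (k + 1) • u c.2) (c.2 - 1)) = true) :
    (l.map (tau ω)).sum = 4 := by
  obtain ⟨IV, IF, hI⟩ := exists_idx h
  exact umlauf _ ω c l IV IF h hI (idx_ray h hI c hx) rfl

end Pool.Agent.P.MP_6c8efb_pr
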