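import Pool.Agent.P.MP_6c8efb_pr.Glue

/-! The exploration path touches a boundary vertex exactly when it is joined to the origin. -/

namespace Pool.Agent.P.MP_6c8efb_pr

open Function

theorem Conn.finite {ω : Cfg} {S : Set V} {x y : V} (h : Conn ω S x y) :
    ∃ M : ℤ, Conn ω (Rc (-M) M (-M) M) x y := by
  refine h.ind (p := fun y => ∃ M : ℤ, Conn ω (Rc (-M) M (-M) M) x y) ⟨0, Conn.rfl'⟩ ?_
  rintro a d - - - ho ⟨M, ih⟩
  have l1 := abs_le.1 (lip_fst a d)
  have l2 := abs_le.1 (lip_snd a d)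
  refine ⟨max M (max |a.1| |a.2| + 1), (ih.mono_set fun z hz => ?_).snoc ?_ ?_ ho⟩ <;>
    simp only [mem_Rc, abs_eq_max_neg] at * <;> omega

theorem path_conn (ω : Cfg) (k : ℕ) : Conn (bc ω) Set.univ (0, 0) (path ω k).1 := by
  induction k with
  | zero => exact Conn.rfl'
  | succ k ih =>
    rw [path, iterate_succ_apply', ← path]
    by_cases b : bc ω (ed (path ω k)) = true
    · rw [step_open b]; exact ih.snoc trivial trivial b
    · rw [step_closed b]; exact ih

theorem bc_pos {ω : Cfg} {e : E} (h : bc ω e = true) : 0 ≤ e.1.2 := by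
  by_contra b
  simp [bc, not_le.1 b] at h

theorem path_hits {ω : Cfg} {n : ℤ} (hn : 0 < n) (h : Conn (bc ω) Set.univ (0, 0) (n, 0)) :
    ∃ k, (path ω k).1 = (n, 0) := by
  by_contra hk
  push Not at hk
  obtain ⟨M, hM⟩ := h.finite
  obtain ⟨c1, a1, a2⟩ := exists_chain hM
  let c2 : E → ℤ := fun e => if e.2 = true then (if e.1.2 = -1 ∧ 0 ≤ e.1.1 ∧ e.1.1 < n then -1 else 0)
    else if e.1.2 = -1 ∧ e.1.1 = n then -1 else if e.1.2 = -1 ∧ e.1.1 = 0 then 1 else 0
  have b2 : ∀ x, bd c2 x = (if x = (n, 0) then 1 else 0) - if x = (0, 0) then 1 else 0 := by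
    rintro ⟨i, j⟩
    simp [bd, c2]
    split_ifs <;> omega
  let c : E → ℤ := fun e => c1 e + c2 e
  have b0 : ∀ x, bd c x = 0 := fun x => by
    have h1 := a2 x
    have h2 := b2 x
    simp only [bd, c] at h1 h2 ⊢
    omega
  let N := max M n + 1
  have cz : ∀ e : E, (e.1.1 < -N ∨ N < e.1.1 ∨ e.1.2 < -N ∨ N < e.1.2) → c e = 0 := fun e he => by
    have h1 : c1 e = 0 := by
      by_contra b
      have := (a1 e b).2.1
      simp only [mem_Rc] at this
      omega
    simp only [c, c2, h1]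
    split_ifs <;> omega
  obtain ⟨J, j1, j2, j3⟩ := exists_J c (-N) fun e he => by
    by_contra b; exact he (cz e (by omega))
  have j4 : ∀ i j, J (i, j) - J (i, j - 1) + c ((i, j), true) = 0 := fun i j => by
    rw [j3 j 0 (fun k _ => b0 _), b0, ite_self]
  have jz : ∀ f : V, J f ≠ 0 → f ∈ Rc (-N) N (-N) N := by
    have r : ∀ j, (j < -N ∨ N < j) → ∀ i, J (i, j) = 0 := fun j hj =>
      ind_right (-N) (fun i hi => j1 _ hi) fun i ih => by
        have := j2 i j
        rw [cz _ (by simp only; omega)] at this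
        omega
    rintro ⟨i, j⟩ hf
    by_contra b
    simp only [mem_Rc] at b
    refine hf ?_
    by_cases h1 : i < -N
    · exact j1 _ h1
    by_cases h2 : N < i
    · refine ind_right (p := fun j => J (i, j) = 0) (-N) (fun j hj => r j (Or.inl hj) i)
        (fun j ih => ?_) j
      have := j4 i j
      rw [cz _ (by simp only; omega)] at this
      omega
    · exact r j (by omega) i
  have low : ∀ i, c1 ((i, -1), false) = 0 := fun i => by
    by_contra b
    have := bc_pos (a1 _ b).1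
    simp at this
  have J0 : ∀ i, i < 0 → J (i, -1) = 0 := ind_right (-N) (fun i hi _ => j1 _ hi) fun i ih hi => by
    have := j2 i (-1)
    simp only [c, c2, low] at this
    rw [ih (by omega)] at this
    simp at this
    split_ifs at this <;> omega
  have J1 : J (0, -1) = 1 := by
    have := j2 0 (-1)
    simp only [c, c2, low] at this
    rw [J0 (0 - 1) (by omega)] at this
    simpa [hn.ne] using this
  let ω1 : Cfg := fun e => bc ω e || decide (c2 e ≠ 0)
  have inv : ∀ k, J (fd ((step ω1)^[k] ((0, 0), 0))) = 1 := fun k => by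
    induction k with
    | zero => exact J1
    | succ k ih =>
      rw [iterate_succ_apply']
      generalize (step ω1)^[k] ((0, 0), 0) = x at ih
      by_cases b : ω1 (ed x) = true
      · rw [step_open b, fd_ro, ih]
      · rw [step_closed b]
        have := J_dart (y0 := x.1.2 - 2) (y1 := x.1.2 + 2) j2 (fun i j _ _ => j4 i j) x.1 x.2
          (by rcases cases4 x.2 with e | e | e | e <;> simp [e, St])
          (by rcases cases4 x.2 with e | e | e | e <;> simp [e, St])
        simp only [ω1, Bool.or_eq_true, decide_eq_true_eq, not_or, not_not] at b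
        have e1 : c1 (edge x.1 x.2) = 0 := by
          by_contra b1; exact b.1 (a1 _ b1).1
        have e2 : c2 (edge x.1 x.2) = 0 := b.2
        simp only [c, e1, e2] at this
        simp only [fd, rot] at ih ⊢
        omega
  obtain ⟨l, hl⟩ := exists_lp (c := ((0, 0), 0)) (step_inj ω1)
    ((Rc_finite (-N) (N + 1) (-N) (N + 1)).prod (Set.toFinite (Set.univ : Set (Fin 4)))) fun k => by
      have := jz _ (by rw [inv k]; omega : J (fd ((step ω1)^[k] ((0, 0), 0))) ≠ 0)
      generalize (step ω1)^[k] ((0, 0), 0) = x at this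
      refine ⟨?_, trivial⟩
      rcases cases4 x.2 with e | e | e | e <;> simp [e, fd, mem_Rc] at this ⊢ <;> omega
  have same : ∀ k, (step ω1)^[k] ((0, 0), 0) = path ω k ∧ 0 ≤ (path ω k).1.2 := fun k => by
    induction k with
    | zero => exact ⟨rfl, le_rfl⟩
    | succ k ih =>
      have h1 := inv k
      have h2 := hk k
      have h3 := ih.2
      rw [iterate_succ_apply', path, iterate_succ_apply', ← path, ih.1]
      rw [ih.1] at h1
      generalize path ω k = x at h1 h2 h3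
      have e : c2 (ed x) = 0 := by
        obtain ⟨⟨i, j⟩, d⟩ := x
        by_contra b
        rcases cases4 d with rfl | rfl | rfl | rfl <;> simp [c2, ed] at b h2 h3
        iterate 3 omega
        obtain rfl : i = 0 := by split_ifs at b <;> omega
        obtain rfl : j = 0 := by split_ifs at b <;> omega
        simp [fd, J0] at h1
      refine ⟨step_congr (by simp [ω1, e]), ?_⟩
      by_cases b : bc ω (ed x) = true
      · rw [step_open b]
        have := bc_pos b
        rcases cases4 x.2 with e | e | e | e <;> simp [e, ed, rot, opp] at this ⊢ <;> omega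
      · rw [step_closed b]; exact h3
  have m : (((0, -1), 1) : D) ∈ l := hl.pred_mem (step_inj _) (by
    rw [step_open (by simp [ω1, c2, ed, hn.ne])]
    simpa [rot, opp] using hl.mem)
  obtain ⟨a, b, rfl⟩ := List.append_of_mem m
  obtain ⟨k, hk⟩ := (wk_mid.1 hl.2.1).1.iterate
  have := same k
  rw [← this.1, hk] at this
  simp at this

theorem touch_upper (n : ℕ) : touch n ≤ arm (half 0 1) n := by
  have h1 := Q_AG_le (syY 0) (x := 0) (x' := 0) (n := n) (S := {z | 0 ≤ z.2}) (T := half 0 1)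
    (by omega) (by simp [syY]) (fun y => by simp [syY, nm]) fun z hz => by
      simpa [syY, half] using hz
  have h2 := Q_AG_le (syT (-n) 0) (x := (n, 0)) (x' := 0) (n := n) (S := {z | 0 ≤ z.2})
    (T := {z | 0 ≤ z.2}) (by omega) (by simp [syT]) (fun y => by simp [syT, nm, sub_eq_add_neg])
    fun z hz => by simpa [syT] using hz
  rw [arm_eq]
  refine le_trans (Pr_mono ?_) (h2.trans h1)
  rintro ω ⟨k, hk⟩
  have h3 := path_conn ω k
  rw [hk] at h3
  obtain ⟨y, y1, y2⟩ := h3.symm'.hit (f := fun z => -z.1) (b := 0)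
    (fun a d => by have := abs_le.1 (lip_fst a d); omega) (by simp) (by simp)
  refine ⟨y, by simp only [nm, abs_eq_max_neg]; omega, ?_⟩
  refine (y2.ind (p := fun z => 0 ≤ z.2 ∧ Conn ω {z | 0 ≤ z.2} (n, 0) z) ⟨le_rfl, Conn.rfl'⟩
    fun a d _ ha hb ho ih => ?_).2
  have p := bc_pos ho
  have q : 0 ≤ (a + u d).2 := by
    have := ih.1
    rcases cases4 d with rfl | rfl | rfl | rfl <;> simp at p ⊢ <;> omega
  refine ⟨q, ih.2.snoc ih.1 q ?_⟩
  have ha := ha.2
  have hb := hb.2
  unfold bc at ho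
  split_ifs at ho with c1 c2
  · rw [decide_eq_true_eq] at ho
    rcases cases4 d with rfl | rfl | rfl | rfl <;> simp at ho ha hb c2 <;> omega
  · exact ho

theorem touch_lower : ∃ c : ℝ, 0 < c ∧ ∀ n k : ℕ, 1 ≤ n → n < 2 * k →
    c * arm (half 0 1) (12 * k) ≤ touch n := by
  obtain ⟨c, hc, h⟩ := Q_BE
  refine ⟨c / 2, by positivity, fun n k hn hk => ?_⟩
  set m : ℤ := 2 * k with hm
  have m0 : 0 < m := by omega
  let L : Set V := {z | z.2 < 7 * m}
  let z : V := (2 * m + 1 + n, 7 * m - 1)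
  let W : Set V := {w | w ∈ Rc 0 (4 * m) 0 (7 * m) ∧ (w.2 < 7 * m ∨ w.1 ≤ 2 * m ∨ w.1 = z.1)}
  have h1 := harris3 (loc_BE m) (loc_AG z L (n := 6 * m) (by omega))
    ((dep_eval (edge z 1) true).loc (Set.finite_singleton _)) (up_BE m) (up_AG ..)
    fun ω ω' h b => by
      have := h (edge z 1)
      rw [show ω (edge z 1) = true from b] at this
      exact top_le_iff.1 this
  have h2 : Q (BE m ∩ AG z L (6 * m) ∩ {ω | ω (edge z 1) = true}) ≤
      Q {ω | ∃ x y, (x = z + u 1 ∧ y.2 = 7 * m ∧ y.1 ≤ 2 * m) ∧ Conn ω W x y} := by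
    refine Pr_mono ?_
    rintro ω ⟨⟨⟨⟨v1, v2⟩, q, q', ⟨q1, q2, q3⟩, q4⟩, az⟩, oz⟩
    have hL : ∀ z, z + u 1 ∈ L → z ∈ L := fun z hz => by simp [L] at hz ⊢; omega
    have hR : Rc 0 (4 * m) 0 (2 * m) ⊆ L := fun z hz => by simp [L, mem_Rc] at hz ⊢; omega
    have b1 := bar_z (z := z) m0 hL hR (fun z hz _ => le_of_lt hz) q4 q1 q2 q3 v1 v2 (by simp [L, z])
      (by simp only [z]; omega) (by simp only [z]; omega) (by simp only [z]; omega) az
    obtain ⟨p, p', ⟨p1, p2, p3⟩, p4⟩ := v1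
    have b2 := (bar_v m0 hL hR q4 q1 q2 q3 (by omega) (by omega) (by omega) p1 p2 p3 p4).1
    refine ⟨_, p', ⟨rfl, p3, (p4.mem p1).2.1⟩, (Conn.one (S := W) ?_ ?_ oz).symm'.trans'
      (((b1.trans' b2.symm').mono_set (T := W) fun w hw => ⟨hw.1, Or.inl hw.2⟩).trans'
        (p4.mono_set fun w hw => ?_))⟩
    · simp only [W, z, mem_Rc, Set.mem_ofPred_eq]; omega
    · simp [W, z, mem_Rc]; omega
    · simp only [W, z, mem_Rc, Set.mem_ofPred_eq] at hw ⊢; omega
  have fW : W.Finite := (Rc_finite ..).subset fun _ hw => hw.1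
  let W' : Set V := {w | w ∈ Rc (-(2 * m + 1)) (2 * m) 0 (7 * m) ∧ (w.2 < 7 * m ∨ w.1 < 0 ∨ w.1 = n)}
  have h3 := Q_conn_le (syT (-(2 * m + 1)) 0) fW (T := W')
    (r := fun x y => x = z + u 1 ∧ y.2 = 7 * m ∧ y.1 ≤ 2 * m)
    (r' := fun x y => x = ((n : ℤ), 7 * m) ∧ y.2 = 7 * m ∧ y.1 < 0)
    (fun w hw => by simp only [W, W', z, syT, mem_Rc, Set.mem_ofPred_eq] at hw ⊢; omega)
    fun x y b => by simp [z, syT, Prod.ext_iff] at b ⊢; omega
  have h4 := Q_conn_le (syY (7 * m)) (S := W') ((Rc_finite ..).subset fun _ hw => hw.1)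
    (T := {w | 0 < w.2 ∨ (w.2 = 0 ∧ (w.1 < 0 ∨ w.1 = n))})
    (r := fun x y => x = ((n : ℤ), 7 * m) ∧ y.2 = 7 * m ∧ y.1 < 0)
    (r' := fun x y => x = ((n : ℤ), 0) ∧ y.2 = 0 ∧ y.1 < 0)
    (fun w hw => by simp only [W', syY, mem_Rc, Set.mem_ofPred_eq] at hw ⊢; omega)
    fun x y b => by simp [syY, Prod.ext_iff] at b ⊢; omega
  have h5 : Q {ω | ∃ x y : V, (x = ((n : ℤ), 0) ∧ y.2 = 0 ∧ y.1 < 0) ∧
      Conn ω {w | 0 < w.2 ∨ (w.2 = 0 ∧ (w.1 < 0 ∨ w.1 = n))} x y} ≤ touch n := by
    refine Pr_mono ?_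
    rintro ω ⟨_, ⟨i, j⟩, ⟨rfl, y1, y2⟩, b⟩
    simp only at y1 y2
    subst y1
    refine path_hits (by omega) (Conn.symm' (Conn.trans' (b.mono (Set.subset_univ _) ?_) ?_))
    · rintro ⟨⟨x, y⟩, d⟩ he ho
      cases d <;> simp [bc, In, ho] at he ⊢ <;> omega
    · have := line (ω := bc ω) (S := Set.univ) (i, 0) 0 (-i).toNat (fun _ _ => trivial)
        fun k hk => by simp [bc]; omega
      convert this using 1
      ext <;> simp
      omega
  have h6 := Q_AG_le (syT z.1 z.2) (x := 0) (x' := z) (n := 6 * m) (S := half 0 1) (T := L)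
    (by omega) (by simp [syT]) (fun y => by simp [syT, nm]) fun w hw => by
      have : (w.2 : ℝ) ≤ 0 := by simpa [half] using hw
      have : w.2 ≤ 0 := by exact_mod_cast this
      simp only [syT, L, z, Set.mem_ofPred_eq]
      omega
  have e : ((12 * k : ℕ) : ℤ) = 6 * m := by omega
  rw [arm_eq, e]
  rw [Q_edge] at h1
  have h7 := mul_le_mul (h k (by omega)) h6 (Pr_nonneg _ _) (Pr_nonneg _ _)
  linarith

theorem touch_nonneg (n : ℕ) : 0 ≤ touch n := MeasureTheory.measureReal_nonneg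

theorem corner_touch : ∃ c C : ℝ, 0 < c ∧ 0 < C ∧ ∀ n : ℕ, 1 ≤ n →
    c ≤ n * (arm quad n * touch n) ∧ n * (arm quad n * touch n) ≤ C := by
  obtain ⟨C, hC, h⟩ := prod_bounds
  obtain ⟨c, hc, h'⟩ := touch_lower
  refine ⟨c / (22 * 12), C, by positivity, hC, fun n hn => ⟨?_, le_trans ?_ (h 0 1 (by simp) n hn).2⟩⟩
  · have h1 := (h 0 1 (by simp) (12 * n) (by omega)).1
    have h2 := h' n n hn (by omega)
    have h3 := arm_anti quad (show n ≤ 12 * n by omega)
    have h4 := mul_le_mul h3 h2 (mul_nonneg hc.le (arm_nonneg _ _)) (arm_nonneg _ _)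
    have h5 := mul_le_mul_of_nonneg_left h4 (Nat.cast_nonneg (α := ℝ) n)
    push_cast at h1
    nlinarith
  · exact mul_le_mul_of_nonneg_left (mul_le_mul_of_nonneg_left (touch_upper n) (arm_nonneg _ _))
      (Nat.cast_nonneg _)

theorem touch_half : ∃ c C : ℝ, 0 < c ∧ ∀ a b : ℝ, (a, b) ≠ 0 → ∀ n : ℕ, 1 ≤ n →
    c * arm (half a b) n ≤ touch n ∧ touch n ≤ C * arm (half a b) n := by
  obtain ⟨C, hC, h⟩ := prod_bounds
  obtain ⟨c, C', hc, hC', h'⟩ := corner_touch
  refine ⟨c / C, 22 * C', by positivity, fun a b hab n hn => ?_⟩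
  obtain ⟨h1, h2⟩ := h a b hab n hn
  obtain ⟨h3, h4⟩ := h' n hn
  rw [← mul_assoc] at h1 h2 h3 h4
  have h5 := touch_nonneg n
  have h6 := arm_nonneg (half a b) n
  generalize n * arm quad n = X at *
  constructor
  · rw [div_mul_eq_mul_div, div_le_iff₀ hC]
    nlinarith [mul_le_mul_of_nonneg_right h3 h6, mul_le_mul_of_nonneg_right h2 h5]
  · nlinarith [mul_le_mul_of_nonneg_right h1 h5, mul_le_mul_of_nonneg_right h4 h6]

end Pool.Agent.P.MP_6c8efb_pr
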