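import Pool.Agent.P.MP_6c8efb_pr.Loop

/-! The loop around the cluster of the corner of a Young diagram. -/

namespace Pool.Agent.P.MP_6c8efb_pr

open Function

/-- the starting dart -/
def c0 : D := ((0, 0), 3)

/-- Young diagrams -/
structure Yg (S : Set V) : Prop where
  fin : S.Finite
  zero : (0, 0) ∈ S
  pos : ∀ x ∈ S, 0 ≤ x.1 ∧ 0 ≤ x.2
  down : ∀ x ∈ S, ∀ y : V, 0 ≤ y.1 → y.1 ≤ x.1 → 0 ≤ y.2 → y.2 ≤ x.2 → y ∈ S

theorem exists_loop {ω : Cfg} {A : Set V} (hA : A.Finite) (hω : ∀ e, ω e = true → e ∈ In A)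
    (c : D) : ∃ l, Lp (step ω) c l := by
  refine exists_lp (step_inj ω) ((hA.insert c.1).prod (Set.toFinite (Set.univ : Set (Fin 4))))
    fun k => ⟨?_, trivial⟩
  induction k with
  | zero => simp
  | succ k ih =>
    rw [iterate_succ_apply']
    by_cases b : ω (ed ((step ω)^[k] c)) = true
    · rw [step_open b]; exact Or.inr (edge_mem_In.1 (hω _ b)).2
    · rw [step_closed b]; exact ih

variable {S : Set V} {ω : Cfg} {l : List D}

theorem Yg.ray (hS : Yg S) {x : V} {d : Fin 4} (hx : x ∈ S) (hd : x + u d ∉ S) (k : ℕ) :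
    x + (k + 1) • u d ∉ S := by
  intro h
  have h1 := hS.pos _ hx
  have h2 := hS.pos _ h
  rcases cases4 d with rfl | rfl | rfl | rfl
  · exact hd (hS.down _ h _ (by simp; omega) (by simp) (by simp; omega) (by simp))
  · exact hd (hS.down _ h _ (by simp; omega) (by simp) (by simp; omega) (by simp))
  · exact hd (hS.down _ hx _ (by simp at h2 ⊢; omega) (by simp) (by simp; omega) (by simp))
  · exact hd (hS.down _ hx _ (by simp; omega) (by simp) (by simp at h2 ⊢; omega) (by simp))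

theorem Yg.ray_closed (hS : Yg S) (hω : ∀ e, ω e = true → e ∈ In S) {x : D} (hx : x.1 ∈ S)
    (hd : x.1 + u x.2 ∉ S) (k : ℕ) : ¬ ω (edge (x.1 + (k + 1) • u x.2) (x.2 - 1)) = true :=
  fun h => hS.ray hx hd k (edge_mem_In.1 (hω _ h)).1

theorem Yg.c0_out (hS : Yg S) : c0.1 + u c0.2 ∉ S := fun h => by
  have := hS.pos _ h
  simp [c0] at this

theorem loop_four (hS : Yg S) (hω : ∀ e, ω e = true → e ∈ In S) (h : Lp (step ω) c0 l) :
    (l.map (tau ω)).sum = 4 := turn_four h (hS.ray_closed hω hS.zero hS.c0_out)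

theorem loop_conn (hS : Yg S) (hω : ∀ e, ω e = true → e ∈ In S) (h : Lp (step ω) c0 l) :
    ∀ x ∈ l, x.1 ∈ S ∧ Conn ω S (0, 0) x.1 :=
  h.ind ⟨hS.zero, Conn.rfl'⟩ fun x _ ih => by
    by_cases b : ω (ed x) = true
    · rw [step_open b]
      have := (edge_mem_In.1 (hω _ b)).2
      exact ⟨this, ih.2.snoc ih.1 this b⟩
    · rw [step_closed b]; exact ih

theorem loop_mem (hS : Yg S) (hω : ∀ e, ω e = true → e ∈ In S) (h : Lp (step ω) c0 l) {x : D}
    (hx : x.1 ∈ S) (hd : x.1 + u x.2 ∉ S) (hc : Conn ω S (0, 0) x.1) : x ∈ l := by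
  obtain ⟨IV, IF, hI⟩ := exists_idx h
  have h1 := idx_ray h hI c0 (hS.ray_closed hω hS.zero hS.c0_out)
  have h2 := idx_ray h hI x (hS.ray_closed hω hx hd)
  have h3 := idx_vertex h hI h.mem
  have h4 := hc.ind (p := fun y => IV y = IV c0.1) rfl fun a d _ _ _ ho ih =>
    (idx_open h hI (x := (a, d)) ho).trans ih
  have h5 := hI.rel x
  by_contra b
  rw [ch, if_neg b] at h5
  omega

/-- `q` is reached from `p` with total turn `w`, without passing the starting dart -/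
def Rch (ω : Cfg) (p q : D) (w : ℤ) : Prop :=
  ∃ m, Wk (step ω) p m q ∧ c0 ∉ m ∧ (m.map (tau ω)).sum = w

theorem Rch.trans {p q r : D} {w w' : ℤ} (h : Rch ω p q w) (h' : Rch ω q r w') :
    Rch ω p r (w + w') := by
  obtain ⟨m, h1, h2, h3⟩ := h
  obtain ⟨m', h4, h5, h6⟩ := h'
  exact ⟨m ++ m', wk_append.2 ⟨_, h1, h4⟩, by simp [h2, h5], by simp [h3, h6]⟩

theorem Rch.op {p : D} (hp : p ≠ c0) (h : ω (ed p) = true) : Rch ω p (rot (opp p)) (-1) :=
  ⟨[p], ⟨rfl, step_open h⟩, by simp [hp.symm], by simp [tau_open h]⟩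

theorem Rch.cl {p : D} (hp : p ≠ c0) (h : ¬ ω (ed p) = true) : Rch ω p (rot p) 1 :=
  ⟨[p], ⟨rfl, step_closed h⟩, by simp [hp.symm], by simp [tau_closed h]⟩

theorem straight (y : V) (d : Fin 4) (n : ℕ) (z : V) (hz : z = y + n • u d) (h0 : (y, d) ≠ c0)
    (h1 : ∀ k : ℕ, k < n → y + (k + 1) • u d ≠ (0, 0))
    (h2 : ∀ k : ℕ, k < n → ω (edge (y + k • u d) d) = true)
    (h3 : ∀ k : ℕ, k < n → ¬ ω (edge (y + (k + 1) • u d) (d - 1)) = true)
    (h4 : ¬ ω (edge z d) = true) : Rch ω (y, d) (z, d + 1) 1 := by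
  have ne : ∀ k ≤ n, (y + k • u d, d) ≠ c0 := fun k hk => by
    cases k with
    | zero => simpa using h0
    | succ k => exact fun b => h1 k hk (congrArg Prod.fst b)
  have key : ∀ k ≤ n, Rch ω (y, d) (y + k • u d, d) 0 := fun k hk => by
    induction k with
    | zero => exact ⟨[], by simp, by simp, rfl⟩
    | succ k ih =>
      have e : rot (opp (y + k • u d, d)) = (y + (k + 1) • u d, d - 1) := by
        rw [succ_nsmul, ← add_assoc, rot, opp]
        rcases cases4 d with rfl | rfl | rfl | rfl <;> rfl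
      have a1 := Rch.op (ne k (by omega)) (h2 k hk)
      rw [e] at a1
      have a2 := Rch.cl (p := (y + (k + 1) • u d, d - 1))
        (fun b => h1 k hk (congrArg Prod.fst b)) (h3 k hk)
      simpa [rot] using ((ih (by omega)).trans a1).trans a2
  subst hz
  simpa [rot] using (key n le_rfl).trans (Rch.cl (ne n le_rfl) h4)

theorem Lp.succ_ne {α : Type*} {σ : α → α} {c h y : α} {a b : List α} (hl : Lp σ c (a ++ h :: b))
    (hy : y ∈ a) : σ y ≠ c := by
  obtain ⟨a1, a2, rfl⟩ := List.append_of_mem hy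
  obtain ⟨t, e, -, h2⟩ := hl.eq_cons
  have h3 := hl.2.1
  rw [List.append_assoc, List.cons_append] at h3 e
  have h4 : σ y ∈ a2 ++ h :: b := by
    have := (wk_mid.1 h3).2
    cases a2 with
    | nil => simp [this.1]
    | cons x a2 => simp [this.1]
  rintro rfl
  apply h2
  cases a1 with
  | nil => rwa [← (List.cons.inj e).2]
  | cons x a1 =>
    rw [← (List.cons.inj e).2]
    exact List.mem_append_right _ (List.mem_cons_of_mem _ h4)

theorem wind_core (hS : Yg S) (hω : ∀ e, ω e = true → e ∈ In S) {a b : List D} {h : D}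
    (hl : Lp (step ω) c0 (a ++ h :: b)) (hc : h ≠ c0) (X : E → Prop) [DecidablePred X]
    (h1 : ∀ y : D, y.1 ∈ S → X (ed y) → y = h ∨ y = ((0, 0), 2))
    (h2 : ∀ k : ℕ, ¬ X ((-1, -(k + 1 : ℤ)), true)) {w : ℤ}
    (h3 : Rch (fun e => ω e || decide (X e)) h c0 w) : (a.map (tau ω)).sum + w = 4 := by
  set ω' : Cfg := fun e => ω e || decide (X e) with hω'
  have k1 : ∀ y ∈ a, ω' (ed y) = ω (ed y) := fun y hy => by
    have : ¬ X (ed y) := fun b => by
      rcases h1 y (loop_conn hS hω hl y (by simp [hy])).1 b with rfl | rfl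
      · exact (List.nodup_append.1 hl.2.2).2.2 y hy y (by simp) rfl
      · refine hl.succ_ne hy (step_closed fun b => ?_)
        have := hS.pos _ (hω _ b).1
        simp [ed] at this
    simp [hω', this]
  obtain ⟨m, m1, m2, m3⟩ := h3
  obtain ⟨t, e, -, t2⟩ := hl.eq_cons
  cases a with
  | nil => exact absurd (List.cons.inj e).1 hc
  | cons x a =>
    obtain ⟨rfl, rfl⟩ := List.cons.inj e
    have w1 : Wk (step ω') c0 (c0 :: a) h :=
      (wk_mid.1 hl.2.1).1.congr fun y hy => step_congr (k1 y hy)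
    have := turn_four (Lp.of (wk_append.2 ⟨_, w1.2, m1⟩) fun b =>
      (List.mem_append.1 b).elim (fun b => t2 (List.mem_append_left _ b)) m2) fun k b => by
        simp only [hω', Bool.or_eq_true, decide_eq_true_eq] at b
        rcases b with b | b
        · exact hS.ray_closed hω hS.zero hS.c0_out k b
        · exact h2 k (by simpa [c0] using b)
    rw [← List.cons_append, List.map_append, List.sum_append, sum_congr k1, m3] at this
    exact this

theorem finish {ω : Cfg} {y : ℤ} (hy : 0 ≤ y) (h1 : ∀ k, 0 ≤ k → k < y → ω ((-1, k), false) = true)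
    (h2 : ∀ k, 0 ≤ k → k < y → ¬ ω ((-2, k), true) = true) (h3 : ¬ ω ((-1, -1), false) = true)
    (h4 : ω ((-1, 0), true) = true) : Rch ω ((-1, y), 3) c0 0 := by
  have a1 := straight (ω := ω) (-1, y) 3 y.toNat (-1, 0) (by ext <;> simp; omega) (by simp [c0])
    (by simp) (fun k hk => by simpa using h1 (y + -k - 1) (by omega) (by omega))
    (fun k hk => by simpa using h2 (y + (-1 + -k)) (by omega) (by omega)) (by simpa using h3)
  have a2 := Rch.op (ω := ω) (p := ((-1, 0), 0)) (by simp [c0]) h4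
  simpa [rot, opp, c0] using a1.trans a2

/-- winding of the outer darts -/
def th : Fin 4 → ℤ := ![1, 2, 3, 0]

set_option linter.unnecessarySeqFocus false in
set_option linter.unusedTactic false in
set_option maxHeartbeats 1000000 in
set_option linter.unreachableTactic false in
theorem wind (hS : Yg S) (hω : ∀ e, ω e = true → e ∈ In S) {a b : List D} {h : D}
    (hl : Lp (step ω) c0 (a ++ h :: b)) (ho : h.1 + u h.2 ∉ S) : (a.map (tau ω)).sum = th h.2 := by
  have hx := (loop_conn hS hω hl h (by simp)).1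
  obtain ⟨M, hM⟩ : ∃ M : ℤ, ∀ x ∈ S, x.1 < M ∧ x.2 < M := by
    obtain ⟨M, hM⟩ := (hS.fin.image fun x : V => max x.1 x.2).bddAbove
    exact ⟨M + 1, fun x hx => by have := hM ⟨x, hx, rfl⟩; simp only at this; omega⟩
  obtain ⟨⟨i, j⟩, d⟩ := h
  have p1 := hS.pos _ hx
  have p2 := hM _ hx
  simp only at p1 p2 ho
  have out : ∀ z : V, (z.1 < 0 ∨ z.2 < 0 ∨ M ≤ z.1 ∨ M ≤ z.2 ∨ (d = 0 ∧ z.2 = j ∧ i < z.1) ∨
      (d = 1 ∧ z.1 = i ∧ j < z.2)) → z ∉ S := fun z hz b => by
    have q1 := hS.pos _ b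
    have q2 := hM _ b
    rcases hz with hz | hz | hz | hz | ⟨rfl, hz⟩ | ⟨rfl, hz⟩
    iterate 4 omega
    all_goals exact ho (hS.down _ b _ (by simp; omega) (by simp; omega) (by simp; omega)
      (by simp; omega))
  have ins : ∀ z ∈ S, ¬ (z.1 < 0 ∨ z.2 < 0 ∨ M ≤ z.1 ∨ M ≤ z.2 ∨ (d = 0 ∧ z.2 = j ∧ i < z.1) ∨
      (d = 1 ∧ z.1 = i ∧ j < z.2)) := fun z hz b => out z b hz
  have cl : ∀ (X : E → Prop) [DecidablePred X] (e : E), ¬ X e → ((e.1.1 < 0 ∨ e.1.2 < 0 ∨
      M ≤ e.1.1 ∨ M ≤ e.1.2 ∨ (d = 0 ∧ e.1.2 = j ∧ i < e.1.1) ∨ (d = 1 ∧ e.1.1 = i ∧ j < e.1.2)) ∨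
      (d = 0 ∧ (hd e).2 = j ∧ i < (hd e).1)) →
      ¬ (ω e || decide (X e)) = true := fun X _ e b1 b2 b3 => by
    simp only [b1, decide_false, Bool.or_false] at b3
    have := hω e b3
    exact b2.elim (ins _ this.1) fun b => ins _ this.2 (by tauto)
  rcases cases4 d with rfl | rfl | rfl | rfl
  · let X : E → Prop := fun e => if e.2 then (e.1.2 = j ∧ i ≤ e.1.1 ∧ e.1.1 < M) ∨
      (e.1.2 = M ∧ -1 ≤ e.1.1 ∧ e.1.1 < M) ∨ (e.1.1 = -1 ∧ e.1.2 = 0) else
      (e.1.1 = M ∧ j ≤ e.1.2 ∧ e.1.2 < M) ∨ (e.1.1 = -1 ∧ 0 ≤ e.1.2 ∧ e.1.2 < M)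
    have := wind_core hS hω hl (by simp [c0]) X ?_ (fun k => by simp [X]; omega) (w := 1 + 1 + 1 + 0)
      (((straight (i, j) 0 (M - i).toNat (M, j) ?_ ?_ ?_ ?_ ?_ ?_).trans
        (straight (M, j) 1 (M - j).toNat (M, M) ?_ ?_ ?_ ?_ ?_ ?_)).trans
        (straight (M, M) 2 (M + 1).toNat (-1, M) ?_ ?_ ?_ ?_ ?_ ?_) |>.trans
        (finish (by omega) ?_ ?_ ?_ ?_))
    · simp [th]; omega
    · rintro ⟨⟨x, y⟩, d⟩ b1 b2
      have := ins _ b1
      rcases cases4 d with rfl | rfl | rfl | rfl <;> simp [X, ed] at b2 this ⊢ <;> omega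
    all_goals first
      | (intros; refine cl X _ ?_ ?_ <;> simp [X] <;> omega)
      | (ext <;> simp <;> omega)
      | (intros; simp [X, c0] <;> omega)
  · let X : E → Prop := fun e => if e.2 then
      (e.1.2 = M ∧ -1 ≤ e.1.1 ∧ e.1.1 < i) ∨ (e.1.1 = -1 ∧ e.1.2 = 0) else
      (e.1.1 = i ∧ j ≤ e.1.2 ∧ e.1.2 < M) ∨ (e.1.1 = -1 ∧ 0 ≤ e.1.2 ∧ e.1.2 < M)
    have := wind_core hS hω hl (by simp [c0]) X ?_ (fun k => by simp [X]; omega) (w := 1 + 1 + 0)
      (((straight (i, j) 1 (M - j).toNat (i, M) ?_ ?_ ?_ ?_ ?_ ?_)).trans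
        (straight (i, M) 2 (i + 1).toNat (-1, M) ?_ ?_ ?_ ?_ ?_ ?_) |>.trans
        (finish (by omega) ?_ ?_ ?_ ?_))
    · simp [th]; omega
    · rintro ⟨⟨x, y⟩, d⟩ b1 b2
      have := ins _ b1
      rcases cases4 d with rfl | rfl | rfl | rfl <;> simp [X, ed] at b2 this ⊢ <;> omega
    all_goals first
      | (intros; refine cl X _ ?_ ?_ <;> simp [X] <;> omega)
      | (ext <;> simp <;> omega)
      | (intros; simp [X, c0] <;> omega)
  · obtain rfl : i = 0 := by
      by_contra b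
      exact ho (hS.down _ hx _ (by simp; omega) (by simp) (by simp; omega) (by simp))
    by_cases hj : j = 0
    · subst hj
      have cz : ¬ ω (ed ((0, 0), 2)) = true := fun b => ho (edge_mem_In.1 (hω _ b)).2
      have h1 := loop_four hS hω hl
      have h2 := (wk_mid.1 hl.2.1).2
      rw [step_closed cz] at h2
      obtain rfl : b = [] := by
        cases b with
        | nil => rfl
        | cons y b =>
          have := Lp.succ_ne (a := a ++ [((0, 0), 2)]) (h := y) (b := b) (y := ((0, 0), 2))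
            (by simpa using hl) (by simp)
          exact absurd (step_closed cz) this
      simp [tau_closed cz] at h1
      simp [th]; omega
    let X : E → Prop := fun e => if e.2 then
      (e.1.2 = j ∧ e.1.1 = -1) ∨ (e.1.1 = -1 ∧ e.1.2 = 0) else
      (e.1.1 = -1 ∧ 0 ≤ e.1.2 ∧ e.1.2 < j)
    have := wind_core hS hω hl (by simp [c0]) X ?_ (fun k => by simp [X]; omega) (w := 1 + 0)
      ((straight (0, j) 2 1 (-1, j) ?_ ?_ ?_ ?_ ?_ ?_).trans
        (finish (by omega) ?_ ?_ ?_ ?_))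
    · simp [th]; omega
    · rintro ⟨⟨x, y⟩, d⟩ b1 b2
      have := ins _ b1
      rcases cases4 d with rfl | rfl | rfl | rfl <;> simp [X, ed] at b2 this ⊢ <;> omega
    all_goals first
      | (intros; refine cl X _ ?_ ?_ <;> simp [X] <;> omega)
      | (ext <;> simp <;> omega)
      | (intros; simp [X, c0] <;> omega)
  · obtain rfl : j = 0 := by
      by_contra b
      exact ho (hS.down _ hx _ (by simp; omega) (by simp) (by simp; omega) (by simp))
    by_cases hi : i = 0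
    · subst hi
      obtain ⟨t, e, -, t2⟩ := hl.eq_cons
      cases a with
      | nil => simp [th]
      | cons x a =>
        obtain ⟨rfl, rfl⟩ := List.cons.inj e
        exact absurd (List.mem_append_right _ List.mem_cons_self) t2
    let X : E → Prop := fun e => if e.2 then (e.1.2 = -1 ∧ i ≤ e.1.1 ∧ e.1.1 < M) ∨
      (e.1.2 = M ∧ -1 ≤ e.1.1 ∧ e.1.1 < M) ∨ (e.1.1 = -1 ∧ e.1.2 = 0) else
      (e.1.1 = i ∧ e.1.2 = -1) ∨
      (e.1.1 = M ∧ -1 ≤ e.1.2 ∧ e.1.2 < M) ∨ (e.1.1 = -1 ∧ 0 ≤ e.1.2 ∧ e.1.2 < M)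
    have := wind_core hS hω hl (by simp [c0, hi]) X ?_ (fun k => by simp [X]; omega)
      (w := 1 + 1 + 1 + 1 + 0)
      ((((straight (i, 0) 3 1 (i, -1) ?_ ?_ ?_ ?_ ?_ ?_).trans
        (straight (i, -1) 0 (M - i).toNat (M, -1) ?_ ?_ ?_ ?_ ?_ ?_)).trans
        (straight (M, -1) 1 (M + 1).toNat (M, M) ?_ ?_ ?_ ?_ ?_ ?_)).trans
        (straight (M, M) 2 (M + 1).toNat (-1, M) ?_ ?_ ?_ ?_ ?_ ?_) |>.trans
        (finish (by omega) ?_ ?_ ?_ ?_))
    · simp [th]; omega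
    · rintro ⟨⟨x, y⟩, d⟩ b1 b2
      have := ins _ b1
      rcases cases4 d with rfl | rfl | rfl | rfl <;> simp [X, ed] at b2 this ⊢ <;> omega
    all_goals first
      | (intros; refine cl X _ ?_ ?_ <;> simp [X] <;> omega)
      | (ext <;> simp <;> omega)
      | (intros; simp [X, c0] <;> omega)

end Pool.Agent.P.MP_6c8efb_pr
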